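import Pool.Agent.Lib.MP_496a9e_al.One

/-!
# Algebra of `sl(2)`: raising and lowering operators and the Casimir operator
-/

namespace Pool.Agent.SGap

variable {V : Type*} [AddCommGroup V] [Module ℂ V]

/-- the bracket of `sl(2)` -/
def br (Z Z' : sl2) : sl2 :=
  ⟨(Z : Matrix (Fin 2) (Fin 2) ℝ) * (Z' : Matrix (Fin 2) (Fin 2) ℝ) -
    (Z' : Matrix (Fin 2) (Fin 2) ℝ) * (Z : Matrix (Fin 2) (Fin 2) ℝ), by
    rw [mem_sl2, Matrix.trace_sub, Matrix.trace_mul_comm, sub_self]⟩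

theorem br_HX : br Hmat Xmat = (2 : ℝ) • Wmat := by
  apply Subtype.ext
  simp only [br, coe_H, coe_X, Submodule.coe_smul, coe_W, Matrix.mul_fin_two]
  ext i j
  fin_cases i <;> fin_cases j <;> norm_num

theorem br_WH : br Wmat Hmat = (-2 : ℝ) • Xmat := by
  apply Subtype.ext
  simp only [br, coe_H, coe_X, Submodule.coe_smul, coe_W, Matrix.mul_fin_two]
  ext i j
  fin_cases i <;> fin_cases j <;> norm_num

theorem br_WX : br Wmat Xmat = (2 : ℝ) • Hmat := by
  apply Subtype.ext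
  simp only [br, coe_H, coe_X, Submodule.coe_smul, coe_W, Matrix.mul_fin_two]
  ext i j
  fin_cases i <;> fin_cases j <;> norm_num

theorem sl2_span (Z : sl2) : ∃ a b c : ℝ, Z = a • Hmat + b • Xmat + c • Wmat := by
  have ht := (mem_sl2 _).1 Z.2
  rw [Matrix.trace_fin_two] at ht
  refine ⟨(Z : Matrix (Fin 2) (Fin 2) ℝ) 0 0,
    ((Z : Matrix (Fin 2) (Fin 2) ℝ) 0 1 + (Z : Matrix (Fin 2) (Fin 2) ℝ) 1 0) / 2,
    ((Z : Matrix (Fin 2) (Fin 2) ℝ) 0 1 - (Z : Matrix (Fin 2) (Fin 2) ℝ) 1 0) / 2, ?_⟩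
  apply Subtype.ext
  simp only [coe_H, coe_X, Submodule.coe_smul, Submodule.coe_add, coe_W]
  ext i j
  fin_cases i <;> fin_cases j
  · simp
  · simp; ring
  · simp; ring
  · simp; linarith

/-- `D` is a representation of `sl(2)` -/
def IsRep (D : sl2 →ₗ[ℝ] (V →ₗ[ℂ] V)) : Prop :=
  ∀ (Z Z' : sl2) (v : V), D (br Z Z') v = D Z (D Z' v) - D Z' (D Z v)

/-- the raising (`ε = 1`) and lowering (`ε = -1`) operator -/
noncomputable def EE (D : sl2 →ₗ[ℝ] (V →ₗ[ℂ] V)) (ε : ℤ) : V →ₗ[ℂ] V :=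
  (1 / 2 : ℂ) • (D Hmat + (Complex.I * ε) • D Xmat)

/-- the Casimir operator -/
noncomputable def Om (D : sl2 →ₗ[ℝ] (V →ₗ[ℂ] V)) : V →ₗ[ℂ] V :=
  D Hmat * D Hmat + D Xmat * D Xmat - D Wmat * D Wmat

variable {D : sl2 →ₗ[ℝ] (V →ₗ[ℂ] V)}

theorem EE_apply (ε : ℤ) (v : V) : EE D ε v =
    (1 / 2 : ℂ) • (D Hmat v + (Complex.I * ε) • D Xmat v) := rfl

theorem Om_apply (v : V) : Om D v =
    D Hmat (D Hmat v) + D Xmat (D Xmat v) - D Wmat (D Wmat v) := rfl

theorem IsRep.HX (h : IsRep D) (v : V) : D Hmat (D Xmat v) = D Xmat (D Hmat v) + (2 : ℂ) • D Wmat v := by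
  have := h Hmat Xmat v
  rw [br_HX, map_smul] at this
  have e : ((2 : ℝ) • D Wmat) v = (2 : ℂ) • D Wmat v := by
    rw [LinearMap.smul_apply, ← Complex.coe_smul]
    norm_num
  rw [e] at this
  rw [this]; abel

theorem IsRep.WH (h : IsRep D) (v : V) : D Wmat (D Hmat v) = D Hmat (D Wmat v) - (2 : ℂ) • D Xmat v := by
  have := h Wmat Hmat v
  rw [br_WH, map_smul] at this
  have e : ((-2 : ℝ) • D Xmat) v = -((2 : ℂ) • D Xmat v) := by
    rw [LinearMap.smul_apply, ← Complex.coe_smul, ← neg_smul]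
    norm_num
  rw [e] at this
  rw [sub_eq_add_neg, this]; abel

theorem IsRep.WX (h : IsRep D) (v : V) : D Wmat (D Xmat v) = D Xmat (D Wmat v) + (2 : ℂ) • D Hmat v := by
  have := h Wmat Xmat v
  rw [br_WX, map_smul] at this
  have e : ((2 : ℝ) • D Hmat) v = (2 : ℂ) • D Hmat v := by
    rw [LinearMap.smul_apply, ← Complex.coe_smul]
    norm_num
  rw [e] at this
  rw [this]; abel

/-- `E_ε` shifts the weight by `2ε`. -/
theorem IsRep.W_EE (h : IsRep D) (ε : ℤ) (hε : ε = 1 ∨ ε = -1) (n : ℤ) (v : V)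
    (hv : D Wmat v = (Complex.I * n) • v) :
    D Wmat (EE D ε v) = (Complex.I * ((n + 2 * ε : ℤ) : ℂ)) • EE D ε v := by
  rw [EE_apply, map_smul, map_add, map_smul, h.WH, h.WX, hv, map_smul, map_smul]
  have hI : Complex.I * Complex.I = -1 := Complex.I_mul_I
  generalize D Hmat v = a
  generalize D Xmat v = b
  have hee : (ε : ℂ) * ε = 1 := by
    rcases hε with rfl | rfl <;> norm_num
  rw [smul_comm _ (1 / 2 : ℂ)]
  congr 1
  have e1 : (Complex.I * ((n + 2 * ε : ℤ) : ℂ)) = Complex.I * n + 2 * (Complex.I * ε) := by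
    push_cast; ring
  have e2 : (Complex.I * (ε : ℂ)) * (Complex.I * (ε : ℂ)) = -1 := by
    linear_combination (ε : ℂ) * ε * hI - hee
  rw [e1, smul_add (Complex.I * (n : ℂ) + 2 * (Complex.I * ε)), smul_smul, add_mul, mul_assoc 2, e2]
  module

/-- `E_{-ε} E_ε = (Ω + 1 - (n + ε)²) / 4` on the weight `n`. -/
theorem IsRep.FE (h : IsRep D) (ε : ℤ) (hε : ε = 1 ∨ ε = -1) (n : ℤ) (v : V)
    (hv : D Wmat v = (Complex.I * n) • v) :
    EE D (-ε) (EE D ε v) = (1 / 4 : ℂ) • (Om D v + ((1 - (n + ε) ^ 2 : ℤ) : ℂ) • v) := by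
  rw [EE_apply, EE_apply, Om_apply, map_smul, map_smul, map_add, map_add, map_smul, map_smul, h.HX,
    hv, map_smul, hv]
  have hI : Complex.I * Complex.I = -1 := Complex.I_mul_I
  have hee : (ε : ℂ) * ε = 1 := by
    rcases hε with rfl | rfl <;> norm_num
  generalize D Hmat (D Hmat v) = a
  generalize D Xmat (D Hmat v) = b
  generalize D Xmat (D Xmat v) = c
  have e1 : Complex.I * ((-ε : ℤ) : ℂ) = -(Complex.I * ε) := by push_cast; ring
  have e2 : (Complex.I * (ε : ℂ)) * (Complex.I * (ε : ℂ)) = -1 := by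
    linear_combination (ε : ℂ) * ε * hI - hee
  have e3 : (Complex.I * (ε : ℂ)) * (2 * (Complex.I * n)) = -2 * (ε * n) := by
    linear_combination 2 * (ε : ℂ) * n * hI
  have e4 : (Complex.I * (n : ℂ)) * (Complex.I * n) = -n ^ 2 := by
    linear_combination (n : ℂ) ^ 2 * hI
  have e5 : ((1 - (n + ε) ^ 2 : ℤ) : ℂ) = -(2 * (ε * n)) - n ^ 2 := by
    push_cast
    linear_combination -hee
  rw [e1, e5]
  simp only [smul_add, smul_smul, smul_sub]
  have e6 : (1 / 2 : ℂ) * (1 / 2) = 1 / 4 := by norm_num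
  have e7 : (1 / 2 : ℂ) * (-(Complex.I * ↑ε) * (1 / 2)) = -(1 / 4 * (Complex.I * ε)) := by ring
  have e8 : (1 / 2 : ℂ) * (-(Complex.I * ↑ε) * (1 / 2 * (Complex.I * ↑ε))) = 1 / 4 := by
    linear_combination -(1 / 4 : ℂ) * e2
  have e9 : (1 / 2 : ℂ) * (1 / 2 * (Complex.I * ↑ε)) = 1 / 4 * (Complex.I * ε) := by ring
  have e10 : (1 / 2 : ℂ) * (1 / 2 * (Complex.I * ↑ε * (2 * (Complex.I * ↑n)))) =
    -(1 / 2) * (ε * n) := by
    linear_combination (1 / 4 : ℂ) * e3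
  have e11 : (1 / 4 : ℂ) * (Complex.I * ↑n * (Complex.I * ↑n)) = -(1 / 4) * n ^ 2 := by
    linear_combination (1 / 4 : ℂ) * e4
  simp only [e6, e7, e8, e9, e10, e11]
  module

theorem casimir_comm {A : Type*} [Ring A] {a b c : A} (r1 : a * b - b * a = 2 * c)
    (r2 : c * a - a * c = -2 * b) (r3 : c * b - b * c = 2 * a) :
    Commute (a * a + b * b - c * c) a ∧ Commute (a * a + b * b - c * c) b ∧
      Commute (a * a + b * b - c * c) c := by
  refine ⟨?_, ?_, ?_⟩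
  · rw [commute_iff_eq, ← sub_eq_zero]
    have e : (a * a + b * b - c * c) * a - a * (a * a + b * b - c * c) =
        -(b * (a * b - b * a)) - (a * b - b * a) * b - c * (c * a - a * c) -
          (c * a - a * c) * c := by noncomm_ring
    rw [e, r1, r2]
    noncomm_ring
  · rw [commute_iff_eq, ← sub_eq_zero]
    have e : (a * a + b * b - c * c) * b - b * (a * a + b * b - c * c) =
        a * (a * b - b * a) + (a * b - b * a) * a - c * (c * b - b * c) -
          (c * b - b * c) * c := by noncomm_ring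
    rw [e, r1, r3]
    noncomm_ring
  · rw [commute_iff_eq, ← sub_eq_zero]
    have e : (a * a + b * b - c * c) * c - c * (a * a + b * b - c * c) =
        -(a * (c * a - a * c)) - (c * a - a * c) * a - b * (c * b - b * c) -
          (c * b - b * c) * b := by noncomm_ring
    rw [e, r2, r3]
    noncomm_ring

theorem two_mul_end (A : Module.End ℂ V) (v : V) : ((2 : Module.End ℂ V) * A) v =
    (2 : ℂ) • A v := by
  rw [two_mul, LinearMap.add_apply, ← two_smul ℂ (A v)]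

theorem IsRep.Om_comm (h : IsRep D) (Z : sl2) (v : V) : Om D (D Z v) = D Z (Om D v) := by
  have r1 : (D Hmat : Module.End ℂ V) * D Xmat - D Xmat * D Hmat = 2 * D Wmat := by
    ext v
    rw [two_mul_end]
    simp only [LinearMap.sub_apply, Module.End.mul_apply, h.HX]
    abel
  have r2 : (D Wmat : Module.End ℂ V) * D Hmat - D Hmat * D Wmat = -2 * D Xmat := by
    ext v
    rw [neg_mul, LinearMap.neg_apply, two_mul_end]
    simp only [LinearMap.sub_apply, Module.End.mul_apply, h.WH]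
    abel
  have r3 : (D Wmat : Module.End ℂ V) * D Xmat - D Xmat * D Wmat = 2 * D Hmat := by
    ext v
    rw [two_mul_end]
    simp only [LinearMap.sub_apply, Module.End.mul_apply, h.WX]
    abel
  obtain ⟨c1, c2, c3⟩ := casimir_comm r1 r2 r3
  have f : ∀ A : Module.End ℂ V, Commute ((D Hmat : Module.End ℂ V) * D Hmat + D Xmat * D Xmat -
      D Wmat * D Wmat) A → ∀ v, Om D (A v) = A (Om D v) := fun A hA v => LinearMap.congr_fun hA v
  obtain ⟨a, b, c, rfl⟩ := sl2_span Z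
  rw [map_add, map_add, map_smul, map_smul, map_smul]
  simp only [LinearMap.add_apply, LinearMap.smul_apply, map_add]
  rw [← f _ c1, ← f _ c2, ← f _ c3]
  simp only [← Complex.coe_smul, map_smul]

theorem IsRep.Om_EE (h : IsRep D) (ε : ℤ) (v : V) : Om D (EE D ε v) = EE D ε (Om D v) := by
  rw [EE_apply, EE_apply, map_smul, map_add, map_smul, h.Om_comm, h.Om_comm]

/-- `(Ω + 1 - (b + 2j + 1)²) / 4` -/
noncomputable def qf (D : sl2 →ₗ[ℝ] (V →ₗ[ℂ] V)) (b j : ℕ) : V →ₗ[ℂ] V :=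
  (1 / 4 : ℂ) • (Om D + ((1 - ((b : ℤ) + 2 * j + 1) ^ 2 : ℤ) : ℂ) • LinearMap.id)

theorem qf_apply (b j : ℕ) (v : V) : qf D b j v =
    (1 / 4 : ℂ) • (Om D v + ((1 - ((b : ℤ) + 2 * j + 1) ^ 2 : ℤ) : ℂ) • v) := rfl

/-- the product of the `qf` -/
noncomputable def Q (D : sl2 →ₗ[ℝ] (V →ₗ[ℂ] V)) (b : ℕ) : ℕ → V →ₗ[ℂ] V
  | 0 => LinearMap.id
  | l + 1 => Q D b l ∘ₗ qf D b l

theorem IsRep.qf_EE (h : IsRep D) (b j : ℕ) (ε : ℤ) (v : V) :
    qf D b j (EE D ε v) = EE D ε (qf D b j v) := by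
  rw [qf_apply, qf_apply, map_smul, map_add, map_smul, h.Om_EE]

theorem IsRep.qf_EE_pow (h : IsRep D) (b j : ℕ) (ε : ℤ) (l : ℕ) (v : V) :
    qf D b j ((EE D ε ^ l) v) = (EE D ε ^ l) (qf D b j v) := by
  induction l with
  | zero => rfl
  | succ l ih =>
    rw [pow_succ', Module.End.mul_apply, Module.End.mul_apply, h.qf_EE, ih]

theorem IsRep.W_qf (h : IsRep D) (b j : ℕ) (n : ℤ) (v : V) (hv : D Wmat v = (Complex.I * n) • v) :
    D Wmat (qf D b j v) = (Complex.I * n) • qf D b j v := by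
  rw [qf_apply, map_smul, map_add, map_smul, ← h.Om_comm, hv, map_smul, smul_comm _ (1 / 4 : ℂ),
    smul_add (Complex.I * (n : ℂ)), smul_comm _ (Complex.I * (n : ℂ))]

theorem IsRep.W_pow (h : IsRep D) (ε : ℤ) (hε : ε = 1 ∨ ε = -1) (b l : ℕ) (v : V)
    (hv : D Wmat v = (Complex.I * ((ε * b : ℤ) : ℂ)) • v) :
    D Wmat ((EE D ε ^ l) v) =
      (Complex.I * ((ε * (b + 2 * l) : ℤ) : ℂ)) • (EE D ε ^ l) v := by
  induction l with
  | zero => simpa using hv
  | succ l ih =>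
    rw [pow_succ', Module.End.mul_apply, h.W_EE ε hε _ _ ih]
    congr 3
    push_cast
    ring

/-- `F^l E^l` is a polynomial in the Casimir operator. -/
theorem IsRep.FE_pow (h : IsRep D) (ε : ℤ) (hε : ε = 1 ∨ ε = -1) (b l : ℕ) (v : V)
    (hv : D Wmat v = (Complex.I * ((ε * b : ℤ) : ℂ)) • v) :
    (EE D (-ε) ^ l) ((EE D ε ^ l) v) = Q D b l v := by
  induction l generalizing v with
  | zero => rfl
  | succ l ih =>
    rw [pow_succ (EE D (-ε)), pow_succ' (EE D ε), Module.End.mul_apply, Module.End.mul_apply,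
      h.FE ε hε _ _ (h.W_pow ε hε b l v hv)]
    have e : (1 - (ε * ((b : ℤ) + 2 * l) + ε) ^ 2 : ℤ) = 1 - ((b : ℤ) + 2 * l + 1) ^ 2 := by
      rcases hε with rfl | rfl <;> ring
    rw [e, ← qf_apply, h.qf_EE_pow, ih _ (h.W_qf _ _ _ _ hv)]
    rfl

end Pool.Agent.SGap
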