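import Mathlib

/-!
# Harish-Chandra modules of `SL(2,ℝ)^r`, their `G`-continuous norms and the Sobolev gap
-/

namespace Pool.Agent.SGap

open Matrix

/-- The real reductive group `SL(2,ℝ)^r` (product topology). -/
abbrev G (r : ℕ) : Type := Fin r → SpecialLinearGroup (Fin 2) ℝ

/-- The rotation `(cos θ, sin θ; -sin θ, cos θ)`. -/
noncomputable def rot (θ : ℝ) : SpecialLinearGroup (Fin 2) ℝ :=
  ⟨!![Real.cos θ, Real.sin θ; -Real.sin θ, Real.cos θ], by
    rw [Matrix.det_fin_two_of]; nlinarith [Real.sin_sq_add_cos_sq θ]⟩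

/-- The diagonal matrix `(e^t, 0; 0, e^(-t))`. -/
noncomputable def dia (t : ℝ) : SpecialLinearGroup (Fin 2) ℝ :=
  ⟨!![Real.exp t, 0; 0, Real.exp (-t)], by
    rw [Matrix.det_fin_two_of]; simp [← Real.exp_add]⟩

theorem coe_rot (θ : ℝ) : (rot θ : Matrix (Fin 2) (Fin 2) ℝ) =
    !![Real.cos θ, Real.sin θ; -Real.sin θ, Real.cos θ] := rfl

theorem coe_dia (t : ℝ) : (dia t : Matrix (Fin 2) (Fin 2) ℝ) =
    !![Real.exp t, 0; 0, Real.exp (-t)] := rfl

theorem coe_mul' (a b : SpecialLinearGroup (Fin 2) ℝ) :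
    ((a * b : SpecialLinearGroup (Fin 2) ℝ) : Matrix (Fin 2) (Fin 2) ℝ) =
      (a : Matrix (Fin 2) (Fin 2) ℝ) * (b : Matrix (Fin 2) (Fin 2) ℝ) := rfl

theorem coe_ext (a b : SpecialLinearGroup (Fin 2) ℝ)
    (h : (a : Matrix (Fin 2) (Fin 2) ℝ) = (b : Matrix (Fin 2) (Fin 2) ℝ)) : a = b :=
  Subtype.ext h

theorem rot_add (s t : ℝ) : rot (s + t) = rot s * rot t := by
  apply coe_ext
  rw [coe_mul', coe_rot, coe_rot, coe_rot]
  simp only [Matrix.mul_fin_two, Real.cos_add, Real.sin_add]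
  ext i j
  fin_cases i <;> fin_cases j <;> simp <;> ring

theorem rot_zero : rot 0 = 1 := by
  ext i j
  fin_cases i <;> fin_cases j <;> simp [rot]

theorem rot_inv (s : ℝ) : (rot s)⁻¹ = rot (-s) := by
  rw [inv_eq_iff_mul_eq_one, ← rot_add, add_neg_cancel, rot_zero]

/-- The element of the maximal compact subgroup `K = SO(2)^r` with the rotation angles `θ`. -/
noncomputable def rotG {r : ℕ} (θ : Fin r → ℝ) : G r := fun i => rot (θ i)

/-- Real `2 × 2` matrices of trace zero. -/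
def sl2 : Submodule ℝ (Matrix (Fin 2) (Fin 2) ℝ) :=
  LinearMap.ker (Matrix.traceLinearMap (Fin 2) ℝ ℝ)

theorem mem_sl2 (X : Matrix (Fin 2) (Fin 2) ℝ) : X ∈ sl2 ↔ X.trace = 0 := by
  simp [sl2]

/-- The Lie algebra of `SL(2,ℝ)^r`: families of `r` real matrices of trace zero. -/
abbrev LieG (r : ℕ) : Type := Fin r → sl2

/-- The Lie bracket `XY - YX`, factor by factor. -/
def brk {r : ℕ} (X Y : LieG r) : LieG r := fun i =>
  ⟨(X i : Matrix (Fin 2) (Fin 2) ℝ) * (Y i : Matrix (Fin 2) (Fin 2) ℝ) -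
    (Y i : Matrix (Fin 2) (Fin 2) ℝ) * (X i : Matrix (Fin 2) (Fin 2) ℝ), by
    rw [mem_sl2, Matrix.trace_sub, Matrix.trace_mul_comm, sub_self]⟩

/-- The adjoint action `g X g⁻¹`, factor by factor. -/
def Ad {r : ℕ} (g : G r) (X : LieG r) : LieG r := fun i =>
  ⟨(g i : Matrix (Fin 2) (Fin 2) ℝ) * (X i : Matrix (Fin 2) (Fin 2) ℝ) *
    (((g i)⁻¹ : SpecialLinearGroup (Fin 2) ℝ) : Matrix (Fin 2) (Fin 2) ℝ), by
    have h : (((g i)⁻¹ : SpecialLinearGroup (Fin 2) ℝ) : Matrix (Fin 2) (Fin 2) ℝ) *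
        (g i : Matrix (Fin 2) (Fin 2) ℝ) = 1 := by
      rw [← coe_mul', inv_mul_cancel]
      rfl
    rw [mem_sl2, Matrix.trace_mul_comm, ← Matrix.mul_assoc, h, Matrix.one_mul]
    exact (mem_sl2 _).1 (X i).2⟩

/-- The generator `(0, 1; -1, 0)` of the Lie algebra of `SO(2)`. -/
def Wmat : sl2 := ⟨!![0, 1; -1, 0], by simp [mem_sl2, Matrix.trace_fin_two]⟩

section

variable {r : ℕ} {V : Type*} [AddCommGroup V] [Module ℂ V]

/-- The rotations by the angles `θ` act on `v` by `exp(i (m_1 θ_1 + ... + m_r θ_r))`. -/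
def IsType (act : (Fin r → ℝ) → V →ₗ[ℂ] V) (m : Fin r → ℤ) (v : V) : Prop :=
  ∀ θ : Fin r → ℝ, act θ v = Complex.exp (Complex.I * ∑ i, (m i : ℂ) * (θ i : ℂ)) • v

/-- The `K`-type of weight `m`. -/
noncomputable def ktype (act : (Fin r → ℝ) → V →ₗ[ℂ] V) (m : Fin r → ℤ) : Submodule ℂ V where
  carrier := {v | IsType act m v}
  add_mem' := by
    intro a b ha hb θ
    rw [map_add, ha θ, hb θ, smul_add]
  zero_mem' := by intro θ; simp
  smul_mem' := by
    intro c a ha θ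
    rw [map_smul, ha θ, smul_comm]

/-- `lie` is a representation of the Lie algebra on `V`. -/
structure IsLieRep (lie : LieG r → V →ₗ[ℂ] V) : Prop where
  add : ∀ X Y : LieG r, lie (X + Y) = lie X + lie Y
  smul : ∀ (c : ℝ) (X : LieG r), lie (c • X) = (c : ℂ) • lie X
  brk : ∀ (X Y : LieG r) (v : V), lie (brk X Y) v = lie X (lie Y v) - lie Y (lie X v)

/-- `act` is a representation of the torus `K = SO(2)^r` on `V` (`act θ` is the action of the
rotations by the angles `θ`), and `V` is the sum of its `K`-types (so the action is locally finite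
and continuous). -/
structure IsKRep (act : (Fin r → ℝ) → V →ₗ[ℂ] V) : Prop where
  mul : ∀ (θ φ : Fin r → ℝ) (v : V), act (θ + φ) v = act θ (act φ v)
  one : ∀ θ : Fin r → ℝ, rotG θ = 1 → ∀ v : V, act θ v = v
  types : ⨆ m : Fin r → ℤ, ktype act m = ⊤

end

/-- A `(𝔤,K)`-module structure on the complex vector space `V`, for `G = SL(2,ℝ)^r`: an action of
the Lie algebra and an action of `K`, compatible in the usual sense; the derivative of the action of
`K` is the action of the Lie algebra of `K`. -/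
structure GKModule (r : ℕ) (V : Type*) [AddCommGroup V] [Module ℂ V] where
  lie : LieG r → V →ₗ[ℂ] V
  act : (Fin r → ℝ) → V →ₗ[ℂ] V
  isLie : IsLieRep lie
  isK : IsKRep act
  compat : ∀ (θ : Fin r → ℝ) (X : LieG r) (v : V),
    act θ (lie X v) = lie (Ad (rotG θ) X) (act θ v)
  diff : ∀ (x : Fin r → ℝ) (m : Fin r → ℤ) (v : V), IsType act m v →
    lie (fun i => x i • Wmat) v = (Complex.I * ∑ i, (m i : ℂ) * (x i : ℂ)) • v

/-- A Harish-Chandra module: finitely generated over the Lie algebra (no proper invariant subspace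
contains a suitable finite set), and all `K`-types are finite dimensional. -/
def GKModule.IsHC {r : ℕ} {V : Type*} [AddCommGroup V] [Module ℂ V] (M : GKModule r V) : Prop :=
  (∃ S : Finset V, ∀ U : Submodule ℂ V, (∀ v ∈ S, v ∈ U) →
    (∀ X : LieG r, ∀ u ∈ U, M.lie X u ∈ U) → U = ⊤) ∧
  ∀ m : Fin r → ℤ, FiniteDimensional ℂ (ktype M.act m)

/-- Weights on `G`: positive, submultiplicative, locally bounded functions. -/
structure IsWeight {r : ℕ} (w : G r → ℝ) : Prop where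
  pos : ∀ g, 0 < w g
  mul : ∀ g h, w (g * h) ≤ w g * w h
  loc : ∀ g, ∃ U ∈ nhds g, ∃ B : ℝ, ∀ h ∈ U, w h ≤ B

/-- `γ` is the one-parameter subgroup of `G` with derivative `X` at `0`. -/
def OneParam {r : ℕ} (γ : ℝ → G r) (X : LieG r) : Prop :=
  (∀ s t, γ (s + t) = γ s * γ t) ∧
  ∀ (i : Fin r) (j k : Fin 2), HasDerivAt
    (fun t => (γ t i : Matrix (Fin 2) (Fin 2) ℝ) j k)
    ((X i : Matrix (Fin 2) (Fin 2) ℝ) j k) 0

universe u

/-- `π` is a continuous representation of `G` on the normed space `E` with `‖π(g)‖ ≤ C w(g)`. -/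
structure IsNormRep {r : ℕ} {E : Type u} [NormedAddCommGroup E] [NormedSpace ℂ E]
    (π : G r → E →L[ℂ] E) (w : G r → ℝ) : Prop where
  one : ∀ x : E, π 1 x = x
  mul : ∀ (g h : G r) (x : E), π (g * h) x = π g (π h x)
  cont : Continuous fun x : G r × E => π x.1 x.2
  bound : ∃ C : ℝ, ∀ (g : G r) (x : E), ‖π g x‖ ≤ C * w g * ‖x‖

/-- The translates of `x` by `K` span a finite dimensional space. -/
def KFinite {r : ℕ} {E : Type u} [NormedAddCommGroup E] [NormedSpace ℂ E]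
    (π : G r → E →L[ℂ] E) (x : E) : Prop :=
  FiniteDimensional ℂ (Submodule.span ℂ (Set.range fun θ : Fin r → ℝ => π (rotG θ) x))

/-- `ι` is an injective `(𝔤,K)`-equivariant map from `V` onto the space of `K`-finite vectors, and
this space is dense. -/
structure IsKFinitePart {r : ℕ} {V : Type u} [AddCommGroup V] [Module ℂ V] (M : GKModule r V)
    {E : Type u} [NormedAddCommGroup E] [NormedSpace ℂ E] (π : G r → E →L[ℂ] E)
    (ι : V →ₗ[ℂ] E) : Prop where
  inj : Function.Injective ι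
  dense : DenseRange ι
  fin : ∀ x : E, (∃ v, ι v = x) ↔ KFinite π x
  eqv : ∀ (θ : Fin r → ℝ) (v : V), ι (M.act θ v) = π (rotG θ) (ι v)
  der : ∀ (γ : ℝ → G r) (X : LieG r), OneParam γ X → ∀ v : V,
      HasDerivAt (fun t => π (γ t) (ι v)) (ι (M.lie X v)) 0

/-- `p ∈ Norm(V,w)`: `p` is the norm induced on `V` by an embedding of `V` in a Banach space `E`
with a continuous representation `π` of `G`, such that the image is the space of `K`-finite
vectors and dense, the embedding is `(𝔤,K)`-equivariant, and `‖π(g)‖ ≤ C w(g)`. -/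
def InNorm {r : ℕ} {V : Type u} [AddCommGroup V] [Module ℂ V] (M : GKModule r V)
    (w : G r → ℝ) (p : V → ℝ) : Prop :=
  ∃ (E : Type u) (_ : NormedAddCommGroup E) (_ : NormedSpace ℂ E) (_ : CompleteSpace E)
    (π : G r → E →L[ℂ] E) (ι : V →ₗ[ℂ] E),
    IsNormRep π w ∧ IsKFinitePart M π ι ∧ ∀ v : V, p v = ‖ι v‖

/-- `p ≲ q_s` for all `p, q ∈ Norm(V,w)`, where `q_s(v) = q((1 + Δ_K)^(s/2) v)` and `Δ_K` acts on
the `K`-type `m` by `m_1² + ... + m_r²`. The vector `v` is given by its components in the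
`K`-types. Applied to the maximal and the minimal class this is `p_max ≲ (p_min)_s`, and conversely
`p_max ≲ (p_min)_s` implies it for all `p` and `q`. -/
def Dominated {r : ℕ} {V : Type u} [AddCommGroup V] [Module ℂ V] (M : GKModule r V)
    (w : G r → ℝ) (s : ℝ) : Prop :=
  ∀ p q : V → ℝ, InNorm M w p → InNorm M w q → ∃ C : ℝ, ∀ v : (Fin r → ℤ) →₀ V,
    (∀ m, IsType M.act m (v m)) →
      p (v.sum fun _ x => x) ≤
        C * q (v.sum fun m x => (((1 + ∑ i, (m i : ℝ) ^ 2) ^ (s / 2) : ℝ) : ℂ) • x)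

/-- The Sobolev gap `s(V,w) = inf {s ≥ 0 : p_max ≲ (p_min)_s}`, a value in `[0,∞]`. -/
noncomputable def gap {r : ℕ} {V : Type u} [AddCommGroup V] [Module ℂ V] (M : GKModule r V)
    (w : G r → ℝ) : ENNReal :=
  ⨅ (s : ℝ) (_ : 0 ≤ s ∧ Dominated M w s), ENNReal.ofReal s

/-- `w(diag(e^(t_i), e^(-t_i))) ≤ C exp(N (t_1 + ... + t_r))` for all `t_i ≥ 0`. -/
def Growth {r : ℕ} (w : G r → ℝ) (N : ℝ) : Prop :=
  ∃ C : ℝ, ∀ t : Fin r → ℝ, (∀ i, 0 ≤ t i) → w (fun i => dia (t i)) ≤ C * Real.exp (N * ∑ i, t i)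

end Pool.Agent.SGap
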