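import Pool.Agent.Lib.MP_496a9e_al.Types

/-!
# The estimate on a single `K`-type
-/

namespace Pool.Agent.SGap

open Finset

variable {r : ℕ} {V : Type*} [AddCommGroup V] [Module ℂ V]

set_option linter.unusedSectionVars false

variable {M : GKModule r V} {E : Type*} [NormedAddCommGroup E] [NormedSpace ℂ E] (S : Rep M E)

namespace Rep

variable [CompleteSpace E]

/-- For large `j` the operators `B_0` are injective on a given `K`-type. -/
theorem exists_inj (hM : M.IsHC) (m : Fin r → ℤ) : ∃ j : ℕ, ∀ i, ∀ v ∈ ktype M.act m,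
    S.Bi j i (m i) 0 (S.ι v) = 0 → v = 0 := by
  have := hM.2 m
  have h1 : ∀ i, ∃ C : ℝ, 0 < C ∧ ∀ y ∈ ktype M.act m, ‖S.ι (Dm M i Hmat y)‖ ≤ C * ‖S.ι y‖ :=
    fun i => fd_bound (ktype M.act m) S.ι (S.ι ∘ₗ Dm M i Hmat)
      (fun y _ hy => S.inj (by rw [hy, map_zero]))
  choose C hC hCb using h1
  have hN := S.hN
  obtain ⟨K, hK, hKd⟩ : ∃ K : ℝ, 0 ≤ K ∧ K = S.C ^ 2 * 2 ^ S.N * (S.N / 2 + 1) :=
    ⟨_, by positivity, rfl⟩
  obtain ⟨C', hC', hC'b⟩ : ∃ C' : ℝ, 0 ≤ C' ∧ ∀ i, C i ≤ C' :=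
    ⟨∑ i, C i, sum_nonneg fun i _ => (hC i).le, fun i =>
      single_le_sum (f := C) (fun i _ => (hC i).le) (mem_univ i)⟩
  obtain ⟨η, hη, hηd⟩ : ∃ η : ℝ, 0 < η ∧ η * (2 * (K * C' + 1)) = 1 := by
    have : 0 < 2 * (K * C' + 1) := by positivity
    exact ⟨(2 * (K * C' + 1))⁻¹, inv_pos.2 this, inv_mul_cancel₀ this.ne'⟩
  obtain ⟨j, hj⟩ := exists_nat_gt ((η ^ 2)⁻¹)
  refine ⟨j, fun i v hv h0 => ?_⟩
  have h2 := (S.fac i).approx j (m i) v (fun θ => S.wt_of_mem hv i θ) hη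
  have h3 : (S.fac i).B j (m i) 0 ((S.fac i).ι v) = 0 := h0
  rw [h3, smul_zero, zero_sub, norm_neg] at h2
  change ‖S.ι v‖ ≤ S.C ^ 2 * 2 ^ S.N * (S.N / 2 + 1) * _ * ‖S.ι (Dm M i Hmat v)‖ at h2
  rw [← hKd] at h2
  have h4 : η⁻¹ * (1 / ((j : ℝ) + 1)) ≤ η := by
    have h5 : 1 / ((j : ℝ) + 1) ≤ η ^ 2 := by
      rw [div_le_iff₀ (by positivity)]
      have h6 : 1 < η ^ 2 * j := by
        have := mul_lt_mul_of_pos_left hj (by positivity : 0 < η ^ 2)
        rwa [mul_inv_cancel₀ (by positivity)] at this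
      nlinarith [sq_nonneg η]
    calc η⁻¹ * (1 / ((j : ℝ) + 1)) ≤ η⁻¹ * η ^ 2 := by gcongr
      _ = η := by field_simp
  have h5 : 1 / 2 * (η + η⁻¹ * (1 / ((j : ℝ) + 1))) ≤ η := by linarith
  have h6 : ‖S.ι (Dm M i Hmat v)‖ ≤ C' * ‖S.ι v‖ :=
    (hCb i v hv).trans (mul_le_mul_of_nonneg_right (hC'b i) (norm_nonneg _))
  have h7 : ‖S.ι v‖ ≤ K * η * (C' * ‖S.ι v‖) := by
    refine h2.trans ?_
    gcongr
  have h8 : ‖S.ι v‖ ≤ 0 := by
    have h9 : K * η * C' ≤ 1 / 2 := by nlinarith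
    have h10 := norm_nonneg (S.ι v)
    nlinarith
  have h9 : S.ι v = 0 := norm_le_zero_iff.1 h8
  exact S.inj (by rw [h9, map_zero])

theorem opB_inj {m : Fin r → ℤ} {j : ℕ} (hj : ∀ i, ∀ v ∈ ktype M.act m,
    S.Bi j i (m i) 0 (S.ι v) = 0 → v = 0) {L : List (Fin r)} (hL : L.Nodup) {v : V}
    (hv : v ∈ ktype M.act m) (h : S.opB j m (fun _ => 0) L (S.ι v) = 0) : v = 0 := by
  induction L with
  | nil =>
    have h' : S.ι v = 0 := h
    exact S.inj (by rw [h', map_zero])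
  | cons i L ih =>
    rw [List.nodup_cons] at hL
    rw [opB_cons] at h
    obtain ⟨v', hv', he⟩ := S.exists_of_wt (S.opB_wt j m (fun _ => 0) hL.2 (S.wt_of_mem hv))
    rw [← he] at h
    have h1 := hj i v' hv' h
    rw [h1, map_zero] at he
    exact ih hL.2 he.symm

theorem opB_surj (hM : M.IsHC) {m : Fin r → ℤ} {j : ℕ} (hj : ∀ i, ∀ v ∈ ktype M.act m,
    S.Bi j i (m i) 0 (S.ι v) = 0 → v = 0) {L : List (Fin r)} (hL : L.Nodup) {u : V}
    (hu : u ∈ ktype M.act m) :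
    ∃ v ∈ ktype M.act m, S.ι u = S.opB j m (fun _ => 0) L (S.ι v) := by
  have := hM.2 m
  let Y : Submodule ℂ E := (ktype M.act m).map S.ι
  have hYfd : FiniteDimensional ℂ Y := inferInstance
  let T : E →ₗ[ℂ] E := (S.opB j m (fun _ => 0) L : E →L[ℂ] E)
  have hT : ∀ y ∈ Y, T y ∈ Y := by
    rintro _ ⟨v, hv, rfl⟩
    obtain ⟨v', hv', he⟩ := S.exists_of_wt (S.opB_wt j m (fun _ => 0) hL (S.wt_of_mem hv))
    exact ⟨v', hv', he⟩
  have hinj : Function.Injective (T.restrict hT) := by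
    rw [← LinearMap.ker_eq_bot, LinearMap.ker_eq_bot']
    rintro ⟨_, v, hv, rfl⟩ hy
    have h1 : S.opB j m (fun _ => 0) L (S.ι v) = 0 := congrArg Subtype.val hy
    have h2 := S.opB_inj hj hL hv h1
    apply Subtype.ext
    show S.ι v = 0
    rw [h2, map_zero]
  obtain ⟨⟨_, v, hv, rfl⟩, hz⟩ := LinearMap.injective_iff_surjective.1 hinj
    ⟨S.ι u, u, hu, rfl⟩
  exact ⟨v, hv, (congrArg Subtype.val hz).symm⟩

/-- the growth of the operators for the factor with the data `b`, `l` -/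
noncomputable def up (N : ℝ) (b l : ℕ) : ℝ := (l.factorial : ℝ) * ((l : ℝ) + 1) ^ ((N + b) / 2)

theorem up_nonneg (N : ℝ) (b l : ℕ) : 0 ≤ up N b l := by
  unfold up
  positivity

theorem opB_norm (j : ℕ) (w : Fin r → ℤ) (b l : Fin r → ℕ) (L : List (Fin r)) (x : E) :
    S.pc j b l L * ‖S.opB j w l L x‖ ≤
      ((L.map fun i => (S.fac i).KB j * up S.N (b i) (l i)).prod) * ‖x‖ := by
  induction L with
  | nil =>
    have : S.pc j b l [] = 1 := rfl
    rw [this]
    exact le_refl _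
  | cons i L ih =>
    have h1 := (S.fac i).poch_B_bd j (b i) (w i) (l i)
    change poch (sg S.N j + b i / 2) (l i) * ‖S.Bi j i (w i) (l i)‖ ≤
      (S.fac i).KB j * up S.N (b i) (l i) at h1
    have hN := S.hN
    have hj : (0 : ℝ) ≤ j := Nat.cast_nonneg j
    have ha : 0 < sg S.N j + b i / 2 := by
      unfold sg
      positivity
    have h2 : 0 ≤ poch (sg S.N j + b i / 2) (l i) := (poch_pos ha _).le
    have h3 : 0 ≤ S.pc j b l L * ‖S.opB j w l L x‖ := by
      refine mul_nonneg (List.prod_nonneg fun a ha' => ?_) (norm_nonneg _)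
      rw [List.mem_map] at ha'
      obtain ⟨k, _, rfl⟩ := ha'
      refine (poch_pos ?_ _).le
      unfold sg
      positivity
    rw [pc_cons, opB_cons, List.map_cons, List.prod_cons]
    calc poch (sg S.N j + b i / 2) (l i) * S.pc j b l L *
          ‖S.Bi j i (w i) (l i) (S.opB j w l L x)‖ ≤
        poch (sg S.N j + b i / 2) (l i) * S.pc j b l L *
          (‖S.Bi j i (w i) (l i)‖ * ‖S.opB j w l L x‖) := by
          refine mul_le_mul_of_nonneg_left ((S.Bi j i (w i) (l i)).le_opNorm _) ?_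
          refine mul_nonneg h2 (List.prod_nonneg fun a ha' => ?_)
          rw [List.mem_map] at ha'
          obtain ⟨k, _, rfl⟩ := ha'
          refine (poch_pos ?_ _).le
          unfold sg
          positivity
      _ = (poch (sg S.N j + b i / 2) (l i) * ‖S.Bi j i (w i) (l i)‖) *
          (S.pc j b l L * ‖S.opB j w l L x‖) := by ring
      _ ≤ ((S.fac i).KB j * up S.N (b i) (l i)) *
          (S.pc j b l L * ‖S.opB j w l L x‖) := mul_le_mul_of_nonneg_right h1 h3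
      _ ≤ ((S.fac i).KB j * up S.N (b i) (l i)) *
          (((L.map fun i => (S.fac i).KB j * up S.N (b i) (l i)).prod) * ‖x‖) := by
          refine mul_le_mul_of_nonneg_left ih ?_
          exact mul_nonneg ((S.fac i).KB_nonneg j) (up_nonneg _ _ _)
      _ = _ := by ring

end Rep

/-- the lower bound for the Casimir polynomials -/
noncomputable def low (b l : ℕ) : ℝ := ∏ k ∈ range l, (((b : ℝ) + 2 * k + 1) ^ 2 / 4)

theorem low_pos (b l : ℕ) : 0 < low b l := prod_pos fun k _ => by positivity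

theorem opQ_mem (M : GKModule r V) (b l : Fin r → ℕ) (L : List (Fin r)) {m : Fin r → ℤ} {v : V}
    (hv : v ∈ ktype M.act m) : opQ M b l L v ∈ ktype M.act m := by
  induction L generalizing v with
  | nil => exact hv
  | cons i L ih => exact ih (Q_mem M i (b i) (l i) hv)

theorem opQ_lower (hM : M.IsHC) (m : Fin r → ℤ) (f : V →ₗ[ℂ] E)
    (hf : Function.Injective f) (n1 : ℕ)
    (hreg : ∀ (i : Fin r) (b j : ℕ), n1 ≤ b → ∀ v : V, qf (Dm M i) b j v = 0 → v = 0)
    (b : Fin r → ℕ) (L : List (Fin r)) :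
    ∃ c : ℝ, 0 < c ∧ ∀ l : Fin r → ℕ, (∀ i, l i = 0 ∨ n1 ≤ b i) → ∀ y ∈ ktype M.act m,
      c * (L.map fun i => low (b i) (l i)).prod * ‖f y‖ ≤ ‖f (opQ M b l L y)‖ := by
  have := hM.2 m
  have h1 : ∀ i, ∃ c : ℝ, 0 < c ∧ ∀ l : ℕ, (l = 0 ∨ n1 ≤ b i) → ∀ y ∈ ktype M.act m,
      c * low (b i) l * ‖f y‖ ≤ ‖f (Q (Dm M i) (b i) l y)‖ := by
    intro i
    by_cases hb : n1 ≤ b i
    · obtain ⟨c, hc, h⟩ := Q_lower (D := Dm M i) (ktype M.act m) f
        (fun y _ hy => hf (by rw [hy, map_zero])) (fun y hy => Om_mem M i hy) (b i)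
        (fun j y _ hy => hreg i (b i) j hb y hy)
      exact ⟨c, hc, fun l _ y hy => h l y hy⟩
    · refine ⟨1, one_pos, fun l hl y _ => ?_⟩
      rcases hl with rfl | hl
      · simp [low, Q]
      · exact absurd hl hb
  choose c hc hcb using h1
  induction L with
  | nil => exact ⟨1, one_pos, fun l _ y _ => by simp [opQ]⟩
  | cons i L ih =>
    obtain ⟨c', hc', h'⟩ := ih
    refine ⟨c' * c i, mul_pos hc' (hc i), fun l hl y hy => ?_⟩
    have h2 := hcb i (l i) (hl i) y hy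
    have h3 := h' l hl _ (Q_mem M i (b i) (l i) hy)
    rw [opQ_cons, List.map_cons, List.prod_cons]
    have h4 : 0 ≤ (L.map fun i => low (b i) (l i)).prod := by
      refine List.prod_nonneg fun a ha' => ?_
      rw [List.mem_map] at ha'
      obtain ⟨k, _, rfl⟩ := ha'
      exact (low_pos _ _).le
    calc c' * c i * (low (b i) (l i) * (L.map fun i => low (b i) (l i)).prod) * ‖f y‖ =
        c' * (L.map fun i => low (b i) (l i)).prod * (c i * low (b i) (l i) * ‖f y‖) := by ring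
      _ ≤ c' * (L.map fun i => low (b i) (l i)).prod * ‖f (Q (Dm M i) (b i) (l i) y)‖ := by
          gcongr
      _ ≤ _ := h3

/-- the real estimate for one factor -/
theorem up_low (N : ℝ) (b : ℕ) : ∃ c : ℝ, 0 < c ∧ ∀ l : ℕ, (l = 0 ∨ 1 ≤ b) →
    Rep.up N b l * Rep.up N b l ≤ c * (low b l * ((l : ℝ) + 1) ^ (N + 1)) := by
  by_cases hb : 1 ≤ b
  · obtain ⟨x, hx, hxb⟩ : ∃ x : ℝ, 0 ≤ x ∧ (b : ℝ) = 2 * x + 1 :=
      ⟨((b : ℝ) - 1) / 2, by have : (1 : ℝ) ≤ b := by exact_mod_cast hb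
                             linarith, by ring⟩
    have hp : 0 < (1 + x) ^ x := Real.rpow_pos_of_pos (by positivity) _
    refine ⟨((1 + x) ^ x) ^ 2, by positivity, fun l _ => ?_⟩
    have h1 := le_poch' hx l
    have hl : (0 : ℝ) < (l : ℝ) + 1 := by positivity
    have h2 : low b l = poch (x + 1) l ^ 2 := by
      unfold low poch
      rw [← prod_pow]
      refine prod_congr rfl fun k _ => ?_
      rw [hxb]
      ring
    have h3 : Rep.up N b l * Rep.up N b l =
        ((l.factorial : ℝ) * ((l : ℝ) + 1) ^ x) ^ 2 * ((l : ℝ) + 1) ^ (N + 1) := by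
      unfold Rep.up
      have e1 : ((l : ℝ) + 1) ^ ((N + b) / 2) * ((l : ℝ) + 1) ^ ((N + b) / 2) =
          (((l : ℝ) + 1) ^ x) ^ 2 * ((l : ℝ) + 1) ^ (N + 1) := by
        rw [← Real.rpow_add hl, pow_two, ← Real.rpow_add hl, ← Real.rpow_add hl, hxb]
        congr 1
        ring
      calc _ = (l.factorial : ℝ) ^ 2 * (((l : ℝ) + 1) ^ ((N + b) / 2) *
            ((l : ℝ) + 1) ^ ((N + b) / 2)) := by ring
        _ = _ := by rw [e1]; ring
    rw [h3, h2]
    have h4 : (l.factorial : ℝ) * ((l : ℝ) + 1) ^ x ≤ (1 + x) ^ x * poch (x + 1) l := by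
      rw [inv_mul_le_iff₀ hp] at h1
      exact h1
    have h5 : 0 ≤ (l.factorial : ℝ) * ((l : ℝ) + 1) ^ x := by positivity
    calc ((l.factorial : ℝ) * ((l : ℝ) + 1) ^ x) ^ 2 * ((l : ℝ) + 1) ^ (N + 1) ≤
        ((1 + x) ^ x * poch (x + 1) l) ^ 2 * ((l : ℝ) + 1) ^ (N + 1) := by gcongr
      _ = _ := by ring
  · refine ⟨1, one_pos, fun l hl => ?_⟩
    rcases hl with rfl | hl
    · simp [Rep.up, low]
    · exact absurd hl hb

theorem list_prod_le {ι : Type*} {f g : ι → ℝ} (hf : ∀ i, 0 ≤ f i) (hfg : ∀ i, f i ≤ g i)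
    (L : List ι) : (L.map f).prod ≤ (L.map g).prod := by
  induction L with
  | nil => exact le_refl _
  | cons i L ih =>
    rw [List.map_cons, List.map_cons, List.prod_cons, List.prod_cons]
    exact mul_le_mul (hfg i) ih (List.prod_nonneg fun a ha => by
      rw [List.mem_map] at ha
      obtain ⟨k, _, rfl⟩ := ha
      exact hf k) ((hf i).trans (hfg i))

theorem list_prod_nonneg {ι : Type*} {f : ι → ℝ} (hf : ∀ i, 0 ≤ f i)
    (L : List ι) : 0 ≤ (L.map f).prod := List.prod_nonneg fun a ha => by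
      rw [List.mem_map] at ha
      obtain ⟨k, _, rfl⟩ := ha
      exact hf k

theorem list_prod_pos {ι : Type*} {f : ι → ℝ} (hf : ∀ i, 0 < f i)
    (L : List ι) : 0 < (L.map f).prod := List.prod_pos fun a ha => by
      rw [List.mem_map] at ha
      obtain ⟨k, _, rfl⟩ := ha
      exact hf k

theorem list_prod_mul {ι : Type*} (f g : ι → ℝ) (L : List ι) :
    (L.map f).prod * (L.map g).prod = (L.map fun i => f i * g i).prod := by
  induction L with
  | nil => simp
  | cons i L ih =>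
    simp only [List.map_cons, List.prod_cons]
    rw [← ih]
    ring

section

variable [CompleteSpace E] {E' : Type*} [NormedAddCommGroup E'] [NormedSpace ℂ E']
  [CompleteSpace E']

/-- The estimate for all `K`-types over one base `K`-type. -/
theorem base_est (hM : M.IsHC) (S' : Rep M E') (hNN : S.N = S'.N) (n1 : ℕ) (hn1 : 1 ≤ n1)
    (hreg : ∀ (i : Fin r) (b j : ℕ), n1 ≤ b → ∀ v : V, qf (Dm M i) b j v = 0 → v = 0)
    (ε : Fin r → ℤ) (hε : ∀ i, ε i = 1 ∨ ε i = -1) (b : Fin r → ℕ) :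
    ∃ C : ℝ, 0 ≤ C ∧ ∀ l : Fin r → ℕ, (∀ i, l i = 0 ∨ n1 ≤ b i) →
      ∀ v ∈ ktype M.act fun i => ε i * (b i + 2 * l i),
        ‖S.ι v‖ ≤ C * (∏ i, ((l i : ℝ) + 1) ^ (S.N + 1)) * ‖S'.ι v‖ := by
  have hfd := hM.2 (fun i => ε i * b i)
  obtain ⟨j, hj⟩ := S.exists_inj hM (fun i => ε i * b i)
  obtain ⟨j', hj'⟩ := S'.exists_inj hM (fun i => ε i * b i)
  have hL : (List.finRange r).Nodup := List.nodup_finRange r
  set L := List.finRange r with hLdef
  obtain ⟨c1, hc1, h1⟩ := fd_bound (ktype M.act fun i => ε i * b i)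
    ((S.opB j (fun i => ε i * b i) (fun _ => 0) L : E →ₗ[ℂ] E) ∘ₗ S.ι) S.ι
    (fun y hy h => S.opB_inj hj hL hy h)
  obtain ⟨c2, hc2, h2⟩ := fd_bound (ktype M.act fun i => ε i * b i) S'.ι S.ι
    (fun y hy h => S'.inj (by rw [h, map_zero]))
  obtain ⟨c3, hc3, h3⟩ := fd_bound (ktype M.act fun i => ε i * b i)
    ((S'.opB j' (fun i => ε i * b i) (fun _ => 0) L : E' →ₗ[ℂ] E') ∘ₗ S'.ι) S'.ι
    (fun y hy h => S'.opB_inj hj' hL hy h)
  obtain ⟨c4, hc4, h4⟩ := opQ_lower hM (fun i => ε i * b i) S'.ι S'.inj n1 hreg b L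
  choose c5 hc5 h5 using fun i => up_low S.N (b i)
  let K : ℝ := (L.map fun i => (S.fac i).KB j * (S'.fac i).KB j' * c5 i).prod
  have hK : 0 ≤ K := list_prod_nonneg (fun i => mul_nonneg (mul_nonneg ((S.fac i).KB_nonneg j)
    ((S'.fac i).KB_nonneg j')) (hc5 i).le) L
  refine ⟨c1 * c2 * c3 * c4⁻¹ * K, by positivity, fun l hl v hv => ?_⟩
  obtain ⟨u, hu, huv⟩ := surj_all M hM ε hε b l (fun i k hk w hw => by
    rcases hl i with h | h
    · rw [h] at hk; exact absurd hk (Nat.not_lt_zero k)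
    · exact hreg i (b i) k h w hw) hL (L := L) (v := v) (by
      have : (fun i => if i ∈ L then ε i * ((b i : ℤ) + 2 * l i) else ε i * b i) =
          fun i => ε i * ((b i : ℤ) + 2 * l i) := by
        funext i
        rw [if_pos (by rw [hLdef]; exact List.mem_finRange i)]
      rw [this]
      exact hv)
  obtain ⟨u', hu', huu'⟩ := S.opB_surj hM hj hL hu
  -- the upper estimate
  have e1 := S.raise_all j ε hε b l hL u u' hu' huu'
  rw [huv] at e1
  have hpc : 0 ≤ S.pc j b l L := by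
    refine list_prod_nonneg (fun i => (poch_pos ?_ _).le) L
    have := S.hN
    unfold sg
    positivity
  have hpc' : 0 ≤ S'.pc j' b l L := by
    refine list_prod_nonneg (fun i => (poch_pos ?_ _).le) L
    have := S'.hN
    unfold sg
    positivity
  have e2 : ‖S.ι v‖ ≤ (L.map fun i => (S.fac i).KB j * Rep.up S.N (b i) (l i)).prod *
      ‖S.ι u'‖ := by
    rw [e1, norm_smul, Complex.norm_real, Real.norm_of_nonneg hpc]
    exact S.opB_norm j _ b l L _
  have e3 : ‖S.ι u'‖ ≤ c1 * ‖S.ι u‖ := by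
    have := h1 u' hu'
    rw [huu']
    exact this
  have e4 := h2 u hu
  -- the lower estimate
  have e5 := h4 l hl u hu
  have e6 : opQ M b l L u = opF M ε l L v := by
    rw [← huv, opF_opE M ε hε b l hL u (fun i _ => Dm_W M hu i)]
  have e7 : ‖S'.ι (opQ M b l L u)‖ ≤ c3 *
      ((L.map fun i => (S'.fac i).KB j' * Rep.up S'.N (b i) (l i)).prod * ‖S'.ι v‖) := by
    refine (h3 _ (opQ_mem M b l L hu)).trans ?_
    refine mul_le_mul_of_nonneg_left ?_ hc3.le
    have e8 := S'.lower_all j' ε hε b l hL v (fun i _ => Dm_W M hv i)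
    show ‖S'.opB j' (fun i => ε i * b i) (fun _ => 0) L (S'.ι (opQ M b l L u))‖ ≤ _
    rw [e6, e8, norm_smul, Complex.norm_real, Real.norm_of_nonneg hpc']
    exact S'.opB_norm j' _ b l L _
  -- the combination
  set U := (L.map fun i => (S.fac i).KB j * Rep.up S.N (b i) (l i)).prod with hU
  set U' := (L.map fun i => (S'.fac i).KB j' * Rep.up S'.N (b i) (l i)).prod with hU'
  set Lo := (L.map fun i => low (b i) (l i)).prod with hLo
  set P := ∏ i, ((l i : ℝ) + 1) ^ (S.N + 1) with hP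
  have hLo0 : 0 < Lo := list_prod_pos (fun i => low_pos _ _) L
  have hU0 : 0 ≤ U := list_prod_nonneg (fun i => mul_nonneg ((S.fac i).KB_nonneg j)
    (Rep.up_nonneg _ _ _)) L
  have hP2 : P = (L.map fun i => ((l i : ℝ) + 1) ^ (S.N + 1)).prod := by
    rw [hP, Fin.prod_univ_def]
  have e9 : U * U' ≤ K * (Lo * P) := by
    rw [hU, hU', hP2, hLo, list_prod_mul, list_prod_mul, list_prod_mul]
    refine list_prod_le (fun i => ?_) (fun i => ?_) L
    · exact mul_nonneg (mul_nonneg ((S.fac i).KB_nonneg j) (Rep.up_nonneg _ _ _))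
        (mul_nonneg ((S'.fac i).KB_nonneg j') (Rep.up_nonneg _ _ _))
    · have h6 := h5 i (l i) (by
        rcases hl i with h | h
        · exact Or.inl h
        · exact Or.inr (hn1.trans h))
      rw [← hNN]
      have k1 := (S.fac i).KB_nonneg j
      have k2 := (S'.fac i).KB_nonneg j'
      calc (S.fac i).KB j * Rep.up S.N (b i) (l i) * ((S'.fac i).KB j' *
            Rep.up S.N (b i) (l i)) = (S.fac i).KB j * (S'.fac i).KB j' *
            (Rep.up S.N (b i) (l i) * Rep.up S.N (b i) (l i)) := by ring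
        _ ≤ (S.fac i).KB j * (S'.fac i).KB j' *
            (c5 i * (low (b i) (l i) * ((l i : ℝ) + 1) ^ (S.N + 1))) := by gcongr
        _ = _ := by ring
  have e10 : c4 * Lo * ‖S.ι v‖ ≤ c4 * Lo * (c1 * c2 * c3 * c4⁻¹ * K * P * ‖S'.ι v‖) := by
    calc c4 * Lo * ‖S.ι v‖ ≤ c4 * Lo * (U * (c1 * (c2 * ‖S'.ι u‖))) := by
          refine mul_le_mul_of_nonneg_left (e2.trans ?_) (by positivity)
          refine mul_le_mul_of_nonneg_left (e3.trans ?_) hU0
          exact mul_le_mul_of_nonneg_left e4 hc1.le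
      _ = U * c1 * c2 * (c4 * Lo * ‖S'.ι u‖) := by ring
      _ ≤ U * c1 * c2 * (c3 * (U' * ‖S'.ι v‖)) := by
          refine mul_le_mul_of_nonneg_left (e5.trans e7) (by positivity)
      _ = c1 * c2 * c3 * ‖S'.ι v‖ * (U * U') := by ring
      _ ≤ c1 * c2 * c3 * ‖S'.ι v‖ * (K * (Lo * P)) :=
          mul_le_mul_of_nonneg_left e9 (by positivity)
      _ = _ := by
          have := hc4.ne'
          field_simp
  exact le_of_mul_le_mul_left e10 (by positivity)

end

end Pool.Agent.SGap
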