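import Pool.Agent.Lib.MP_496a9e_al.Alg

/-!
# Estimates on finite dimensional spaces
-/

namespace Pool.Agent.SGap

open Finset Filter Topology

variable {V E E' : Type*} [AddCommGroup V] [Module ℂ V] [NormedAddCommGroup E]
    [NormedSpace ℂ E] [NormedAddCommGroup E'] [NormedSpace ℂ E']

theorem fd_bound (Y : Submodule ℂ V) [FiniteDimensional ℂ Y] (f : V →ₗ[ℂ] E) (g : V →ₗ[ℂ] E')
    (hf : ∀ y ∈ Y, f y = 0 → y = 0) : ∃ C : ℝ, 0 < C ∧ ∀ y ∈ Y, ‖g y‖ ≤ C * ‖f y‖ := by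
  have hinj : Function.Injective (f.domRestrict Y) := by
    rw [← LinearMap.ker_eq_bot, LinearMap.ker_eq_bot']
    intro y hy
    exact Subtype.ext (hf y y.2 hy)
  let e := LinearEquiv.ofInjective (f.domRestrict Y) hinj
  have : FiniteDimensional ℂ (LinearMap.range (f.domRestrict Y)) :=
    LinearMap.finiteDimensional_range _
  let h : LinearMap.range (f.domRestrict Y) →ₗ[ℂ] E' := (g.domRestrict Y) ∘ₗ e.symm.toLinearMap
  let h' := LinearMap.toContinuousLinearMap h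
  refine ⟨‖h'‖ + 1, by positivity, fun y hy => ?_⟩
  have h1 : h' (e ⟨y, hy⟩) = g y := by
    show h (e ⟨y, hy⟩) = g y
    simp [h]
  have h2 : ‖e ⟨y, hy⟩‖ = ‖f y‖ := rfl
  rw [← h1, ← h2]
  refine (h'.le_opNorm _).trans ?_
  gcongr
  linarith

theorem prod_lower (r s : ℕ → ℝ) (hr : ∀ j, 0 < r j) (hr1 : ∀ j, r j ≤ 1)
    (hrs : ∀ j, 1 - s j ≤ r j) (hs0 : ∀ j, 0 ≤ s j) (hs : Summable s) :
    ∃ c : ℝ, 0 < c ∧ ∀ l, c ≤ ∏ j ∈ range l, r j := by
  have hpos : ∀ l, 0 < ∏ j ∈ range l, r j := fun l => prod_pos fun j _ => hr j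
  have hanti : Antitone fun l => ∏ j ∈ range l, r j := by
    refine antitone_nat_of_succ_le fun l => ?_
    rw [prod_range_succ]
    exact mul_le_of_le_one_right (hpos l).le (hr1 l)
  have ht := (tendsto_sum_nat_add s).eventually_le_const (by norm_num : (0:ℝ) < 1 / 2)
  obtain ⟨J, hJ⟩ := ht.exists
  have htail : ∀ n, 1 - ∑ j ∈ range n, s (j + J) ≤ ∏ j ∈ range n, r (J + j) ∧
      ∏ j ∈ range n, r (J + j) ≤ 1 := by
    intro n
    induction n with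
    | zero => simp
    | succ n ih =>
      rw [sum_range_succ, prod_range_succ]
      have h1 := hrs (J + n)
      have h2 := hs0 (J + n)
      have h3 : 0 < ∏ j ∈ range n, r (J + j) := prod_pos fun j _ => hr _
      have h4 := hr1 (J + n)
      have h5 := hr (J + n)
      rw [add_comm n J]
      constructor
      · nlinarith [ih.1, ih.2]
      · nlinarith [ih.1, ih.2]
  refine ⟨(∏ j ∈ range J, r j) * (1 / 2), by have := hpos J; positivity, fun l => ?_⟩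
  rcases le_total l J with hl | hl
  · have h1 := hanti hl
    simp only at h1
    have h2 := hpos J
    linarith
  · obtain ⟨n, rfl⟩ := Nat.exists_eq_add_of_le hl
    rw [prod_range_add]
    refine mul_le_mul_of_nonneg_left ?_ (hpos J).le
    have h1 : ∑ j ∈ range n, s (j + J) ≤ ∑' k, s (k + J) :=
      Summable.sum_le_tsum _ (fun k _ => hs0 _) ((summable_nat_add_iff J).2 hs)
    have := (htail n).1
    linarith

variable {D : sl2 →ₗ[ℝ] (V →ₗ[ℂ] V)}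

theorem summable_sq (b : ℕ) (C : ℝ) : Summable fun j : ℕ => C / ((b : ℝ) + 2 * j + 1) ^ 2 := by
  have h1 : Summable fun j : ℕ => |C| * (1 / ((j : ℝ) + 1) ^ 2) := by
    have := (summable_nat_add_iff 1).2 (Real.summable_one_div_nat_pow.2 (by norm_num : 1 < 2))
    simpa using this.mul_left |C|
  refine Summable.of_norm_bounded h1 fun j => ?_
  rw [Real.norm_eq_abs, abs_div, abs_of_nonneg (by positivity : (0:ℝ) ≤ ((b:ℝ) + 2 * j + 1) ^ 2),
    mul_one_div]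
  gcongr
  linarith [(Nat.cast_nonneg b : (0:ℝ) ≤ b), (Nat.cast_nonneg j : (0:ℝ) ≤ j)]

/-- The lower bound for products of `Ω - d_j` on a finite dimensional space. -/
theorem Q_lower (Y : Submodule ℂ V) [FiniteDimensional ℂ Y] (f : V →ₗ[ℂ] E)
    (hf : ∀ y ∈ Y, f y = 0 → y = 0) (hO : ∀ y ∈ Y, Om D y ∈ Y) (b : ℕ)
    (hinj : ∀ (j : ℕ), ∀ y ∈ Y, qf D b j y = 0 → y = 0) :
    ∃ c : ℝ, 0 < c ∧ ∀ l, ∀ y ∈ Y,
      c * (∏ j ∈ range l, (((b : ℝ) + 2 * j + 1) ^ 2 / 4)) * ‖f y‖ ≤ ‖f (Q D b l y)‖ := by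
  have hq : ∀ j, ∀ y ∈ Y, qf D b j y ∈ Y := fun j y hy => by
    rw [qf_apply]
    exact Y.smul_mem _ (Y.add_mem (hO y hy) (Y.smul_mem _ hy))
  obtain ⟨C, hC, hCb⟩ := fd_bound Y f (f ∘ₗ (Om D + LinearMap.id)) hf
  have hj : ∀ j, ∃ C' : ℝ, 0 < C' ∧ ∀ y ∈ Y, ‖f y‖ ≤ C' * ‖f (qf D b j y)‖ := fun j =>
    fd_bound Y (f ∘ₗ qf D b j) f fun y hy h => hinj j y hy (hf _ (hq j y hy) h)
  choose C' hC' hCb' using hj
  have hdpos : ∀ j : ℕ, (0 : ℝ) < ((b : ℝ) + 2 * j + 1) ^ 2 := fun j => by positivity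
  let r : ℕ → ℝ := fun j => if 2 * C / ((b : ℝ) + 2 * j + 1) ^ 2 ≤ 1 then
    1 - C / ((b : ℝ) + 2 * j + 1) ^ 2 else min 1 ((C' j)⁻¹ / (((b : ℝ) + 2 * j + 1) ^ 2 / 4))
  have hcase : ∀ j : ℕ, (2 * C / ((b : ℝ) + 2 * j + 1) ^ 2 ≤ 1 ∧
      r j = 1 - C / ((b : ℝ) + 2 * j + 1) ^ 2) ∨
      (1 < 2 * C / ((b : ℝ) + 2 * j + 1) ^ 2 ∧
        r j = min 1 ((C' j)⁻¹ / (((b : ℝ) + 2 * j + 1) ^ 2 / 4))) := by
    intro j
    by_cases h : 2 * C / ((b : ℝ) + 2 * j + 1) ^ 2 ≤ 1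
    · left; exact ⟨h, if_pos h⟩
    · right; exact ⟨not_le.1 h, if_neg h⟩
  have e2 : ∀ j : ℕ, 2 * C / ((b : ℝ) + 2 * j + 1) ^ 2 = 2 * (C / ((b : ℝ) + 2 * j + 1) ^ 2) :=
    fun j => by ring
  have hCd : ∀ j : ℕ, 0 < C / ((b : ℝ) + 2 * j + 1) ^ 2 := fun j => div_pos hC (hdpos j)
  have hr : ∀ j, 0 < r j := by
    intro j
    rcases hcase j with ⟨h1, h2⟩ | ⟨h1, h2⟩
    · rw [h2]; rw [e2] at h1; linarith
    · rw [h2]
      exact lt_min one_pos (div_pos (inv_pos.2 (hC' j)) (by have := hdpos j; positivity))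
  have hr1 : ∀ j, r j ≤ 1 := by
    intro j
    rcases hcase j with ⟨h1, h2⟩ | ⟨h1, h2⟩
    · rw [h2]; have := hCd j; linarith
    · rw [h2]; exact min_le_left _ _
  have hrs : ∀ j, 1 - 2 * C / ((b : ℝ) + 2 * j + 1) ^ 2 ≤ r j := by
    intro j
    rcases hcase j with ⟨h1, h2⟩ | ⟨h1, h2⟩
    · rw [h2, e2]; have := hCd j; linarith
    · have := hr j
      linarith
  obtain ⟨c, hc, hcl⟩ := prod_lower r (fun j => 2 * C / ((b : ℝ) + 2 * j + 1) ^ 2) hr hr1 hrs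
    (fun j => by have := hCd j; rw [e2]; linarith) (summable_sq b (2 * C))
  have hstep : ∀ j, ∀ y ∈ Y, r j * (((b : ℝ) + 2 * j + 1) ^ 2 / 4) * ‖f y‖ ≤
      ‖f (qf D b j y)‖ := by
    intro j y hy
    rcases hcase j with ⟨h1, h2⟩ | ⟨h1, h2⟩
    · rw [h2]
      have h3 : f (qf D b j y) = (1 / 4 : ℂ) • (f ((Om D + LinearMap.id : V →ₗ[ℂ] V) y) -
          ((((b : ℝ) + 2 * j + 1) ^ 2 : ℝ) : ℂ) • f y) := by
        rw [qf_apply, map_smul]
        congr 1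
        rw [map_add, map_smul, LinearMap.add_apply, LinearMap.id_apply, map_add, add_sub_assoc]
        congr 1
        rw [← one_smul ℂ (f y), smul_smul, smul_smul, ← sub_smul]
        congr 1
        push_cast
        ring
      rw [h3, norm_smul]
      have h4 : ‖(1 / 4 : ℂ)‖ = 1 / 4 := by norm_num
      have h5 : ‖((((b : ℝ) + 2 * j + 1) ^ 2 : ℝ) : ℂ) • f y‖ =
          ((b : ℝ) + 2 * j + 1) ^ 2 * ‖f y‖ := by
        rw [norm_smul, Complex.norm_real, Real.norm_of_nonneg (hdpos j).le]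
      have h6 := norm_sub_norm_le (((((b : ℝ) + 2 * j + 1) ^ 2 : ℝ) : ℂ) • f y)
        (f ((Om D + LinearMap.id : V →ₗ[ℂ] V) y))
      rw [norm_sub_rev, h5] at h6
      have h7 : ‖f ((Om D + LinearMap.id : V →ₗ[ℂ] V) y)‖ ≤ C * ‖f y‖ := hCb y hy
      rw [h4]
      have h8 : (1 - C / ((b : ℝ) + 2 * j + 1) ^ 2) * (((b : ℝ) + 2 * j + 1) ^ 2 / 4) * ‖f y‖ =
          1 / 4 * (((b : ℝ) + 2 * j + 1) ^ 2 * ‖f y‖ - C * ‖f y‖) := by
        have := (hdpos j).ne'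
        field_simp
      rw [h8]
      linarith
    · have h3 : r j ≤ (C' j)⁻¹ / (((b : ℝ) + 2 * j + 1) ^ 2 / 4) := by
        rw [h2]; exact min_le_right _ _
      have h4 := hCb' j y hy
      have h5 := hC' j
      have h6 : 0 < ((b : ℝ) + 2 * j + 1) ^ 2 / 4 := by have := hdpos j; positivity
      calc r j * (((b : ℝ) + 2 * j + 1) ^ 2 / 4) * ‖f y‖ ≤
          ((C' j)⁻¹ / (((b : ℝ) + 2 * j + 1) ^ 2 / 4)) * (((b : ℝ) + 2 * j + 1) ^ 2 / 4) *
            ‖f y‖ := by gcongr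
        _ = (C' j)⁻¹ * ‖f y‖ := by rw [div_mul_cancel₀ _ h6.ne']
        _ ≤ (C' j)⁻¹ * (C' j * ‖f (qf D b j y)‖) := by gcongr
        _ = _ := by rw [← mul_assoc, inv_mul_cancel₀ h5.ne', one_mul]
  have hind : ∀ l, ∀ y ∈ Y, (∏ j ∈ range l, (r j * (((b : ℝ) + 2 * j + 1) ^ 2 / 4))) * ‖f y‖ ≤
      ‖f (Q D b l y)‖ := by
    intro l
    induction l with
    | zero => intro y _; simp [Q]
    | succ l ih =>
      intro y hy
      have h1 := ih _ (hq l y hy)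
      have h2 := hstep l y hy
      have h3 : 0 ≤ ∏ j ∈ range l, (r j * (((b : ℝ) + 2 * j + 1) ^ 2 / 4)) :=
        prod_nonneg fun j _ => mul_nonneg (hr j).le (by have := hdpos j; positivity)
      rw [prod_range_succ]
      calc _ = (∏ j ∈ range l, (r j * (((b : ℝ) + 2 * j + 1) ^ 2 / 4))) *
          (r l * (((b : ℝ) + 2 * l + 1) ^ 2 / 4) * ‖f y‖) := by ring
        _ ≤ (∏ j ∈ range l, (r j * (((b : ℝ) + 2 * j + 1) ^ 2 / 4))) * ‖f (qf D b l y)‖ := by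
            gcongr
        _ ≤ _ := h1
  refine ⟨c, hc, fun l y hy => ?_⟩
  refine le_trans ?_ (hind l y hy)
  rw [prod_mul_distrib]
  have h3 : 0 ≤ ∏ j ∈ range l, (((b : ℝ) + 2 * j + 1) ^ 2 / 4) :=
    prod_nonneg fun j _ => (by have := hdpos j; positivity)
  have h4 := hcl l
  gcongr

end Pool.Agent.SGap
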