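import Mathlib

/-!
# The kernels `2 sinh^(l+1) t cosh^(1 - 2σ - l) t`
-/

namespace Pool.Agent.SGap

open MeasureTheory Set Filter Topology

/-- the kernel `2 sinh^(l+1) t cosh^(1 - 2σ - l) t` -/
noncomputable def mu (σ : ℝ) (l : ℕ) (t : ℝ) : ℝ :=
  2 * Real.sinh t ^ (l + 1) * Real.cosh t ^ (1 - 2 * σ - l)

/-- its derivative -/
noncomputable def mu' (σ : ℝ) (l : ℕ) (t : ℝ) : ℝ :=
  2 * (l + 1) * Real.sinh t ^ l * Real.cosh t ^ (2 - 2 * σ - l) +
    2 * (1 - 2 * σ - l) * Real.sinh t ^ (l + 2) * Real.cosh t ^ (-2 * σ - l)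

/-- the kernel times `((b + 2l + 2) cosh 2t - b) / sinh 2t` -/
noncomputable def kmu (σ b : ℝ) (l : ℕ) (t : ℝ) : ℝ :=
  2 * (l + 1) * Real.sinh t ^ l * Real.cosh t ^ (2 - 2 * σ - l) +
    2 * (b + l + 1) * Real.sinh t ^ (l + 2) * Real.cosh t ^ (-2 * σ - l)

theorem cpos (t : ℝ) : 0 < Real.cosh t := Real.cosh_pos t

theorem sinh_nonneg {t : ℝ} (ht : 0 ≤ t) : 0 ≤ Real.sinh t := Real.sinh_nonneg_iff.2 ht

theorem sinh_le_cosh (t : ℝ) : Real.sinh t ≤ Real.cosh t := (Real.sinh_lt_cosh t).le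

theorem hasDerivAt_mu (σ : ℝ) (l : ℕ) (t : ℝ) : HasDerivAt (mu σ l) (mu' σ l t) t := by
  have h1 : HasDerivAt (fun t => 2 * Real.sinh t ^ (l + 1))
      (2 * (((l + 1 : ℕ) : ℝ) * Real.sinh t ^ l * Real.cosh t)) t := by
    have := ((Real.hasDerivAt_sinh t).pow (l + 1)).const_mul 2
    simpa using this
  have h2 : HasDerivAt (fun t => Real.cosh t ^ (1 - 2 * σ - l))
      (Real.sinh t * (1 - 2 * σ - l) * Real.cosh t ^ (1 - 2 * σ - l - 1)) t :=
    (Real.hasDerivAt_cosh t).rpow_const (Or.inl (cpos t).ne')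
  have h3 := h1.mul h2
  have e1 : Real.cosh t ^ (2 - 2 * σ - l) = Real.cosh t * Real.cosh t ^ (1 - 2 * σ - l) := by
    rw [show 2 - 2 * σ - (l : ℝ) = 1 + (1 - 2 * σ - l) by ring, Real.rpow_add (cpos t),
      Real.rpow_one]
  have e2 : (1 - 2 * σ - (l : ℝ) - 1) = -2 * σ - l := by ring
  rw [e2] at h3
  refine h3.congr_deriv ?_
  unfold mu'
  rw [e1]
  push_cast
  ring

theorem kmu_sub (σ b : ℝ) (l : ℕ) (t : ℝ) :
    kmu σ b l t - mu' σ l t = (b + 2 * l + 2 * σ) * mu σ (l + 1) t := by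
  unfold kmu mu' mu
  have e : (1 - 2 * σ - ((l + 1 : ℕ) : ℝ)) = -2 * σ - l := by push_cast; ring
  rw [e]
  ring

theorem kmu_eq (σ b : ℝ) (l : ℕ) (t : ℝ) :
    ((b + 2 * l + 2) * Real.cosh (2 * t) - b) * mu σ l t = Real.sinh (2 * t) * kmu σ b l t := by
  unfold kmu mu
  have e1 : Real.cosh t ^ (2 - 2 * σ - l) =
      Real.cosh t * Real.cosh t ^ (1 - 2 * σ - (l : ℝ)) := by
    rw [show 2 - 2 * σ - (l : ℝ) = 1 + (1 - 2 * σ - l) by ring, Real.rpow_add (cpos t),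
      Real.rpow_one]
  have e2 : Real.cosh t ^ (1 - 2 * σ - (l : ℝ)) =
      Real.cosh t * Real.cosh t ^ (-2 * σ - (l : ℝ)) := by
    rw [show 1 - 2 * σ - (l : ℝ) = 1 + (-2 * σ - l) by ring, Real.rpow_add (cpos t),
      Real.rpow_one]
  rw [e1, e2, Real.cosh_two_mul, Real.sinh_two_mul]
  have h := Real.cosh_sq t
  have h' : Real.sinh t ^ 2 = Real.cosh t ^ 2 - 1 := by linarith
  set S := Real.sinh t
  set C := Real.cosh t
  set Z := C ^ (-2 * σ - (l : ℝ))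
  have : (b + 2 * l + 2) * (C ^ 2 + S ^ 2) - b = (2 * l + 2) * C ^ 2 + (2 * b + 2 * l + 2) * S ^ 2 := by
    rw [h']; ring
  rw [this]
  ring

theorem mu_nonneg (σ : ℝ) (l : ℕ) {t : ℝ} (ht : 0 ≤ t) : 0 ≤ mu σ l t := by
  unfold mu
  have := sinh_nonneg ht
  have := Real.rpow_nonneg (cpos t).le (1 - 2 * σ - l)
  positivity

theorem continuous_mu (σ : ℝ) (l : ℕ) : Continuous (mu σ l) :=
  continuous_iff_continuousAt.2 fun t => (hasDerivAt_mu σ l t).continuousAt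

theorem continuous_cosh_rpow (s : ℝ) : Continuous fun t => Real.cosh t ^ s :=
  Real.continuous_cosh.rpow_const fun t => Or.inl (cpos t).ne'

theorem continuous_mu' (σ : ℝ) (l : ℕ) : Continuous (mu' σ l) := by
  unfold mu'
  have h1 := continuous_cosh_rpow (2 - 2 * σ - l)
  have h2 := continuous_cosh_rpow (-2 * σ - l)
  have h3 := Real.continuous_sinh
  fun_prop

theorem continuous_kmu (σ b : ℝ) (l : ℕ) : Continuous (kmu σ b l) := by
  unfold kmu
  have h1 := continuous_cosh_rpow (2 - 2 * σ - l)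
  have h2 := continuous_cosh_rpow (-2 * σ - l)
  have h3 := Real.continuous_sinh
  fun_prop

theorem term_bound (σ : ℝ) (k : ℕ) (s : ℝ) (hs : k + s = 2 - 2 * σ) {t : ℝ} (ht : 0 ≤ t) :
    Real.sinh t ^ k * Real.cosh t ^ s ≤ Real.cosh t ^ (2 - 2 * σ) := by
  rw [← hs, Real.rpow_add (cpos t), Real.rpow_natCast]
  exact mul_le_mul_of_nonneg_right (pow_le_pow_left₀ (sinh_nonneg ht) (sinh_le_cosh t) k)
    (Real.rpow_nonneg (cpos t).le s)

theorem mu_le (σ : ℝ) (l : ℕ) {t : ℝ} (ht : 0 ≤ t) : |mu σ l t| ≤ 2 * Real.cosh t ^ (2 - 2 * σ) := by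
  rw [abs_of_nonneg (mu_nonneg σ l ht)]
  have := term_bound σ (l + 1) (1 - 2 * σ - l) (by push_cast; ring) ht
  unfold mu
  linarith

theorem two_term_bound (σ c d : ℝ) (l : ℕ) {t : ℝ} (ht : 0 ≤ t) :
    |2 * c * Real.sinh t ^ l * Real.cosh t ^ (2 - 2 * σ - l) +
    2 * d * Real.sinh t ^ (l + 2) * Real.cosh t ^ (-2 * σ - l)| ≤
      2 * (|c| + |d|) * Real.cosh t ^ (2 - 2 * σ) := by
  have h1 := term_bound σ l (2 - 2 * σ - l) (by ring) ht
  have h2 := term_bound σ (l + 2) (-2 * σ - l) (by push_cast; ring) ht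
  have p1 : 0 ≤ Real.sinh t ^ l * Real.cosh t ^ (2 - 2 * σ - l) := by
    have := sinh_nonneg ht
    have := Real.rpow_nonneg (cpos t).le (2 - 2 * σ - l)
    positivity
  have p2 : 0 ≤ Real.sinh t ^ (l + 2) * Real.cosh t ^ (-2 * σ - l) := by
    have := sinh_nonneg ht
    have := Real.rpow_nonneg (cpos t).le (-2 * σ - l)
    positivity
  calc _ ≤ |2 * c * Real.sinh t ^ l * Real.cosh t ^ (2 - 2 * σ - l)| +
      |2 * d * Real.sinh t ^ (l + 2) * Real.cosh t ^ (-2 * σ - l)| := abs_add_le _ _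
    _ = 2 * |c| * (Real.sinh t ^ l * Real.cosh t ^ (2 - 2 * σ - l)) +
      2 * |d| * (Real.sinh t ^ (l + 2) * Real.cosh t ^ (-2 * σ - l)) := by
        rw [mul_assoc (2 * c), mul_assoc (2 * d), abs_mul (2 * c), abs_mul (2 * d), abs_mul 2 c,
          abs_mul 2 d, abs_of_nonneg p1, abs_of_nonneg p2, abs_of_nonneg (by norm_num : (0:ℝ) ≤ 2)]
    _ ≤ 2 * |c| * Real.cosh t ^ (2 - 2 * σ) + 2 * |d| * Real.cosh t ^ (2 - 2 * σ) := by
        gcongr
    _ = _ := by ring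

/-- `cosh^(-s)` decays exponentially. -/
theorem cosh_rpow_le {s : ℝ} (hs : 0 ≤ s) (t : ℝ) :
    Real.cosh t ^ (-s) ≤ 2 ^ s * Real.exp (-(s * t)) := by
  have h : Real.exp t / 2 ≤ Real.cosh t := by
    rw [Real.cosh_eq]
    have := Real.exp_pos (-t)
    linarith
  calc Real.cosh t ^ (-s) ≤ (Real.exp t / 2) ^ (-s) :=
        Real.rpow_le_rpow_of_nonpos (by positivity) h (by linarith)
    _ = _ := by
        rw [Real.div_rpow (Real.exp_pos t).le (by norm_num), ← Real.exp_mul, Real.rpow_neg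
          (by norm_num : (0:ℝ) ≤ 2), div_inv_eq_mul, mul_comm]
        congr 2
        ring

/-- Everything bounded by `cosh^(2-2σ) e^(Kt)` with `K < 2σ - 2` is integrable. -/
theorem integrable_of_bound {F : Type*} [NormedAddCommGroup F] {f : ℝ → F} {σ K c : ℝ}
    (hc : 0 ≤ c) (h : K < 2 * σ - 2) (hσ : 1 ≤ σ)
    (hm : AEStronglyMeasurable f (volume.restrict (Ioi 0)))
    (hf : ∀ t, 0 ≤ t → ‖f t‖ ≤ c * Real.cosh t ^ (2 - 2 * σ) * Real.exp (K * t)) :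
    IntegrableOn f (Ioi 0) := by
  have h1 : IntegrableOn (fun t => (c * 2 ^ (2 * σ - 2)) * Real.exp (-(2 * σ - 2 - K) * t))
      (Ioi 0) := (integrableOn_exp_mul_Ioi (by linarith) 0).const_mul _
  refine h1.mono' hm ?_
  refine (ae_restrict_mem measurableSet_Ioi).mono fun t ht => ?_
  refine (hf t (le_of_lt ht)).trans ?_
  have h2 := cosh_rpow_le (s := 2 * σ - 2) (by linarith) t
  rw [show -(2 * σ - 2) = 2 - 2 * σ by ring] at h2
  calc c * Real.cosh t ^ (2 - 2 * σ) * Real.exp (K * t)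
      ≤ c * (2 ^ (2 * σ - 2) * Real.exp (-((2 * σ - 2) * t))) * Real.exp (K * t) := by gcongr
    _ = c * 2 ^ (2 * σ - 2) * (Real.exp (-((2 * σ - 2) * t)) * Real.exp (K * t)) := by ring
    _ = _ := by
      rw [← Real.exp_add]
      congr 2
      ring

end Pool.Agent.SGap
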