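import Pool.Agent.Lib.MP_496a9e_al.Gen
import Pool.Agent.Lib.MP_496a9e_al.Hyper

/-!
# One factor: a representation of `SL(2,ℝ)` on a Banach space, and the projections to the `K`-types
-/

namespace Pool.Agent.SGap

open MeasureTheory Topology Filter Set

/-- A continuous representation `ρ` of `SL(2,ℝ)` on a Banach space `E`, an embedding `ι : V → E`
consisting of differentiable vectors. -/
structure Fac (V E : Type*) [AddCommGroup V] [Module ℂ V] [NormedAddCommGroup E]
    [NormedSpace ℂ E] where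
  ρ : SL →* (E →L[ℂ] E)
  ι : V →ₗ[ℂ] E
  D : sl2 →ₗ[ℝ] (V →ₗ[ℂ] V)
  C : ℝ
  N : ℝ
  hN : 0 ≤ N
  cont : ∀ x, Continuous fun g => ρ g x
  inj : Function.Injective ι
  bd_rot : ∀ θ, ‖ρ (rot θ)‖ ≤ C
  bd_dia : ∀ t, 0 ≤ t → ‖ρ (dia t)‖ ≤ C * Real.exp (N * t)
  bd_loc : ∃ M, ∀ᶠ g in 𝓝 (1 : SL), ‖ρ g‖ ≤ M
  der : ∀ (γ : ℝ → SL) (Z : sl2), One1 γ Z → ∀ v, HasDerivAt (fun u => ρ (γ u) (ι v)) (ι (D Z v)) 0

variable {V E : Type*} [AddCommGroup V] [Module ℂ V] [NormedAddCommGroup E]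
    [NormedSpace ℂ E] (R : Fac V E)

namespace Fac

theorem C_nonneg : 0 ≤ R.C := (norm_nonneg _).trans (R.bd_rot 0)

theorem mul_apply (g h : SL) (x : E) : R.ρ (g * h) x = R.ρ g (R.ρ h x) := by
  rw [map_mul]; rfl

theorem one_apply (x : E) : R.ρ 1 x = x := by
  rw [map_one]; rfl

theorem Ad1_mul (g h : SL) (Z : sl2) : Ad1 (g * h)⁻¹ Z = Ad1 h⁻¹ (Ad1 g⁻¹ Z) := by
  apply Subtype.ext
  rw [coe_Ad1, coe_Ad1, coe_Ad1, inv_inv, inv_inv, inv_inv, mul_inv_rev, coe_mul', coe_mul']
  simp only [Matrix.mul_assoc]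

/-- Derivative of a one-parameter subgroup at the vectors `ρ(g) ι(v)`. -/
theorem der_at {γ : ℝ → SL} {Z : sl2} (h : One1 γ Z) (g : SL) (v : V) :
    HasDerivAt (fun u => R.ρ (γ u) (R.ρ g (R.ι v))) (R.ρ g (R.ι (R.D (Ad1 g⁻¹ Z) v))) 0 := by
  have h1 := R.der _ _ (h.conj g⁻¹) v
  have h2 : HasDerivAt (fun s => R.ρ g (R.ρ (g⁻¹ * γ s * g⁻¹⁻¹) (R.ι v)))
      (R.ρ g (R.ι (R.D (Ad1 g⁻¹ Z) v))) 0 :=
    ((R.ρ g).restrictScalars ℝ).hasFDerivAt.comp_hasDerivAt (0 : ℝ) h1
  refine h2.congr_of_eventuallyEq (Eventually.of_forall fun u => ?_)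
  simp only
  rw [← mul_apply, ← mul_apply]
  congr 2
  group

/-- `t ↦ ρ(dia t) ι(v)` is differentiable. -/
theorem der_dia (t : ℝ) (v : V) :
    HasDerivAt (fun t => R.ρ (dia t) (R.ι v)) (R.ρ (dia t) (R.ι (R.D Hmat v))) t :=
  gen_at (U := fun t => R.ρ (dia t)) (fun s t x => by rw [dia_add, mul_apply])
    (R.der _ _ one1_dia v) t

/-- The integrand of the projection to the `K`-type `m`. -/
noncomputable def pI (m : ℤ) (θ : ℝ) : E →L[ℂ] E :=
  (((2 * Real.pi)⁻¹ : ℝ) : ℂ) • Complex.exp (-(Complex.I * m * θ)) • R.ρ (rot θ)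

theorem norm_exp_I (m : ℤ) (θ : ℝ) : ‖Complex.exp (-(Complex.I * m * θ))‖ = 1 := by
  rw [Complex.norm_exp]
  have : (-(Complex.I * m * θ)).re = 0 := by simp
  rw [this, Real.exp_zero]

theorem pI_bd (m : ℤ) (θ : ℝ) : ‖R.pI m θ‖ ≤ (2 * Real.pi)⁻¹ * R.C := by
  unfold pI
  rw [norm_smul, norm_smul, norm_exp_I, one_mul]
  have : ‖(((2 * Real.pi)⁻¹ : ℝ) : ℂ)‖ = (2 * Real.pi)⁻¹ := by
    rw [Complex.norm_real, Real.norm_of_nonneg (by positivity)]
  rw [this]
  exact mul_le_mul_of_nonneg_left (R.bd_rot θ) (by positivity)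

theorem pI_cont (m : ℤ) (x : E) : Continuous fun θ => R.pI m θ x := by
  have h := (R.cont x).comp continuous_rot
  have h2 : Continuous fun θ : ℝ => Complex.exp (-(Complex.I * m * θ)) := by fun_prop
  exact (h2.smul h).const_smul _

/-- the circle -/
noncomputable def circ : Measure ℝ := volume.restrict (Ioc 0 (2 * Real.pi))

theorem circ_int (c : ℝ) : Integrable (fun _ => c) circ := by
  unfold circ
  exact integrable_const c

theorem circ_integral (c : ℝ) : ∫ _, c ∂circ = 2 * Real.pi * c := by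
  unfold circ
  rw [integral_const]
  simp [Real.pi_pos.le, Measure.real]

theorem cont_circ {F : Type*} [NormedAddCommGroup F] {f : ℝ → F} (hf : Continuous f) :
    Integrable f circ := by
  unfold circ
  have := hf.integrableOn_Ioc (a := 0) (b := 2 * Real.pi) (μ := volume)
  exact this

/-- The projection of `E` to the vectors of weight `m` of the factor. -/
noncomputable def P (m : ℤ) : E →L[ℂ] E :=
  opInt circ (R.pI m) (fun _ => (2 * Real.pi)⁻¹ * R.C) (circ_int _)
    (Eventually.of_forall fun θ => R.pI_bd m θ) (fun x => (R.pI_cont m x).aestronglyMeasurable)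

theorem P_apply (m : ℤ) (x : E) : R.P m x = ∫ θ, R.pI m θ x ∂circ := rfl

theorem P_norm (m : ℤ) : ‖R.P m‖ ≤ R.C := by
  refine (opInt_norm _ _ _).trans ?_
  rw [circ_integral, ← mul_assoc, mul_inv_cancel₀ (by positivity), one_mul]

variable [CompleteSpace E]

/-- Operators which commute with the rotations commute with `P`. -/
theorem P_comm (m : ℤ) (B : E →L[ℂ] E) (hB : ∀ θ x, B (R.ρ (rot θ) x) = R.ρ (rot θ) (B x)) (x : E) :
    B (R.P m x) = R.P m (B x) := by
  refine opInt_comm _ _ _ B (fun θ x => ?_) x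
  unfold pI
  simp only [ContinuousLinearMap.smul_apply, map_smul, hB]

theorem exp_add_I (m : ℤ) (a b : ℝ) : Complex.exp (Complex.I * m * ((a + b : ℝ) : ℂ)) =
    Complex.exp (Complex.I * m * a) * Complex.exp (Complex.I * m * b) := by
  rw [← Complex.exp_add]
  congr 1
  push_cast
  ring

/-- `P m ρ(rot φ) = e^(i m φ) P m`. -/
theorem P_rot (m : ℤ) (φ : ℝ) (x : E) :
    R.P m (R.ρ (rot φ) x) = Complex.exp (Complex.I * m * φ) • R.P m x := by
  have hper : Function.Periodic (fun θ => R.pI m θ x) (2 * Real.pi) := by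
    intro θ
    unfold pI
    simp only [ContinuousLinearMap.smul_apply]
    rw [rot_add, rot_two_pi, mul_one]
    congr 2
    rw [show -(Complex.I * (m : ℂ) * ((θ + 2 * Real.pi : ℝ) : ℂ)) =
      -(Complex.I * m * θ) + (-m : ℤ) * (2 * Real.pi * Complex.I) by push_cast; ring,
      Complex.exp_add, Complex.exp_int_mul_two_pi_mul_I, mul_one]
  have h1 : R.P m (R.ρ (rot φ) x) =
      Complex.exp (Complex.I * m * φ) • ∫ θ, R.pI m (θ + φ) x ∂circ := by
    rw [P_apply, ← integral_smul]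
    refine integral_congr_ae (Eventually.of_forall fun θ => ?_)
    unfold pI
    simp only [ContinuousLinearMap.smul_apply]
    rw [← mul_apply, ← rot_add, smul_comm (Complex.exp (Complex.I * m * φ)), smul_smul
      (Complex.exp (Complex.I * m * φ)), ← Complex.exp_add]
    congr 3
    push_cast
    ring
  rw [h1, P_apply]
  congr 1
  unfold circ
  rw [← intervalIntegral.integral_of_le (by positivity), ← intervalIntegral.integral_of_le
    (by positivity), intervalIntegral.integral_comp_add_right (fun θ => R.pI m θ x)]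
  have := hper.intervalIntegral_add_eq φ 0
  simp only [zero_add] at this ⊢
  rw [add_comm (2 * Real.pi) φ]
  exact this

/-- `ρ(rot φ) P m = e^(i m φ) P m`. -/
theorem rot_P (m : ℤ) (φ : ℝ) (x : E) :
    R.ρ (rot φ) (R.P m x) = Complex.exp (Complex.I * m * φ) • R.P m x := by
  rw [R.P_comm m (R.ρ (rot φ)) (fun θ x => by
    rw [← mul_apply, ← mul_apply, ← rot_add, ← rot_add, add_comm]), P_rot]

/-- `P m x = x` for `x` of weight `m`. -/
theorem P_self (m : ℤ) (x : E)
    (hx : ∀ θ : ℝ, R.ρ (rot θ) x = Complex.exp (Complex.I * m * θ) • x) : R.P m x = x := by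
  have h : ∀ θ : ℝ, R.pI m θ x = (((2 * Real.pi)⁻¹ : ℝ) : ℂ) • x := by
    intro θ
    unfold pI
    simp only [ContinuousLinearMap.smul_apply]
    rw [hx θ, smul_smul (Complex.exp _), ← Complex.exp_add, neg_add_cancel, Complex.exp_zero,
      one_smul]
  rw [P_apply]
  simp only [h]
  unfold circ
  rw [integral_const]
  simp only [Measure.real, Measure.restrict_apply, MeasurableSet.univ, univ_inter, Real.volume_Ioc,
    sub_zero]
  rw [ENNReal.toReal_ofReal (by positivity)]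
  rw [← Complex.coe_smul, smul_smul, ← Complex.ofReal_mul, mul_inv_cancel₀ (by positivity),
    Complex.ofReal_one, one_smul]

end Fac

end Pool.Agent.SGap
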