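import Pool.Agent.Lib.MP_496a9e_al.Sum

/-!
# Growth of weights, and the bound for the Sobolev gap
-/

namespace Pool.Agent.SGap

open Topology Filter Set

universe u

variable {r : ℕ}

theorem IsWeight.bdd {w : G r → ℝ} (hw : IsWeight w) {T : Set (G r)} (hT : IsCompact T) :
    ∃ B : ℝ, ∀ g ∈ T, w g ≤ B := by
  refine hT.induction_on (p := fun T => ∃ B : ℝ, ∀ g ∈ T, w g ≤ B) ?_ ?_ ?_ ?_
  · exact ⟨0, fun g hg => absurd hg (notMem_empty g)⟩
  · rintro s t hst ⟨B, hB⟩
    exact ⟨B, fun g hg => hB g (hst hg)⟩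
  · rintro s t ⟨B, hB⟩ ⟨B', hB'⟩
    refine ⟨max B B', fun g hg => ?_⟩
    rcases hg with hg | hg
    · exact (hB g hg).trans (le_max_left _ _)
    · exact (hB' g hg).trans (le_max_right _ _)
  · intro g _
    obtain ⟨U, hU, B, hB⟩ := hw.loc g
    exact ⟨U, mem_nhdsWithin_of_mem_nhds hU, B, hB⟩

theorem IsWeight.pow {w : G r → ℝ} (hw : IsWeight w) (g : G r) (k : ℕ) :
    w (g ^ (k + 1)) ≤ w g ^ (k + 1) := by
  induction k with
  | zero => simp
  | succ k ih =>
    rw [pow_succ g (k + 1), pow_succ (w g) (k + 1)]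
    exact (hw.mul _ _).trans (mul_le_mul_of_nonneg_right ih (hw.pos g).le)

theorem dia_pow (x : ℝ) (k : ℕ) : dia x ^ k = dia (k * x) := by
  induction k with
  | zero => simp [dia_zero]
  | succ k ih =>
    rw [pow_succ, ih, ← dia_add]
    congr 1
    push_cast
    ring

/-- Every weight grows at most exponentially. -/
theorem exists_growth {w : G r → ℝ} (hw : IsWeight w) : ∃ N, 0 ≤ N ∧ Growth w N := by
  have hc : Continuous fun t : Fin r → ℝ => (fun i => dia (t i) : G r) :=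
    continuous_pi fun i => continuous_dia.comp (continuous_apply i)
  obtain ⟨B0, hB0⟩ := hw.bdd ((isCompact_Icc (a := (0 : Fin r → ℝ)) (b := 1)).image hc)
  obtain ⟨B, hB1, hB⟩ : ∃ B : ℝ, 1 ≤ B ∧ ∀ t : Fin r → ℝ, (∀ i, 0 ≤ t i) → (∀ i, t i ≤ 1) →
      w (fun i => dia (t i)) ≤ B :=
    ⟨max 1 B0, le_max_left _ _, fun t h0 h1 =>
      (hB0 _ ⟨t, ⟨fun i => h0 i, fun i => h1 i⟩, rfl⟩).trans (le_max_right _ _)⟩
  have hBpos : 0 < B := by linarith
  refine ⟨Real.log B, Real.log_nonneg hB1, B ^ 2, fun t ht => ?_⟩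
  set T := ∑ i, t i with hTdef
  have hT0 : 0 ≤ T := Finset.sum_nonneg fun i _ => ht i
  obtain ⟨k, hk1, hk2⟩ : ∃ k : ℕ, T ≤ k ∧ (k : ℝ) + 1 ≤ T + 2 := by
    refine ⟨⌈T⌉₊, Nat.le_ceil T, ?_⟩
    have := Nat.ceil_lt_add_one hT0
    linarith
  have hk0 : (0 : ℝ) < ((k + 1 : ℕ) : ℝ) := by positivity
  have h1 : (fun i => dia (t i) : G r) = (fun i => dia (t i / ((k + 1 : ℕ) : ℝ))) ^ (k + 1) := by
    funext i
    rw [Pi.pow_apply, dia_pow, mul_div_cancel₀ _ hk0.ne']
  have h2 := hB (fun i => t i / ((k + 1 : ℕ) : ℝ)) (fun i => div_nonneg (ht i) hk0.le)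
    (fun i => by
      rw [div_le_one hk0]
      have h3 : t i ≤ T := Finset.single_le_sum (f := t) (fun i _ => ht i) (Finset.mem_univ i)
      push_cast
      linarith)
  rw [h1]
  calc w ((fun i => dia (t i / ((k + 1 : ℕ) : ℝ))) ^ (k + 1)) ≤
      w (fun i => dia (t i / ((k + 1 : ℕ) : ℝ))) ^ (k + 1) := hw.pow _ k
    _ ≤ B ^ (k + 1) := pow_le_pow_left₀ (hw.pos _).le h2 _
    _ = B ^ ((k : ℝ) + 1) := by
        rw [← Real.rpow_natCast]
        push_cast
        rfl
    _ ≤ B ^ (T + 2) := Real.rpow_le_rpow_of_exponent_le hB1 hk2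
    _ = B ^ 2 * Real.exp (Real.log B * T) := by
        rw [Real.rpow_add hBpos, mul_comm, Real.rpow_two, Real.rpow_def_of_pos hBpos]

theorem rot_periodic : Function.Periodic rot (2 * Real.pi) := by
  intro θ
  rw [rot_add, rot_two_pi, mul_one]

theorem exists_rot_bound {w : G r → ℝ} (hw : IsWeight w) :
    ∃ B : ℝ, ∀ (i : Fin r) (θ : ℝ), w (Pi.mulSingle i (rot θ)) ≤ B := by
  have hc : Continuous fun t : Fin r → ℝ => (fun i => rot (t i) : G r) :=
    continuous_pi fun i => continuous_rot.comp (continuous_apply i)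
  obtain ⟨B, hB⟩ := hw.bdd ((isCompact_Icc (a := (0 : Fin r → ℝ))
    (b := fun _ => 2 * Real.pi)).image hc)
  refine ⟨B, fun i θ => ?_⟩
  obtain ⟨θ', h1, h2⟩ := rot_periodic.exists_mem_Ico₀ (by positivity) θ
  rw [h2]
  refine hB _ ⟨Pi.single i θ', ⟨?_, ?_⟩, ?_⟩
  · intro k
    by_cases hk : k = i
    · subst hk
      simpa using h1.1
    · simp [Pi.single_eq_of_ne hk]
  · intro k
    by_cases hk : k = i
    · subst hk
      simpa using h1.2.le
    · simp only [Pi.single_eq_of_ne hk]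
      positivity
  · funext k
    by_cases hk : k = i
    · subst hk
      simp
    · simp [Pi.single_eq_of_ne hk, Pi.mulSingle_eq_of_ne hk, rot_zero]

variable {V : Type u} [AddCommGroup V] [Module ℂ V] {M : GKModule r V}

/-- A norm in `Norm(V, w)` comes from a globalization with bounds. -/
theorem exists_rep {w : G r → ℝ} (hw : IsWeight w) {N : ℝ} (hN : 0 ≤ N) (hG : Growth w N)
    {p : V → ℝ} (hp : InNorm M w p) :
    ∃ (E : Type u) (_ : NormedAddCommGroup E) (_ : NormedSpace ℂ E) (_ : CompleteSpace E)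
      (S : Rep M E), S.N = N ∧ ∀ v, p v = ‖S.ι v‖ := by
  obtain ⟨E, i1, i2, i3, π, ι, ⟨hone, hmul, hcont, C, hC⟩, ⟨hinj, -, hfin, heqv, hder⟩, hpv⟩ := hp
  obtain ⟨B, hB⟩ := exists_rot_bound hw
  obtain ⟨Cg, hCg⟩ := hG
  have hπ : ∀ g, ‖π g‖ ≤ |C| * w g := by
    intro g
    refine ContinuousLinearMap.opNorm_le_bound _ (mul_nonneg (abs_nonneg C) (hw.pos g).le)
      fun x => (hC g x).trans ?_
    have h1 := hw.pos g
    have h2 := le_abs_self C
    gcongr
  have hdia : ∀ (i : Fin r) (t : ℝ), (Pi.mulSingle i (dia t) : G r) =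
      fun k => dia ((Pi.single i t : Fin r → ℝ) k) := by
    intro i t
    funext k
    by_cases hk : k = i
    · subst hk
      simp
    · simp [Pi.single_eq_of_ne hk, Pi.mulSingle_eq_of_ne hk, dia_zero]
  refine ⟨E, i1, i2, i3,
    { π :=
        { toFun := π
          map_one' := ContinuousLinearMap.ext hone
          map_mul' := fun g h => ContinuousLinearMap.ext (hmul g h) }
      ι := ι
      C := |C| * (|B| + |Cg|)
      N := N
      hN := hN
      cont := fun x => hcont.comp (by fun_prop : Continuous fun g : G r => (g, x))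
      inj := hinj
      fin := fun x hx => (hfin x).2 hx
      eqv := heqv
      der := hder
      bd_rot := ?_
      bd_dia := ?_
      bd_loc := ?_ }, rfl, hpv⟩
  · intro i θ
    refine (hπ _).trans (mul_le_mul_of_nonneg_left ?_ (abs_nonneg C))
    have h1 := hB i θ
    have h2 := le_abs_self B
    have h3 := abs_nonneg Cg
    linarith
  · intro i t ht
    refine (hπ _).trans ?_
    rw [mul_assoc]
    refine mul_le_mul_of_nonneg_left ?_ (abs_nonneg C)
    have h1 := hCg (Pi.single i t) (fun k => by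
      by_cases hk : k = i
      · subst hk
        simpa using ht
      · simp [Pi.single_eq_of_ne hk])
    rw [Finset.sum_pi_single' i t Finset.univ, if_pos (Finset.mem_univ i)] at h1
    rw [hdia]
    refine h1.trans (mul_le_mul_of_nonneg_right ?_ (Real.exp_pos _).le)
    have h2 := le_abs_self Cg
    have h3 := abs_nonneg B
    linarith
  · obtain ⟨U, hU, B', hB'⟩ := hw.loc 1
    refine ⟨|C| * B', ?_⟩
    filter_upwards [hU] with g hg
    exact (hπ g).trans (mul_le_mul_of_nonneg_left (hB' g hg) (abs_nonneg C))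

theorem dominated_of_gt (hM : M.IsHC) {w : G r → ℝ} (hw : IsWeight w) {N : ℝ} (hN : 0 ≤ N)
    (hG : Growth w N) {s : ℝ} (hs : r * (N + 2) < s) : Dominated M w s := by
  intro p q hp hq
  obtain ⟨E, _, _, _, S, hS, hpv⟩ := exists_rep hw hN hG hp
  obtain ⟨E', _, _, _, S', hS', hqv⟩ := exists_rep hw hN hG hq
  obtain ⟨C, hC⟩ := main_est S S' hM (hS.trans hS'.symm) s (by rw [hS]; exact hs)
  refine ⟨C, fun v hv => ?_⟩
  rw [hpv, hqv]
  exact hC v hv

theorem gap_le (hM : M.IsHC) {w : G r → ℝ} (hw : IsWeight w) {N : ℝ} (hN : 0 ≤ N)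
    (hG : Growth w N) : gap M w ≤ ENNReal.ofReal (r * (N + 2)) := by
  refine ENNReal.le_of_forall_pos_le_add fun ε hε _ => ?_
  have h0 : 0 ≤ (r : ℝ) * (N + 2) := by positivity
  have hε' : (0 : ℝ) < ε := hε
  refine (iInf₂_le ((r : ℝ) * (N + 2) + ε) ⟨by positivity,
    dominated_of_gt hM hw hN hG (by linarith)⟩).trans ?_
  rw [ENNReal.ofReal_add h0 hε'.le, ENNReal.ofReal_coe_nnreal]

end Pool.Agent.SGap
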