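import Pool.Agent.Lib.MP_496a9e_al.One

/-!
# Integrals of operators, and derivatives of one-parameter groups of operators
-/

namespace Pool.Agent.SGap

open MeasureTheory Topology Filter

section opint

variable {α : Type*} [MeasurableSpace α] {E : Type*} [NormedAddCommGroup E] [NormedSpace ℂ E]

/-- The operator `x ↦ ∫ T a x`. -/
noncomputable def opInt (μ : Measure α) (T : α → E →L[ℂ] E) (b : α → ℝ) (hb : Integrable b μ)
    (hT : ∀ᵐ a ∂μ, ‖T a‖ ≤ b a) (hm : ∀ x, AEStronglyMeasurable (fun a => T a x) μ) :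
    E →L[ℂ] E :=
  LinearMap.mkContinuous
    { toFun := fun x => ∫ a, T a x ∂μ
      map_add' := by
        intro x y
        have h : ∀ x, Integrable (fun a => T a x) μ := fun x =>
          (hb.mul_const ‖x‖).mono' (hm x) (hT.mono fun a ha =>
            ((T a).le_opNorm x).trans (mul_le_mul_of_nonneg_right ha (norm_nonneg _)))
        simp only [map_add]
        exact integral_add (h x) (h y)
      map_smul' := by
        intro c x
        simp only [map_smul, RingHom.id_apply]
        exact integral_smul c _ }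
    (∫ a, b a ∂μ) (by
      intro x
      have h := norm_integral_le_of_norm_le (hb.mul_const ‖x‖) (hT.mono fun a ha =>
            ((T a).le_opNorm x).trans (mul_le_mul_of_nonneg_right ha (norm_nonneg _)))
      rw [integral_mul_const] at h
      exact h)

variable {μ : Measure α} {T : α → E →L[ℂ] E} {b : α → ℝ}

theorem opInt_apply (hb : Integrable b μ)
    (hT : ∀ᵐ a ∂μ, ‖T a‖ ≤ b a) (hm : ∀ x, AEStronglyMeasurable (fun a => T a x) μ) (x : E) :
    opInt μ T b hb hT hm x = ∫ a, T a x ∂μ := rfl

theorem opInt_integrable (hb : Integrable b μ)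
    (hT : ∀ᵐ a ∂μ, ‖T a‖ ≤ b a) (hm : ∀ x, AEStronglyMeasurable (fun a => T a x) μ) (x : E) :
    Integrable (fun a => T a x) μ :=
  (hb.mul_const ‖x‖).mono' (hm x) (hT.mono fun a ha =>
            ((T a).le_opNorm x).trans (mul_le_mul_of_nonneg_right ha (norm_nonneg _)))

theorem opInt_norm (hb : Integrable b μ)
    (hT : ∀ᵐ a ∂μ, ‖T a‖ ≤ b a) (hm : ∀ x, AEStronglyMeasurable (fun a => T a x) μ) :
    ‖opInt μ T b hb hT hm‖ ≤ ∫ a, b a ∂μ := by
  refine LinearMap.mkContinuous_norm_le _ ?_ _
  exact integral_nonneg_of_ae (hT.mono fun a ha => (norm_nonneg _).trans ha)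

/-- A bounded operator which commutes with all `T a` commutes with the integral. -/
theorem opInt_comm [CompleteSpace E] (hb : Integrable b μ)
    (hT : ∀ᵐ a ∂μ, ‖T a‖ ≤ b a) (hm : ∀ x, AEStronglyMeasurable (fun a => T a x) μ)
    (B : E →L[ℂ] E) (hB : ∀ a x, B (T a x) = T a (B x)) (x : E) :
    B (opInt μ T b hb hT hm x) = opInt μ T b hb hT hm (B x) := by
  rw [opInt_apply, opInt_apply, ← ContinuousLinearMap.integral_comp_comm _
    (opInt_integrable hb hT hm x)]
  simp only [hB]

end opint

section gen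

variable {E : Type*} [NormedAddCommGroup E] [NormedSpace ℂ E]

theorem gen_at {U : ℝ → E →L[ℂ] E} (hU : ∀ s t x, U (s + t) x = U s (U t x)) {x y : E}
    (h : HasDerivAt (fun u => U u x) y 0) (u : ℝ) : HasDerivAt (fun u => U u x) (U u y) u := by
  have h1 : HasDerivAt (fun s => U u (U s x)) (U u y) 0 :=
    ((U u).restrictScalars ℝ).hasFDerivAt.comp_hasDerivAt (0 : ℝ) h
  have h3 : HasDerivAt (fun s => U u (U s x)) (U u y) (u - u) := by
    simpa using h1
  have h4 := HasDerivAt.comp_sub_const u u h3
  refine h4.congr_of_eventuallyEq (Eventually.of_forall fun s => ?_)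
  show U s x = U u (U (s - u) x)
  rw [← hU]
  congr 2
  ring

/-- Derivatives of a one-parameter group of operators commute with integrals. -/
theorem gen_integral [CompleteSpace E] {α : Type*} [MeasurableSpace α] {μ : Measure α}
    {U : ℝ → E →L[ℂ] E} (hU : ∀ s t x, U (s + t) x = U s (U t x)) (hU0 : ∀ x, U 0 x = x)
    {M : ℝ} (hM : ∀ᶠ u in 𝓝 (0 : ℝ), ‖U u‖ ≤ M)
    {x y : α → E} (hx : Integrable x μ) (hy : Integrable y μ)
    (h : ∀ a, HasDerivAt (fun u => U u (x a)) (y a) 0) :
    HasDerivAt (fun u => U u (∫ a, x a ∂μ)) (∫ a, y a ∂μ) 0 := by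
  have key := hasDerivAt_integral_of_dominated_loc_of_deriv_le (μ := μ) (𝕜 := ℝ)
    (F := fun u a => U u (x a)) (F' := fun u a => U u (y a)) (x₀ := (0 : ℝ))
    (bound := fun a => M * ‖y a‖) (s := {u | ‖U u‖ ≤ M}) hM
    (Eventually.of_forall fun u => (U u).continuous.comp_aestronglyMeasurable
      hx.aestronglyMeasurable)
    (by simpa only [hU0] using hx)
    ((U 0).continuous.comp_aestronglyMeasurable hy.aestronglyMeasurable)
    (Eventually.of_forall fun a u hu => ((U u).le_opNorm _).trans
      (mul_le_mul_of_nonneg_right hu (norm_nonneg _)))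
    (hy.norm.const_mul M)
    (Eventually.of_forall fun a u _ => gen_at hU (h a) u)
  have h2 := key.2
  simp only [hU0] at h2
  refine h2.congr_of_eventuallyEq (Eventually.of_forall fun u => ?_)
  exact ((U u).integral_comp_comm hx).symm

end gen

end Pool.Agent.SGap
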