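import Pool.Agent.Lib.MP_496a9e_al.Hyper

/-!
# The integrals `∫ 2 sinh^(l+1) / cosh^(l+3+2j)`
-/

namespace Pool.Agent.SGap

open MeasureTheory Set Filter Topology Finset

/-- `2 sinh^(l+1) / cosh^(l+3+2j)` -/
noncomputable def kern (j l : ℕ) (t : ℝ) : ℝ :=
  2 * Real.sinh t ^ (l + 1) / Real.cosh t ^ (l + 3 + 2 * j)

theorem kern_rec (j l : ℕ) (t : ℝ) : kern (j + 1) l t = kern j l t - kern j (l + 2) t := by
  unfold kern
  have h := (cpos t).ne'
  have h2 := Real.cosh_sq t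
  have e1 : l + 3 + 2 * (j + 1) = (l + 3 + 2 * j) + 2 := by ring
  have e2 : l + 2 + 3 + 2 * j = (l + 3 + 2 * j) + 2 := by ring
  have e3 : l + 2 + 1 = (l + 1) + 2 := by ring
  rw [e1, e2, e3, pow_add (Real.cosh t) _ 2, pow_add (Real.sinh t) (l + 1) 2]
  field_simp
  rw [h2]
  ring

theorem kern_nonneg (j l : ℕ) {t : ℝ} (ht : 0 ≤ t) : 0 ≤ kern j l t := by
  unfold kern
  have := sinh_nonneg ht
  have := cpos t
  positivity

theorem hasDerivAt_th (t : ℝ) :
    HasDerivAt (fun t => Real.sinh t / Real.cosh t) (1 / Real.cosh t ^ 2) t := by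
  have h := (Real.hasDerivAt_sinh t).div (Real.hasDerivAt_cosh t) (cpos t).ne'
  refine h.congr_deriv ?_
  have h2 := Real.cosh_sq t
  congr 1
  nlinarith

theorem hasDerivAt_kern (l : ℕ) (t : ℝ) :
    HasDerivAt (fun t => 2 / ((l : ℝ) + 2) * (Real.sinh t / Real.cosh t) ^ (l + 2))
      (kern 0 l t) t := by
  have h := ((hasDerivAt_th t).pow (l + 2)).const_mul (2 / ((l : ℝ) + 2))
  refine h.congr_deriv ?_
  unfold kern
  have h1 := (cpos t).ne'
  have h2 : (l : ℝ) + 2 ≠ 0 := by positivity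
  have e : l + 2 - 1 = l + 1 := rfl
  rw [e, div_pow]
  push_cast
  field_simp
  ring

theorem tendsto_th : Tendsto (fun t => Real.sinh t / Real.cosh t) atTop (𝓝 1) := by
  have h1 : Tendsto (fun t : ℝ => 1 - Real.exp (-t)) atTop (𝓝 1) := by
    simpa using (Real.tendsto_exp_neg_atTop_nhds_zero).const_sub 1
  refine tendsto_of_tendsto_of_tendsto_of_le_of_le' h1 tendsto_const_nhds ?_ ?_
  · filter_upwards with t
    rw [le_div_iff₀ (cpos t)]
    have h2 : Real.cosh t - Real.sinh t = Real.exp (-t) := Real.cosh_sub_sinh t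
    have h3 := Real.one_le_cosh t
    have h4 := Real.exp_pos (-t)
    nlinarith
  · filter_upwards with t
    rw [div_le_one (cpos t)]
    exact sinh_le_cosh t

theorem kern_zero (l : ℕ) : IntegrableOn (kern 0 l) (Ioi 0) ∧
    ∫ t in Ioi 0, kern 0 l t = 2 / ((l : ℝ) + 2) := by
  have hlim : Tendsto (fun t => 2 / ((l : ℝ) + 2) * (Real.sinh t / Real.cosh t) ^ (l + 2)) atTop
      (𝓝 (2 / ((l : ℝ) + 2))) := by
    simpa using (tendsto_th.pow (l + 2)).const_mul (2 / ((l : ℝ) + 2))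
  constructor
  · exact integrableOn_Ioi_deriv_of_nonneg' (fun t _ => hasDerivAt_kern l t)
      (fun t ht => kern_nonneg 0 l (le_of_lt ht)) hlim
  · rw [integral_Ioi_of_hasDerivAt_of_nonneg' (fun t _ => hasDerivAt_kern l t)
      (fun t ht => kern_nonneg 0 l (le_of_lt ht)) hlim]
    simp

/-- the value of the integral -/
noncomputable def Jf (j l : ℕ) : ℝ :=
  (j.factorial : ℝ) * 2 ^ (j + 1) / ∏ k ∈ Finset.range (j + 1), ((l : ℝ) + 2 + 2 * k)

theorem Jf_pos_prod (j l : ℕ) : 0 < ∏ k ∈ Finset.range (j + 1), ((l : ℝ) + 2 + 2 * k) :=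
  Finset.prod_pos fun k _ => by positivity

theorem Jf_rec (j l : ℕ) : Jf (j + 1) l = Jf j l - Jf j (l + 2) := by
  have h0 := Jf_pos_prod j l
  have h1 := Jf_pos_prod j (l + 2)
  have e1 : ∏ k ∈ Finset.range (j + 1 + 1), ((l : ℝ) + 2 + 2 * k) =
      (∏ k ∈ Finset.range (j + 1), ((l : ℝ) + 2 + 2 * k)) * ((l : ℝ) + 2 + 2 * ((j : ℝ) + 1)) := by
    rw [Finset.prod_range_succ]
    push_cast
    ring
  have e2 : ∏ k ∈ Finset.range (j + 1 + 1), ((l : ℝ) + 2 + 2 * k) =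
      (∏ k ∈ Finset.range (j + 1), (((l + 2 : ℕ) : ℝ) + 2 + 2 * k)) * ((l : ℝ) + 2) := by
    rw [Finset.prod_range_succ']
    push_cast
    congr 1
    · refine Finset.prod_congr rfl fun k _ => ?_
      ring
    · ring
  unfold Jf
  rw [e1]
  rw [e1] at e2
  set P := ∏ k ∈ Finset.range (j + 1), ((l : ℝ) + 2 + 2 * k)
  set P' := ∏ k ∈ Finset.range (j + 1), (((l + 2 : ℕ) : ℝ) + 2 + 2 * k)
  have hl : (0 : ℝ) < (l : ℝ) + 2 := by positivity
  have hl2 : (0 : ℝ) < (l : ℝ) + 2 + 2 * ((j : ℝ) + 1) := by positivity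
  have hP' : P' = P * ((l : ℝ) + 2 + 2 * ((j : ℝ) + 1)) / ((l : ℝ) + 2) := by
    field_simp
    linarith
  rw [hP', Nat.factorial_succ]
  push_cast
  field_simp
  ring

theorem kern_int (j l : ℕ) : IntegrableOn (kern j l) (Ioi 0) ∧
    ∫ t in Ioi 0, kern j l t = Jf j l := by
  induction j generalizing l with
  | zero =>
    refine ⟨(kern_zero l).1, (kern_zero l).2.trans ?_⟩
    unfold Jf
    simp
  | succ j ih =>
    have e : kern (j + 1) l = fun t => kern j l t - kern j (l + 2) t := by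
      funext t; exact kern_rec j l t
    constructor
    · rw [e]
      exact (ih l).1.sub (ih (l + 2)).1
    · rw [e, integral_sub (ih l).1 (ih (l + 2)).1, (ih l).2, (ih (l + 2)).2, Jf_rec]

theorem Jf_le (j l : ℕ) : Jf j l ≤ (j.factorial : ℝ) * 2 ^ (j + 1) / ((l : ℝ) + 1) ^ (j + 1) := by
  unfold Jf
  have h : ((l : ℝ) + 1) ^ (j + 1) ≤ ∏ k ∈ Finset.range (j + 1), ((l : ℝ) + 2 + 2 * k) := by
    calc ((l : ℝ) + 1) ^ (j + 1) = ∏ k ∈ Finset.range (j + 1), ((l : ℝ) + 1) := by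
          rw [Finset.prod_const, Finset.card_range]
      _ ≤ _ := Finset.prod_le_prod (fun k _ => by positivity) fun k _ => by
          have : (0 : ℝ) ≤ k := Nat.cast_nonneg k
          linarith
  gcongr

theorem Jf_zero (j : ℕ) : Jf j 0 = 1 / ((j : ℝ) + 1) := by
  unfold Jf
  have h : ∏ k ∈ Finset.range (j + 1), (((0 : ℕ) : ℝ) + 2 + 2 * k) =
      2 ^ (j + 1) * ((j + 1).factorial : ℝ) := by
    induction j with
    | zero => simp
    | succ j ih =>
      rw [Finset.prod_range_succ, ih, Nat.factorial_succ (j + 1)]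
      push_cast
      ring
  rw [h, Nat.factorial_succ]
  have h1 : (j.factorial : ℝ) ≠ 0 := by exact_mod_cast Nat.factorial_ne_zero j
  push_cast
  field_simp

theorem Jf_two (j : ℕ) : Jf j 2 = 1 / (((j : ℝ) + 1) * ((j : ℝ) + 2)) := by
  have h := Jf_rec j 0
  rw [Jf_zero, Jf_zero] at h
  have h2 : Jf j 2 = 1 / ((j : ℝ) + 1) - 1 / (((j + 1 : ℕ) : ℝ) + 1) := by
    rw [h]; ring
  rw [h2]
  push_cast
  have h3 : (j : ℝ) + 1 ≠ 0 := by positivity
  have h4 : (j : ℝ) + 2 ≠ 0 := by positivity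
  have h5 : (j : ℝ) + 1 + 1 ≠ 0 := by positivity
  field_simp
  ring

/-! ### The kernels `mu` -/

/-- the exponents `σ` we use -/
noncomputable def sg (N : ℝ) (j : ℕ) : ℝ := N / 2 + 3 + j

theorem sg_cond (N : ℝ) (j : ℕ) : N + 2 < 2 * sg N j - 2 := by
  unfold sg
  have : (0 : ℝ) ≤ j := Nat.cast_nonneg j
  linarith

theorem exp_le_cosh {N : ℝ} (hN : 0 ≤ N) (t : ℝ) : Real.exp (N * t) ≤ 2 ^ N * Real.cosh t ^ N := by
  have h : Real.exp t ≤ 2 * Real.cosh t := by
    rw [Real.cosh_eq]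
    have := Real.exp_pos (-t)
    linarith
  rw [← Real.mul_rpow (by norm_num) (cpos t).le, mul_comm N t, Real.exp_mul]
  exact Real.rpow_le_rpow (Real.exp_pos t).le h hN

theorem mu_exp_le {N : ℝ} (hN : 0 ≤ N) (j l : ℕ) {t : ℝ} (ht : 0 ≤ t) :
    mu (sg N j) l t * Real.exp (N * t) ≤ 2 ^ N * kern (j + 1) l t := by
  have h1 := exp_le_cosh hN t
  have h2 := mu_nonneg (sg N j) l ht
  calc mu (sg N j) l t * Real.exp (N * t) ≤ mu (sg N j) l t * (2 ^ N * Real.cosh t ^ N) := by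
        gcongr
    _ = 2 ^ N * (2 * Real.sinh t ^ (l + 1) *
        (Real.cosh t ^ (1 - 2 * sg N j - l) * Real.cosh t ^ N)) := by
        unfold mu; ring
    _ = _ := by
        rw [← Real.rpow_add (cpos t)]
        unfold kern
        rw [div_eq_mul_inv]
        congr 2
        rw [← Real.rpow_natCast (Real.cosh t), ← Real.rpow_neg (cpos t).le]
        congr 1
        unfold sg
        push_cast
        ring

theorem mu_int_le {N : ℝ} (hN : 0 ≤ N) (j l : ℕ) :
    ∫ t in Ioi 0, mu (sg N j) l t * Real.exp (N * t) ≤ 2 ^ N * Jf (j + 1) l := by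
  rw [← (kern_int (j + 1) l).2, ← integral_const_mul]
  refine integral_mono_of_nonneg ?_ ((kern_int (j + 1) l).1.const_mul _) ?_
  · refine (ae_restrict_mem measurableSet_Ioi).mono fun t ht => ?_
    exact mul_nonneg (mu_nonneg _ _ (le_of_lt ht)) (Real.exp_pos _).le
  · refine (ae_restrict_mem measurableSet_Ioi).mono fun t ht => ?_
    exact mu_exp_le hN j l (le_of_lt ht)

theorem mu_zero_int {σ : ℝ} (hσ : 1 < σ) : IntegrableOn (mu σ 0) (Ioi 0) ∧
    ∫ t in Ioi 0, mu σ 0 t = (σ - 1)⁻¹ := by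
  have hd : ∀ t ∈ Ici (0 : ℝ), HasDerivAt (fun t => -(σ - 1)⁻¹ * Real.cosh t ^ (2 - 2 * σ))
      (mu σ 0 t) t := by
    intro t _
    have h := ((Real.hasDerivAt_cosh t).rpow_const (p := 2 - 2 * σ)
      (Or.inl (cpos t).ne')).const_mul (-(σ - 1)⁻¹)
    refine h.congr_deriv ?_
    unfold mu
    have h1 : σ - 1 ≠ 0 := by linarith
    have e : 2 - 2 * σ - 1 = 1 - 2 * σ - ((0 : ℕ) : ℝ) := by push_cast; ring
    rw [e]
    field_simp
    ring
  have hlim : Tendsto (fun t => -(σ - 1)⁻¹ * Real.cosh t ^ (2 - 2 * σ)) atTop (𝓝 0) := by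
    have h1 : Tendsto (fun t : ℝ => Real.cosh t ^ (2 - 2 * σ)) atTop (𝓝 0) := by
      have h2 : Tendsto (fun t : ℝ => 2 ^ (2 * σ - 2) * Real.exp (-((2 * σ - 2) * t))) atTop
          (𝓝 0) := by
        have h3 : Tendsto (fun t : ℝ => (2 * σ - 2) * t) atTop atTop :=
          tendsto_id.const_mul_atTop (by linarith)
        simpa using (Real.tendsto_exp_neg_atTop_nhds_zero.comp h3).const_mul (2 ^ (2 * σ - 2))
      refine squeeze_zero (fun t => Real.rpow_nonneg (cpos t).le _) (fun t => ?_) h2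
      have := cosh_rpow_le (s := 2 * σ - 2) (by linarith) t
      rwa [show -(2 * σ - 2) = 2 - 2 * σ by ring] at this
    simpa using h1.const_mul (-(σ - 1)⁻¹)
  constructor
  · exact integrableOn_Ioi_deriv_of_nonneg' hd (fun t ht => mu_nonneg _ _ (le_of_lt ht)) hlim
  · rw [integral_Ioi_of_hasDerivAt_of_nonneg' hd (fun t ht => mu_nonneg _ _ (le_of_lt ht)) hlim]
    simp

theorem kern_sinh_le (j : ℕ) {η : ℝ} (hη : 0 < η) {t : ℝ} (ht : 0 ≤ t) :
    kern (j + 1) 0 t * t ≤ 1 / 2 * (η * kern (j + 1) 0 t + η⁻¹ * kern j 2 t) := by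
  have h1 : t ≤ Real.sinh t := Real.self_le_sinh_iff.2 ht
  have h2 := kern_nonneg (j + 1) 0 ht
  have h3 : kern j 2 t = kern (j + 1) 0 t * Real.sinh t ^ 2 := by
    unfold kern
    have h := (cpos t).ne'
    have e1 : 2 + 3 + 2 * j = 0 + 3 + 2 * (j + 1) := by ring
    rw [e1]
    field_simp
    ring
  have h4 : Real.sinh t ≤ 1 / 2 * (η + η⁻¹ * Real.sinh t ^ 2) := by
    have h5 : 0 ≤ η⁻¹ * (Real.sinh t - η) ^ 2 := by positivity
    have h6 : η⁻¹ * (Real.sinh t - η) ^ 2 = η⁻¹ * Real.sinh t ^ 2 - 2 * Real.sinh t + η := by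
      field_simp
      ring
    linarith
  calc kern (j + 1) 0 t * t ≤ kern (j + 1) 0 t * (1 / 2 * (η + η⁻¹ * Real.sinh t ^ 2)) := by
        gcongr
        exact h1.trans h4
    _ = _ := by rw [h3]; ring

theorem mu_t_int_le {N : ℝ} (hN : 0 ≤ N) (j : ℕ) {η : ℝ} (hη : 0 < η) :
    IntegrableOn (fun t => mu (sg N j) 0 t * Real.exp (N * t) * t) (Ioi 0) ∧
    ∫ t in Ioi 0, mu (sg N j) 0 t * Real.exp (N * t) * t ≤
      2 ^ N * (1 / 2 * (η * (1 / ((j : ℝ) + 2)) + η⁻¹ * (1 / (((j : ℝ) + 1) * ((j : ℝ) + 2))))) := by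
  have hi : IntegrableOn (fun t => 2 ^ N * (1 / 2 * (η * kern (j + 1) 0 t + η⁻¹ * kern j 2 t)))
      (Ioi 0) := by
    have h1 := (kern_int (j + 1) 0).1
    have h2 := (kern_int j 2).1
    exact (((h1.const_mul η).add (h2.const_mul η⁻¹)).const_mul (1 / 2)).const_mul (2 ^ N)
  have hb : ∀ t, t ∈ Ioi (0:ℝ) → 0 ≤ mu (sg N j) 0 t * Real.exp (N * t) * t ∧
      mu (sg N j) 0 t * Real.exp (N * t) * t ≤
        2 ^ N * (1 / 2 * (η * kern (j + 1) 0 t + η⁻¹ * kern j 2 t)) := by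
    intro t ht
    have ht0 : 0 ≤ t := le_of_lt ht
    constructor
    · have := mu_nonneg (sg N j) 0 ht0
      positivity
    · calc _ ≤ (2 ^ N * kern (j + 1) 0 t) * t := by
            have := mu_exp_le hN j 0 ht0
            gcongr
        _ = 2 ^ N * (kern (j + 1) 0 t * t) := by ring
        _ ≤ _ := by
            have := kern_sinh_le j hη ht0
            gcongr
  have hc : Continuous fun t => mu (sg N j) 0 t * Real.exp (N * t) * t := by
    have := continuous_mu (sg N j) 0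
    fun_prop
  have hI : IntegrableOn (fun t => mu (sg N j) 0 t * Real.exp (N * t) * t) (Ioi 0) := by
    refine hi.mono' hc.aestronglyMeasurable ?_
    refine (ae_restrict_mem measurableSet_Ioi).mono fun t ht => ?_
    rw [Real.norm_of_nonneg (hb t ht).1]
    exact (hb t ht).2
  refine ⟨hI, ?_⟩
  have h1 : ∫ t in Ioi 0, mu (sg N j) 0 t * Real.exp (N * t) * t ≤
      ∫ t in Ioi 0, 2 ^ N * (1 / 2 * (η * kern (j + 1) 0 t + η⁻¹ * kern j 2 t)) := by
    refine integral_mono_ae hI hi ?_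
    exact (ae_restrict_mem measurableSet_Ioi).mono fun t ht => (hb t ht).2
  refine h1.trans (le_of_eq ?_)
  rw [integral_const_mul, integral_const_mul, integral_add ((kern_int (j + 1) 0).1.const_mul η)
    ((kern_int j 2).1.const_mul η⁻¹), integral_const_mul, integral_const_mul, (kern_int (j + 1) 0).2,
    (kern_int j 2).2, Jf_zero, Jf_two]
  push_cast
  ring

/-! ### Pochhammer symbols -/

/-- `a (a+1) ⋯ (a+l-1)` -/
noncomputable def poch (a : ℝ) (l : ℕ) : ℝ := ∏ k ∈ Finset.range l, (a + k)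

theorem poch_succ (a : ℝ) (l : ℕ) : poch a (l + 1) = poch a l * (a + l) :=
  Finset.prod_range_succ _ _

theorem poch_zero (a : ℝ) : poch a 0 = 1 := Finset.prod_range_zero _

theorem poch_pos {a : ℝ} (ha : 0 < a) (l : ℕ) : 0 < poch a l :=
  Finset.prod_pos fun k _ => by positivity

theorem poch_le {a : ℝ} (ha : 2 ≤ a) (l : ℕ) :
    poch a l ≤ (l.factorial : ℝ) * ((l : ℝ) + 1) ^ (a - 1) := by
  induction l with
  | zero => simp [poch_zero]
  | succ l ih =>
    have hb : 1 + (a - 1) * ((l : ℝ) + 1)⁻¹ ≤ (1 + ((l : ℝ) + 1)⁻¹) ^ (a - 1) :=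
      one_add_mul_self_le_rpow_one_add (by
        have : (0:ℝ) ≤ ((l : ℝ) + 1)⁻¹ := by positivity
        linarith) (by linarith)
    have h1 : (0 : ℝ) < (l : ℝ) + 1 := by positivity
    rw [poch_succ, Nat.factorial_succ]
    have e1 : (((l + 1 : ℕ) : ℝ) + 1) = ((l : ℝ) + 1) * (1 + ((l : ℝ) + 1)⁻¹) := by
      push_cast
      field_simp
    have e2 : a + l = ((l : ℝ) + 1) * (1 + (a - 1) * ((l : ℝ) + 1)⁻¹) := by
      field_simp
      ring
    rw [e1, Real.mul_rpow h1.le (by positivity)]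
    push_cast
    calc poch a l * (a + l) ≤ ((l.factorial : ℝ) * ((l : ℝ) + 1) ^ (a - 1)) *
          (((l : ℝ) + 1) * (1 + ((l : ℝ) + 1)⁻¹) ^ (a - 1)) := by
          rw [e2]
          have h2 : 0 ≤ 1 + (a - 1) * ((l : ℝ) + 1)⁻¹ := by
            have : 0 ≤ (a - 1) * ((l : ℝ) + 1)⁻¹ := mul_nonneg (by linarith) (by positivity)
            linarith
          gcongr
      _ = _ := by ring

theorem le_poch {x : ℝ} (hx : 0 ≤ x) (l : ℕ) :
    (l.factorial : ℝ) * (((l : ℝ) + 1 + x) / (1 + x)) ^ x ≤ poch (x + 1) l := by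
  induction l with
  | zero =>
    have h : (0:ℝ) + 1 + x = 1 + x := by ring
    have h2 : (1:ℝ) + x ≠ 0 := by positivity
    rw [poch_zero, Nat.cast_zero, h, div_self h2]
    simp
  | succ l ih =>
    rw [poch_succ, Nat.factorial_succ]
    have h1 : (0 : ℝ) < (l : ℝ) + 1 := by positivity
    have h2 : (0 : ℝ) < (l : ℝ) + 1 + x := by positivity
    have h3 : (0 : ℝ) < 1 + x := by positivity
    have e1 : (((l + 1 : ℕ) : ℝ) + 1 + x) / (1 + x) =
        ((l : ℝ) + 1 + x) / (1 + x) * (1 + ((l : ℝ) + 1 + x)⁻¹) := by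
      push_cast
      field_simp
      ring
    rw [e1, Real.mul_rpow (by positivity) (by positivity)]
    have h4 : (1 + ((l : ℝ) + 1 + x)⁻¹) ^ x ≤ ((l : ℝ) + 1 + x) / ((l : ℝ) + 1) := by
      have h5 : 1 + ((l : ℝ) + 1 + x)⁻¹ ≤ Real.exp (((l : ℝ) + 1 + x)⁻¹) := by
        have := Real.add_one_le_exp (((l : ℝ) + 1 + x)⁻¹)
        linarith
      have h6 : (1 + ((l : ℝ) + 1 + x)⁻¹) ^ x ≤ Real.exp (((l : ℝ) + 1 + x)⁻¹ * x) := by
        rw [Real.exp_mul]
        exact Real.rpow_le_rpow (by positivity) h5 hx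
      have h7 : 1 - ((l : ℝ) + 1 + x)⁻¹ * x ≤ Real.exp (-(((l : ℝ) + 1 + x)⁻¹ * x)) := by
        have := Real.add_one_le_exp (-(((l : ℝ) + 1 + x)⁻¹ * x))
        linarith
      have h8 : 1 - ((l : ℝ) + 1 + x)⁻¹ * x = ((l : ℝ) + 1) / ((l : ℝ) + 1 + x) := by
        field_simp
        ring
      rw [h8, Real.exp_neg] at h7
      have h9 := Real.exp_pos (((l : ℝ) + 1 + x)⁻¹ * x)
      refine h6.trans ?_
      have h10 : 0 < ((l : ℝ) + 1) / ((l : ℝ) + 1 + x) := by positivity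
      have h11 := inv_anti₀ h10 h7
      rwa [inv_inv, inv_div] at h11
    push_cast
    calc (((l : ℝ) + 1) * (l.factorial : ℝ)) * ((((l : ℝ) + 1 + x) / (1 + x)) ^ x *
          (1 + ((l : ℝ) + 1 + x)⁻¹) ^ x) =
        ((l : ℝ) + 1) * ((l.factorial : ℝ) * (((l : ℝ) + 1 + x) / (1 + x)) ^ x) *
          (1 + ((l : ℝ) + 1 + x)⁻¹) ^ x := by ring
      _ ≤ ((l : ℝ) + 1) * poch (x + 1) l * (((l : ℝ) + 1 + x) / ((l : ℝ) + 1)) := by
          have := poch_pos (by linarith : 0 < x + 1) l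
          gcongr
      _ = _ := by
          field_simp
          ring

theorem le_poch' {x : ℝ} (hx : 0 ≤ x) (l : ℕ) :
    ((1 + x) ^ x)⁻¹ * ((l.factorial : ℝ) * ((l : ℝ) + 1) ^ x) ≤ poch (x + 1) l := by
  refine le_trans ?_ (le_poch hx l)
  rw [Real.div_rpow (by positivity) (by positivity)]
  have h1 : ((l : ℝ) + 1) ^ x ≤ ((l : ℝ) + 1 + x) ^ x :=
    Real.rpow_le_rpow (by positivity) (by linarith) hx
  have h2 : 0 < (1 + x) ^ x := Real.rpow_pos_of_pos (by positivity) _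
  calc _ = (l.factorial : ℝ) * (((l : ℝ) + 1) ^ x / (1 + x) ^ x) := by
        field_simp
    _ ≤ _ := by gcongr

end Pool.Agent.SGap
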