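import Pool.Agent.Lib.MP_496a9e_al.Rep

/-!
# Several factors: products of raising and lowering operators
-/

namespace Pool.Agent.SGap

open MeasureTheory Topology Filter Set

variable {r : ℕ} {V : Type*} [AddCommGroup V] [Module ℂ V]

/-- A Banach globalization of `V`, with bounds. -/
structure Rep (M : GKModule r V) (E : Type*) [NormedAddCommGroup E] [NormedSpace ℂ E] where
  π : G r →* (E →L[ℂ] E)
  ι : V →ₗ[ℂ] E
  C : ℝ
  N : ℝ
  hN : 0 ≤ N
  cont : ∀ x, Continuous fun g => π g x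
  inj : Function.Injective ι
  fin : ∀ x : E, FiniteDimensional ℂ
    (Submodule.span ℂ (Set.range fun θ : Fin r → ℝ => π (rotG θ) x)) → ∃ v, ι v = x
  eqv : ∀ (θ : Fin r → ℝ) (v : V), ι (M.act θ v) = π (rotG θ) (ι v)
  der : ∀ (γ : ℝ → G r) (X : LieG r), OneParam γ X → ∀ v : V,
      HasDerivAt (fun t => π (γ t) (ι v)) (ι (M.lie X v)) 0
  bd_rot : ∀ (i : Fin r) θ, ‖π (Pi.mulSingle i (rot θ))‖ ≤ C
  bd_dia : ∀ (i : Fin r) t, 0 ≤ t → ‖π (Pi.mulSingle i (dia t))‖ ≤ C * Real.exp (N * t)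
  bd_loc : ∃ B, ∀ᶠ g in 𝓝 (1 : G r), ‖π g‖ ≤ B

set_option linter.unusedSectionVars false

variable {M : GKModule r V} {E : Type*} [NormedAddCommGroup E] [NormedSpace ℂ E] (S : Rep M E)

namespace Rep

theorem continuous_single (i : Fin r) : Continuous fun g : SL => (Pi.mulSingle i g : G r) := by
  refine continuous_pi fun k => ?_
  by_cases h : k = i
  · subst h
    simp only [Pi.mulSingle_eq_same]
    exact continuous_id
  · simpa [Pi.mulSingle_eq_of_ne h] using continuous_const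

/-- the factor `i` -/
noncomputable def fac (i : Fin r) : Fac V E where
  ρ := S.π.comp (MonoidHom.mulSingle (fun _ => SL) i)
  ι := S.ι
  D := Dm M i
  C := S.C
  N := S.N
  hN := S.hN
  cont := fun x => (S.cont x).comp (continuous_single i)
  inj := S.inj
  bd_rot := S.bd_rot i
  bd_dia := S.bd_dia i
  bd_loc := by
    obtain ⟨B, hB⟩ := S.bd_loc
    refine ⟨B, ?_⟩
    have h : Tendsto (fun g : SL => (Pi.mulSingle i g : G r)) (𝓝 1) (𝓝 1) := by
      have := (continuous_single (r := r) i).tendsto 1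
      rwa [Pi.mulSingle_one] at this
    exact h.eventually hB
  der := fun γ Z h v => S.der _ _ (h.single i) v

theorem fac_ρ (i : Fin r) (g : SL) (x : E) : (S.fac i).ρ g x = S.π (Pi.mulSingle i g) x := rfl

theorem fac_comm {i j : Fin r} (hij : i ≠ j) (g h : SL) (x : E) :
    (S.fac i).ρ g ((S.fac j).ρ h x) = (S.fac j).ρ h ((S.fac i).ρ g x) := by
  simp only [fac_ρ]
  have e : (Pi.mulSingle i g : G r) * Pi.mulSingle j h = Pi.mulSingle j h * Pi.mulSingle i g := by
    funext k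
    by_cases h1 : k = i
    · subst h1
      simp [Pi.mulSingle_eq_of_ne hij]
    · simp [Pi.mulSingle_eq_of_ne h1]
  have h1 : ∀ a b : G r, S.π a (S.π b x) = S.π (a * b) x := fun a b => by rw [map_mul]; rfl
  rw [h1, h1, e]

/-- `x` has weight `m` -/
def Wt (m : Fin r → ℤ) (x : E) : Prop :=
  ∀ (i : Fin r) (θ : ℝ), (S.fac i).ρ (rot θ) x = Complex.exp (Complex.I * (m i) * θ) • x

theorem rotG_single (i : Fin r) (θ : ℝ) :
    (rotG (Pi.single i θ) : G r) = Pi.mulSingle i (rot θ) := by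
  funext j
  by_cases h : j = i
  · subst h
    show rot ((Pi.single j θ : Fin r → ℝ) j) = _
    simp
  · show rot ((Pi.single i θ : Fin r → ℝ) j) = _
    simp [Pi.single_eq_of_ne h, Pi.mulSingle_eq_of_ne h, rot_zero]

theorem wt_of_mem {m : Fin r → ℤ} {v : V} (hv : v ∈ ktype M.act m) : S.Wt m (S.ι v) := by
  intro i θ
  have h := S.eqv (Pi.single i θ) v
  rw [ktype_act M hv, rotG_single] at h
  rw [fac_ρ, ← h, map_smul]
  congr 2
  rw [Finset.sum_eq_single i]
  · simp; ring
  · intro j _ hj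
    simp [Pi.single_eq_of_ne hj]
  · intro hi
    exact absurd (Finset.mem_univ i) hi

theorem wt_all {m : Fin r → ℤ} {x : E} (hx : S.Wt m x) (θ : Fin r → ℝ) :
    S.π (rotG θ) x =
      Complex.exp (Complex.I * ∑ i, (m i : ℂ) * (θ i : ℂ)) • x := by
  have h : ∀ s : Finset (Fin r), S.π (fun i => if i ∈ s then rot (θ i) else 1) x =
      Complex.exp (Complex.I * ∑ i ∈ s, (m i : ℂ) * (θ i : ℂ)) • x := by
    intro s
    induction s using Finset.induction_on with
    | empty =>
      simp only [Finset.notMem_empty, if_false, Finset.sum_empty, mul_zero, Complex.exp_zero,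
        one_smul]
      have : (fun _ : Fin r => (1 : SL)) = (1 : G r) := rfl
      rw [this, map_one]
      rfl
    | insert a s ha ih =>
      have e : (fun i => if i ∈ insert a s then rot (θ i) else 1 : G r) =
          (fun i => if i ∈ s then rot (θ i) else 1 : G r) * Pi.mulSingle a (rot (θ a)) := by
        funext i
        by_cases h : i = a
        · subst h
          simp [ha]
        · simp [h, Finset.mem_insert]
      have h1 := hx a (θ a)
      rw [fac_ρ] at h1
      rw [e, map_mul, mul_apply_eq_comp, h1, map_smul, ih, smul_smul,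
        ← Complex.exp_add, Finset.sum_insert ha]
      congr 2
      ring
  have h1 := h Finset.univ
  simp only [Finset.mem_univ, if_true] at h1
  exact h1

theorem exists_of_wt {m : Fin r → ℤ} {x : E} (hx : S.Wt m x) :
    ∃ v ∈ ktype M.act m, S.ι v = x := by
  have hfin : FiniteDimensional ℂ
      (Submodule.span ℂ (Set.range fun θ : Fin r → ℝ => S.π (rotG θ) x)) := by
    have hle : Submodule.span ℂ (Set.range fun θ : Fin r → ℝ => S.π (rotG θ) x) ≤
        Submodule.span ℂ {x} := by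
      rw [Submodule.span_le]
      rintro _ ⟨θ, rfl⟩
      have h := S.wt_all hx θ
      simp only
      rw [h]
      exact Submodule.smul_mem _ _ (Submodule.mem_span_singleton_self x)
    exact Submodule.finiteDimensional_of_le hle
  obtain ⟨v, rfl⟩ := S.fin x hfin
  refine ⟨v, ?_, rfl⟩
  intro θ
  apply S.inj
  rw [S.eqv, S.wt_all hx, map_smul]

theorem wt_smul {m : Fin r → ℤ} {x : E} (c : ℂ) (hx : S.Wt m x) : S.Wt m (c • x) := by
  intro i θ
  rw [map_smul, hx, smul_comm]

variable [CompleteSpace E]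

/-- the operators of the factor `i` -/
noncomputable def Bi (j : ℕ) (i : Fin r) (w : ℤ) (l : ℕ) : E →L[ℂ] E := (S.fac i).B j w l

theorem Bi_comm (j : ℕ) {i i' : Fin r} (hi : i ≠ i') (w : ℤ) (l : ℕ) (g : SL) (x : E) :
    (S.fac i').ρ g (S.Bi j i w l x) = S.Bi j i w l ((S.fac i').ρ g x) :=
  (S.fac i).A_comm _ (sg_cond _ j) w l _ (fun h y => S.fac_comm hi.symm g h y) x

theorem Bi_Bi (j : ℕ) {i i' : Fin r} (hi : i ≠ i') (w w' : ℤ) (l l' : ℕ) (x : E) :
    S.Bi j i' w' l' (S.Bi j i w l x) = S.Bi j i w l (S.Bi j i' w' l' x) :=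
  (S.fac i).A_comm _ (sg_cond _ j) w l _ (fun h y => (S.Bi_comm j hi.symm w' l' h y).symm) x

/-- `B_i` preserves the weights of the other factors, and has weight `w` for the factor `i`. -/
theorem Bi_wt (j : ℕ) (i : Fin r) {m : Fin r → ℤ} (w : ℤ) (l : ℕ) {x : E}
    (hx : ∀ k, k ≠ i → ∀ θ : ℝ, (S.fac k).ρ (rot θ) x =
      Complex.exp (Complex.I * (m k) * θ) • x) (hm : m i = w) : S.Wt m (S.Bi j i w l x) := by
  intro k θ
  by_cases hk : k = i
  · subst hk
    rw [hm]
    exact (S.fac k).A_rot _ (sg_cond _ j) w l θ x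
  · rw [S.Bi_comm j (Ne.symm hk), hx k hk, map_smul]

/-- the product of the operators `B_i` over the factors in a list -/
noncomputable def opB (j : ℕ) (w : Fin r → ℤ) (l : Fin r → ℕ) : List (Fin r) → E →L[ℂ] E
  | [] => ContinuousLinearMap.id ℂ E
  | i :: L => (S.Bi j i (w i) (l i)) ∘L opB j w l L

theorem opB_cons (j : ℕ) (w : Fin r → ℤ) (l : Fin r → ℕ) (i : Fin r) (L : List (Fin r)) (x : E) :
    S.opB j w l (i :: L) x = S.Bi j i (w i) (l i) (S.opB j w l L x) := rfl

theorem opB_comm (j : ℕ) (w : Fin r → ℤ) (l : Fin r → ℕ) {i : Fin r} {L : List (Fin r)}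
    (hi : i ∉ L) (g : SL) (x : E) :
    (S.fac i).ρ g (S.opB j w l L x) = S.opB j w l L ((S.fac i).ρ g x) := by
  induction L with
  | nil => rfl
  | cons k L ih =>
    rw [List.mem_cons, not_or] at hi
    rw [opB_cons, opB_cons, S.Bi_comm j (Ne.symm hi.1), ih hi.2]

theorem opB_Bi (j : ℕ) (w : Fin r → ℤ) (l : Fin r → ℕ) {i : Fin r} {L : List (Fin r)}
    (hi : i ∉ L) (w' : ℤ) (l' : ℕ) (x : E) :
    S.opB j w l L (S.Bi j i w' l' x) = S.Bi j i w' l' (S.opB j w l L x) := by
  induction L with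
  | nil => rfl
  | cons k L ih =>
    rw [List.mem_cons, not_or] at hi
    rw [opB_cons, opB_cons, ih hi.2, S.Bi_Bi j hi.1]

/-- `opB` preserves the weight `m`. -/
theorem opB_wt (j : ℕ) (m : Fin r → ℤ) (l : Fin r → ℕ) {L : List (Fin r)} (hL : L.Nodup)
    {x : E} (hx : S.Wt m x) : S.Wt m (S.opB j m l L x) := by
  induction L with
  | nil => exact hx
  | cons i L ih =>
    rw [List.nodup_cons] at hL
    have h1 := ih hL.2
    rw [opB_cons]
    exact S.Bi_wt j i (m i) (l i) (fun k _ θ => h1 k θ) rfl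

end Rep

/-- the product of the raising operators -/
noncomputable def opE (M : GKModule r V) (ε : Fin r → ℤ) (l : Fin r → ℕ) :
    List (Fin r) → V →ₗ[ℂ] V
  | [] => LinearMap.id
  | i :: L => (EE (Dm M i) (ε i) ^ l i) ∘ₗ opE M ε l L

/-- the product of the lowering operators -/
noncomputable def opF (M : GKModule r V) (ε : Fin r → ℤ) (l : Fin r → ℕ) :
    List (Fin r) → V →ₗ[ℂ] V
  | [] => LinearMap.id
  | i :: L => opF M ε l L ∘ₗ (EE (Dm M i) (-ε i) ^ l i)

/-- the product of the polynomials in the Casimir operators -/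
noncomputable def opQ (M : GKModule r V) (b l : Fin r → ℕ) : List (Fin r) → V →ₗ[ℂ] V
  | [] => LinearMap.id
  | i :: L => opQ M b l L ∘ₗ Q (Dm M i) (b i) (l i)

theorem opE_cons (M : GKModule r V) (ε : Fin r → ℤ) (l : Fin r → ℕ) (i : Fin r)
    (L : List (Fin r)) (v : V) :
    opE M ε l (i :: L) v = (EE (Dm M i) (ε i) ^ l i) (opE M ε l L v) := rfl

theorem opF_cons (M : GKModule r V) (ε : Fin r → ℤ) (l : Fin r → ℕ) (i : Fin r)
    (L : List (Fin r)) (v : V) :
    opF M ε l (i :: L) v = opF M ε l L ((EE (Dm M i) (-ε i) ^ l i) v) := rfl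

theorem opQ_cons (M : GKModule r V) (b l : Fin r → ℕ) (i : Fin r)
    (L : List (Fin r)) (v : V) :
    opQ M b l (i :: L) v = opQ M b l L (Q (Dm M i) (b i) (l i) v) := rfl

/-! ### Commutation of the factors -/

/-- An endomorphism which commutes with the Lie algebra of the factor `i`. -/
def CommD (M : GKModule r V) (i : Fin r) (A : V →ₗ[ℂ] V) : Prop :=
  ∀ (Z : sl2) (v : V), A (Dm M i Z v) = Dm M i Z (A v)

theorem CommD.cEE {i : Fin r} {A : V →ₗ[ℂ] V} (h : CommD M i A) (ε : ℤ) (v : V) :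
    A (EE (Dm M i) ε v) = EE (Dm M i) ε (A v) := by
  rw [EE_apply, EE_apply, map_smul, map_add, map_smul, h, h]

theorem CommD.cEE_pow {i : Fin r} {A : V →ₗ[ℂ] V} (h : CommD M i A) (ε : ℤ) (l : ℕ) (v : V) :
    A ((EE (Dm M i) ε ^ l) v) = (EE (Dm M i) ε ^ l) (A v) := by
  induction l with
  | zero => rfl
  | succ l ih => rw [pow_succ', Module.End.mul_apply, Module.End.mul_apply, h.cEE, ih]

theorem CommD.cOm {i : Fin r} {A : V →ₗ[ℂ] V} (h : CommD M i A) (v : V) :
    A (Om (Dm M i) v) = Om (Dm M i) (A v) := by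
  rw [Om_apply, Om_apply, map_sub, map_add]
  simp only [h _ _]

theorem CommD.cqf {i : Fin r} {A : V →ₗ[ℂ] V} (h : CommD M i A) (b j : ℕ) (v : V) :
    A (qf (Dm M i) b j v) = qf (Dm M i) b j (A v) := by
  rw [qf_apply, qf_apply, map_smul, map_add, map_smul, h.cOm]

theorem CommD.cQ {i : Fin r} {A : V →ₗ[ℂ] V} (h : CommD M i A) (b l : ℕ) (v : V) :
    A (Q (Dm M i) b l v) = Q (Dm M i) b l (A v) := by
  induction l generalizing v with
  | zero => rfl
  | succ l ih =>
    show A (Q (Dm M i) b l (qf (Dm M i) b l v)) = Q (Dm M i) b l (qf (Dm M i) b l (A v))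
    rw [ih, h.cqf]

theorem commD_D (M : GKModule r V) {i k : Fin r} (hik : i ≠ k) (Z : sl2) : CommD M i (Dm M k Z) :=
  fun Z' v => (Dm_comm M hik Z' Z v).symm

theorem commD_EE (M : GKModule r V) {i k : Fin r} (hik : i ≠ k) (ε : ℤ) (l : ℕ) :
    CommD M i (EE (Dm M k) ε ^ l) := fun Z v => ((commD_D M hik.symm Z).cEE_pow ε l v).symm

theorem commD_Q (M : GKModule r V) {i k : Fin r} (hik : i ≠ k) (b l : ℕ) :
    CommD M i (Q (Dm M k) b l) := fun Z v => ((commD_D M hik.symm Z).cQ b l v).symm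

theorem commD_opE (M : GKModule r V) (ε : Fin r → ℤ) (l : Fin r → ℕ) {i : Fin r}
    {L : List (Fin r)} (hi : i ∉ L) : CommD M i (opE M ε l L) := by
  induction L with
  | nil => exact fun _ _ => rfl
  | cons k L ih =>
    rw [List.mem_cons, not_or] at hi
    intro Z v
    rw [opE_cons, opE_cons, ih hi.2, commD_EE M hi.1]

theorem commD_opF (M : GKModule r V) (ε : Fin r → ℤ) (l : Fin r → ℕ) {i : Fin r}
    {L : List (Fin r)} (hi : i ∉ L) : CommD M i (opF M ε l L) := by
  induction L with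
  | nil => exact fun _ _ => rfl
  | cons k L ih =>
    rw [List.mem_cons, not_or] at hi
    intro Z v
    rw [opF_cons, opF_cons, commD_EE M hi.1, ih hi.2]

/-- `opF ∘ opE = opQ` on vectors of the right weights. -/
theorem opF_opE (M : GKModule r V) (ε : Fin r → ℤ) (hε : ∀ i, ε i = 1 ∨ ε i = -1)
    (b l : Fin r → ℕ) {L : List (Fin r)} (hL : L.Nodup) (v : V)
    (hv : ∀ i ∈ L, Dm M i Wmat v = (Complex.I * ((ε i * b i : ℤ) : ℂ)) • v) :
    opF M ε l L (opE M ε l L v) = opQ M b l L v := by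
  induction L generalizing v with
  | nil => rfl
  | cons i L ih =>
    rw [List.nodup_cons] at hL
    have h1 : Dm M i Wmat (opE M ε l L v) =
        (Complex.I * ((ε i * b i : ℤ) : ℂ)) • opE M ε l L v := by
      rw [← commD_opE M ε l hL.1, hv i List.mem_cons_self, map_smul]
    rw [opF_cons, opE_cons, (Dm_isRep M i).FE_pow (ε i) (hε i) (b i) (l i) _ h1,
      ← (commD_opE M ε l hL.1).cQ, ih hL.2]
    · rfl
    · intro k hk
      have hki : k ≠ i := fun h => hL.1 (h ▸ hk)
      rw [← commD_Q M hki, hv k (List.mem_cons_of_mem _ hk), map_smul]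

namespace Rep

variable [CompleteSpace E]

/-- Operators which commute with a factor commute with its Lie algebra. -/
theorem comm_D {i : Fin r} (T : E →L[ℂ] E) (hT : ∀ g x, T ((S.fac i).ρ g x) =
    (S.fac i).ρ g (T x)) {u v : V} (h : S.ι u = T (S.ι v)) (Z : sl2) (hZ : ∃ γ, One1 γ Z) :
    S.ι (Dm M i Z u) = T (S.ι (Dm M i Z v)) := by
  obtain ⟨γ, hγ⟩ := hZ
  have h1 := (S.fac i).der γ Z hγ u
  have h2 := (S.fac i).der γ Z hγ v
  have h3 : HasDerivAt (fun s => T ((S.fac i).ρ (γ s) (S.ι v))) (T (S.ι (Dm M i Z v))) 0 :=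
    (T.restrictScalars ℝ).hasFDerivAt.comp_hasDerivAt (0 : ℝ) h2
  have h4 : (fun s => T ((S.fac i).ρ (γ s) (S.ι v))) = fun s => (S.fac i).ρ (γ s) (S.ι u) := by
    funext s
    rw [hT, h]
  rw [h4] at h3
  exact h1.unique h3

theorem comm_EE {i : Fin r} (T : E →L[ℂ] E) (hT : ∀ g x, T ((S.fac i).ρ g x) =
    (S.fac i).ρ g (T x)) {u v : V} (h : S.ι u = T (S.ι v)) (ε : ℤ) :
    S.ι (EE (Dm M i) ε u) = T (S.ι (EE (Dm M i) ε v)) := by
  rw [EE_apply, EE_apply]
  simp only [map_smul, map_add]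
  rw [S.comm_D T hT h Hmat ⟨dia, one1_dia⟩, S.comm_D T hT h Xmat ⟨hyp, one1_hyp⟩]

theorem comm_EE_pow {i : Fin r} (T : E →L[ℂ] E) (hT : ∀ g x, T ((S.fac i).ρ g x) =
    (S.fac i).ρ g (T x)) {u v : V} (h : S.ι u = T (S.ι v)) (ε : ℤ) (l : ℕ) :
    S.ι ((EE (Dm M i) ε ^ l) u) = T (S.ι ((EE (Dm M i) ε ^ l) v)) := by
  induction l with
  | zero => exact h
  | succ l ih =>
    rw [pow_succ', Module.End.mul_apply, Module.End.mul_apply]
    exact S.comm_EE T hT ih ε

theorem comm_opE (T : E →L[ℂ] E) (ε : Fin r → ℤ) (l : Fin r → ℕ) {L : List (Fin r)}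
    (hT : ∀ i ∈ L, ∀ g x, T ((S.fac i).ρ g x) = (S.fac i).ρ g (T x))
    {u v : V} (h : S.ι u = T (S.ι v)) :
    S.ι (opE M ε l L u) = T (S.ι (opE M ε l L v)) := by
  induction L with
  | nil => exact h
  | cons i L ih =>
    rw [opE_cons, opE_cons]
    exact S.comm_EE_pow T (hT i List.mem_cons_self)
      (ih fun k hk => hT k (List.mem_cons_of_mem _ hk)) _ _

/-- the product of the Pochhammer symbols -/
noncomputable def pc (j : ℕ) (b l : Fin r → ℕ) (L : List (Fin r)) : ℝ :=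
  (L.map fun i => poch (sg S.N j + b i / 2) (l i)).prod

theorem pc_cons (j : ℕ) (b l : Fin r → ℕ) (i : Fin r) (L : List (Fin r)) :
    S.pc j b l (i :: L) = poch (sg S.N j + b i / 2) (l i) * S.pc j b l L := by
  unfold pc
  rw [List.map_cons, List.prod_cons]

/-- **Raising in all factors.** -/
theorem raise_all (j : ℕ) (ε : Fin r → ℤ) (hε : ∀ i, ε i = 1 ∨ ε i = -1) (b l : Fin r → ℕ)
    {L : List (Fin r)} (hL : L.Nodup) (u v : V)
    (hv : v ∈ ktype M.act fun i => ε i * b i)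
    (hu : S.ι u = S.opB j (fun i => ε i * b i) (fun _ => 0) L (S.ι v)) :
    S.ι (opE M ε l L u) = ((S.pc j b l L : ℝ) : ℂ) •
      S.opB j (fun i => ε i * (b i + 2 * l i)) l L (S.ι v) := by
  induction L generalizing u with
  | nil =>
    have : S.pc j b l [] = 1 := rfl
    rw [this, Complex.ofReal_one, one_smul]
    exact hu
  | cons i L ih =>
    rw [List.nodup_cons] at hL
    rw [opB_cons] at hu
    have hw := S.opB_wt j (fun i => ε i * b i) (fun _ => 0) hL.2 (S.wt_of_mem hv)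
    obtain ⟨v', hv', he⟩ := S.exists_of_wt hw
    rw [← he] at hu
    have h1 := ih hL.2 v' he
    have h2 : S.ι (opE M ε l L u) = S.Bi j i (ε i * b i) 0 (S.ι (opE M ε l L v')) := by
      refine S.comm_opE _ ε l (fun k hk g x => ?_) hu
      have hki : i ≠ k := fun h => hL.1 (h ▸ hk)
      exact (S.Bi_comm j hki _ _ g x).symm
    have h3 : Dm M i Wmat (opE M ε l L v') =
        (Complex.I * ((ε i * b i : ℤ) : ℂ)) • opE M ε l L v' := by
      rw [← commD_opE M ε l hL.1, Dm_W M hv', map_smul]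
    have h4 := (S.fac i).raise_pow j (b i) (ε i) (hε i) (opE M ε l L u) (opE M ε l L v') h3 h2
      (l i)
    rw [opE_cons, pc_cons, opB_cons]
    change S.ι _ = _ • S.Bi j i _ _ (S.ι _) at h4
    rw [show EE (Dm M i) (ε i) = EE (S.fac i).D (ε i) from rfl, h4, h1, map_smul, smul_smul]
    rw [Complex.ofReal_mul]
    rfl

/-- **Lowering in all factors.** -/
theorem lower_all (j : ℕ) (ε : Fin r → ℤ) (hε : ∀ i, ε i = 1 ∨ ε i = -1) (b l : Fin r → ℕ)
    {L : List (Fin r)} (hL : L.Nodup) (v : V)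
    (hv : ∀ i ∈ L, Dm M i Wmat v = (Complex.I * ((ε i * (b i + 2 * l i) : ℤ) : ℂ)) • v) :
    S.opB j (fun i => ε i * b i) (fun _ => 0) L (S.ι (opF M ε l L v)) =
      ((S.pc j b l L : ℝ) : ℂ) • S.opB j (fun i => ε i * b i) l L (S.ι v) := by
  induction L generalizing v with
  | nil =>
    have : S.pc j b l [] = 1 := rfl
    rw [this, Complex.ofReal_one, one_smul]
    rfl
  | cons i L ih =>
    rw [List.nodup_cons] at hL
    have h1 : ∀ k ∈ L, Dm M k Wmat ((EE (Dm M i) (-ε i) ^ l i) v) =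
        (Complex.I * ((ε k * (b k + 2 * l k) : ℤ) : ℂ)) • (EE (Dm M i) (-ε i) ^ l i) v := by
      intro k hk
      have hki : k ≠ i := fun h => hL.1 (h ▸ hk)
      rw [← commD_EE M hki, hv k (List.mem_cons_of_mem _ hk), map_smul]
    have h2 := (S.fac i).lower_pow (Dm_isRep M i) j (b i) (ε i) (hε i) (l i) v
      (hv i List.mem_cons_self)
    change S.Bi j i _ _ (S.ι _) = _ • S.Bi j i _ _ (S.ι v) at h2
    rw [opB_cons, opF_cons, ih hL.2 _ h1, map_smul, ← S.opB_Bi j _ _ hL.1]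
    rw [show EE (Dm M i) (-ε i) = EE (S.fac i).D (-ε i) from rfl, h2, map_smul, S.opB_Bi j _ _ hL.1,
      opB_cons, pc_cons, smul_smul, mul_comm, Complex.ofReal_mul]
    rfl

end Rep

end Pool.Agent.SGap
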