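import Pool.Agent.Lib.MP_496a9e_al.Raise
import Pool.Agent.Lib.MP_496a9e_al.Kern
import Pool.Agent.Lib.MP_496a9e_al.FD

/-!
# One factor: norm bounds, iterated raising and lowering, approximate identity
-/

namespace Pool.Agent.SGap

open MeasureTheory Topology Filter Set

variable {V E : Type*} [AddCommGroup V] [Module ℂ V] [NormedAddCommGroup E]
    [NormedSpace ℂ E] (R : Fac V E)

set_option linter.unusedSectionVars false

namespace Fac

variable [CompleteSpace E]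

/-- the operators with the exponents `σ = N/2 + 3 + j` -/
noncomputable def B (j : ℕ) (m : ℤ) (l : ℕ) : E →L[ℂ] E := R.A (sg R.N j) (sg_cond R.N j) m l

/-- the constant in the norm bounds -/
noncomputable def KB (j : ℕ) : ℝ := R.C ^ 2 * 2 ^ R.N * ((j + 1).factorial * 2 ^ (j + 2))

theorem KB_nonneg (j : ℕ) : 0 ≤ R.KB j := by
  unfold KB
  positivity

theorem B_bd (j : ℕ) (m : ℤ) (l : ℕ) : ‖R.B j m l‖ ≤ R.KB j / ((l : ℝ) + 1) ^ (j + 2) := by
  refine (R.A_norm _ _ m l).trans ?_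
  have h1 := mu_int_le R.hN j l
  have h2 := Jf_le (j + 1) l
  calc R.C ^ 2 * ∫ t in Ioi 0, mu (sg R.N j) l t * Real.exp (R.N * t) ≤
      R.C ^ 2 * (2 ^ R.N * (((j + 1).factorial : ℝ) * 2 ^ (j + 1 + 1) /
        ((l : ℝ) + 1) ^ (j + 1 + 1))) := by
        refine mul_le_mul_of_nonneg_left (h1.trans ?_) (by positivity)
        exact mul_le_mul_of_nonneg_left h2 (by positivity)
    _ = _ := by
        unfold KB
        ring

theorem poch_B_bd (j : ℕ) (b : ℕ) (m : ℤ) (l : ℕ) :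
    poch (sg R.N j + b / 2) l * ‖R.B j m l‖ ≤
      R.KB j * ((l.factorial : ℝ) * ((l : ℝ) + 1) ^ ((R.N + b) / 2)) := by
  have hN := R.hN
  have hj : (0 : ℝ) ≤ j := Nat.cast_nonneg j
  have hb : (0 : ℝ) ≤ b := Nat.cast_nonneg b
  have ha : 2 ≤ sg R.N j + b / 2 := by unfold sg; linarith
  have h1 := poch_le ha l
  have h2 := R.B_bd j m l
  have hl : (0 : ℝ) < (l : ℝ) + 1 := by positivity
  have h3 := R.KB_nonneg j
  calc poch (sg R.N j + b / 2) l * ‖R.B j m l‖ ≤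
      ((l.factorial : ℝ) * ((l : ℝ) + 1) ^ (sg R.N j + b / 2 - 1)) *
        (R.KB j / ((l : ℝ) + 1) ^ (j + 2)) := by
        have := poch_pos (by linarith : 0 < sg R.N j + b / 2) l
        gcongr
    _ = R.KB j * ((l.factorial : ℝ) * (((l : ℝ) + 1) ^ (sg R.N j + b / 2 - 1) /
        ((l : ℝ) + 1) ^ (j + 2))) := by ring
    _ = _ := by
        rw [← Real.rpow_natCast ((l : ℝ) + 1) (j + 2), ← Real.rpow_sub hl]
        congr 3
        unfold sg
        push_cast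
        ring

theorem Eop_eq (ε : ℤ) : R.Eop ε = EE R.D ε := rfl

/-- iterated raising -/
theorem raise_pow (j b : ℕ) (ε : ℤ) (hε : ε = 1 ∨ ε = -1) (u v : V)
    (hv : R.D Wmat v = (Complex.I * ((ε * b : ℤ) : ℂ)) • v)
    (hu : R.ι u = R.B j (ε * b) 0 (R.ι v)) (l : ℕ) :
    R.ι ((EE R.D ε ^ l) u) =
      ((poch (sg R.N j + b / 2) l : ℝ) : ℂ) • R.B j (ε * (b + 2 * l)) l (R.ι v) := by
  induction l with
  | zero =>
    rw [poch_zero, Complex.ofReal_one, one_smul]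
    simpa using hu
  | succ l ih =>
    rw [pow_succ', Module.End.mul_apply]
    have h1 := R.raise (sg R.N j) (sg_cond R.N j) b l ε hε
      (((poch (sg R.N j + b / 2) l : ℝ) : ℂ) • v) ((EE R.D ε ^ l) u)
      (by rw [map_smul, hv, smul_comm]) (by
        rw [ih, map_smul, map_smul]
        rfl)
    rw [Eop_eq] at h1
    rw [h1, map_smul, map_smul, smul_smul, poch_succ]
    congr 1
    rw [← Complex.ofReal_mul]
    congr 1
    ring

/-- iterated lowering -/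
theorem lower_pow (hD : IsRep R.D) (j b : ℕ) (ε : ℤ) (hε : ε = 1 ∨ ε = -1) (l : ℕ) (v : V)
    (hv : R.D Wmat v = (Complex.I * ((ε * (b + 2 * l) : ℤ) : ℂ)) • v) :
    R.B j (ε * b) 0 (R.ι ((EE R.D (-ε) ^ l) v)) =
      ((poch (sg R.N j + b / 2) l : ℝ) : ℂ) • R.B j (ε * b) l (R.ι v) := by
  induction l generalizing v with
  | zero =>
    rw [poch_zero, Complex.ofReal_one, one_smul]
    rfl
  | succ l ih =>
    rw [pow_succ, Module.End.mul_apply]
    have hw : R.D Wmat (EE R.D (-ε) v) =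
        (Complex.I * ((ε * (b + 2 * l) : ℤ) : ℂ)) • EE R.D (-ε) v := by
      rw [hD.W_EE (-ε) (by rcases hε with rfl | rfl <;> simp) _ v hv]
      congr 3
      push_cast
      ring
    rw [ih _ hw]
    have h1 := R.lower (sg R.N j) (sg_cond R.N j) b l ε hε v (by
      rw [hv]
      congr 3)
    rw [Eop_eq] at h1
    unfold B
    rw [h1, smul_smul, poch_succ, ← Complex.ofReal_mul]
    congr 2
    ring

/-- The operators `(σ - 1) B_0` converge to the identity. -/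
theorem approx (j : ℕ) (m : ℤ) (v : V)
    (hv : ∀ θ : ℝ, R.ρ (rot θ) (R.ι v) = Complex.exp (Complex.I * m * θ) • R.ι v)
    {η : ℝ} (hη : 0 < η) :
    ‖((sg R.N j - 1 : ℝ) : ℂ) • R.B j m 0 (R.ι v) - R.ι v‖ ≤
      R.C ^ 2 * 2 ^ R.N * (R.N / 2 + 1) * (1 / 2 * (η + η⁻¹ * (1 / ((j : ℝ) + 1)))) *
        ‖R.ι (R.D Hmat v)‖ := by
  have hN := R.hN
  have hj : (0 : ℝ) ≤ j := Nat.cast_nonneg j
  have hσ : 1 < sg R.N j := by unfold sg; linarith
  obtain ⟨i1, e1⟩ := mu_zero_int hσ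
  have hT0 : R.T m 0 v = R.ι v := by
    unfold T
    rw [dia_zero, R.one_apply, R.P_self m _ hv]
  have hTb : ∀ t, 0 ≤ t → ‖R.T m t v - R.ι v‖ ≤
      R.C ^ 2 * Real.exp (R.N * t) * ‖R.ι (R.D Hmat v)‖ * t := by
    intro t ht
    have h := norm_image_sub_le_of_norm_deriv_le_segment' (f := fun t => R.T m t v)
      (f' := fun t => R.T m t (R.D Hmat v)) (a := 0) (b := t)
      (C := R.C ^ 2 * Real.exp (R.N * t) * ‖R.ι (R.D Hmat v)‖)
      (fun x _ => (R.der_T m x v).hasDerivWithinAt) (fun x hx => by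
        refine (R.T_norm m hx.1 _).trans ?_
        have : Real.exp (R.N * x) ≤ Real.exp (R.N * t) :=
          Real.exp_le_exp.2 (mul_le_mul_of_nonneg_left hx.2.le hN)
        gcongr) t ⟨ht, le_refl t⟩
    rw [hT0, sub_zero] at h
    exact h
  have iT : Integrable (fun t => ((mu (sg R.N j) 0 t : ℝ) : ℂ) • R.T m t v)
      (volume.restrict (Ioi 0)) :=
    R.int_y (R.cont_T m v) ⟨R.C ^ 2 * ‖R.ι v‖, by positivity, fun t ht => R.T_H_bd m ht v⟩
      _ (sg_cond R.N j) 0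
  have ic : Integrable (fun t => ((mu (sg R.N j) 0 t : ℝ) : ℂ) • R.ι v)
      (volume.restrict (Ioi 0)) := (i1.ofReal (𝕜 := ℂ)).smul_const _
  have hs1 : sg R.N j - 1 ≠ 0 := by linarith
  have key : ((sg R.N j - 1 : ℝ) : ℂ) • R.B j m 0 (R.ι v) - R.ι v =
      ((sg R.N j - 1 : ℝ) : ℂ) • ∫ t in Ioi 0, ((mu (sg R.N j) 0 t : ℝ) : ℂ) •
        (R.T m t v - R.ι v) := by
    have h1 : ∫ t in Ioi 0, ((mu (sg R.N j) 0 t : ℝ) : ℂ) • R.ι v =
        (((sg R.N j - 1)⁻¹ : ℝ) : ℂ) • R.ι v := by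
      rw [integral_smul_const, integral_complex_ofReal, e1]
    simp only [smul_sub]
    rw [integral_sub iT ic, h1, smul_sub, smul_smul, ← Complex.ofReal_mul, mul_inv_cancel₀ hs1,
      Complex.ofReal_one, one_smul]
    rfl
  obtain ⟨iI, eI⟩ := mu_t_int_le hN j hη
  rw [key, norm_smul, Complex.norm_real, Real.norm_of_nonneg (by linarith)]
  have h2 : ‖∫ t in Ioi 0, ((mu (sg R.N j) 0 t : ℝ) : ℂ) • (R.T m t v - R.ι v)‖ ≤
      ∫ t in Ioi 0, (R.C ^ 2 * ‖R.ι (R.D Hmat v)‖) *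
        (mu (sg R.N j) 0 t * Real.exp (R.N * t) * t) := by
    refine norm_integral_le_of_norm_le (iI.const_mul _) ?_
    refine (ae_restrict_mem measurableSet_Ioi).mono fun t ht => ?_
    have ht0 : 0 ≤ t := le_of_lt ht
    have hm := mu_nonneg (sg R.N j) 0 ht0
    rw [norm_smul, Complex.norm_real, Real.norm_of_nonneg hm]
    calc mu (sg R.N j) 0 t * ‖R.T m t v - R.ι v‖ ≤ mu (sg R.N j) 0 t *
          (R.C ^ 2 * Real.exp (R.N * t) * ‖R.ι (R.D Hmat v)‖ * t) := by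
          have := hTb t ht0
          gcongr
      _ = _ := by ring
  rw [integral_const_mul] at h2
  have hsg : sg R.N j - 1 ≤ (R.N / 2 + 1) * ((j : ℝ) + 2) := by
    unfold sg
    nlinarith
  have hη' : 0 < η⁻¹ := inv_pos.2 hη
  calc (sg R.N j - 1) * ‖∫ t in Ioi 0, ((mu (sg R.N j) 0 t : ℝ) : ℂ) • (R.T m t v - R.ι v)‖ ≤
      ((R.N / 2 + 1) * ((j : ℝ) + 2)) * ((R.C ^ 2 * ‖R.ι (R.D Hmat v)‖) *
        (2 ^ R.N * (1 / 2 * (η * (1 / ((j : ℝ) + 2)) +
          η⁻¹ * (1 / (((j : ℝ) + 1) * ((j : ℝ) + 2))))))) := by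
        have h3 : 0 ≤ R.C ^ 2 * ‖R.ι (R.D Hmat v)‖ := by positivity
        have h4 := h2.trans (mul_le_mul_of_nonneg_left eI h3)
        gcongr
    _ = _ := by
        have h5 : (j : ℝ) + 2 ≠ 0 := by positivity
        have h6 : (j : ℝ) + 1 ≠ 0 := by positivity
        field_simp

end Fac

end Pool.Agent.SGap
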