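import Pool.Agent.Lib.MP_496a9e_al.Defs

/-!
# One-parameter subgroups of `SL(2,ℝ)` and of `SL(2,ℝ)^r`
-/

namespace Pool.Agent.SGap

open Matrix

/-- the group `SL(2,ℝ)` -/
abbrev SL : Type := SpecialLinearGroup (Fin 2) ℝ

/-- `diag(1,-1)` -/
def Hmat : sl2 := ⟨!![1, 0; 0, -1], by simp [mem_sl2, Matrix.trace_fin_two]⟩

/-- `(0,1;1,0)` -/
def Xmat : sl2 := ⟨!![0, 1; 1, 0], by simp [mem_sl2, Matrix.trace_fin_two]⟩

theorem coe_H : (Hmat : Matrix (Fin 2) (Fin 2) ℝ) = !![1, 0; 0, -1] := rfl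
theorem coe_X : (Xmat : Matrix (Fin 2) (Fin 2) ℝ) = !![0, 1; 1, 0] := rfl
theorem coe_W : (Wmat : Matrix (Fin 2) (Fin 2) ℝ) = !![0, 1; -1, 0] := rfl

/-- `(cosh u, sinh u; sinh u, cosh u)` -/
noncomputable def hyp (u : ℝ) : SL :=
  ⟨!![Real.cosh u, Real.sinh u; Real.sinh u, Real.cosh u], by
    rw [Matrix.det_fin_two_of]; nlinarith [Real.cosh_sq u]⟩

theorem coe_hyp (u : ℝ) : (hyp u : Matrix (Fin 2) (Fin 2) ℝ) =
    !![Real.cosh u, Real.sinh u; Real.sinh u, Real.cosh u] := rfl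

theorem hyp_add (s t : ℝ) : hyp (s + t) = hyp s * hyp t := by
  apply coe_ext
  rw [coe_mul', coe_hyp, coe_hyp, coe_hyp]
  simp only [Matrix.mul_fin_two, Real.cosh_add, Real.sinh_add]
  ext i j
  fin_cases i <;> fin_cases j <;> simp <;> ring

theorem dia_add (s t : ℝ) : dia (s + t) = dia s * dia t := by
  apply coe_ext
  rw [coe_mul', coe_dia, coe_dia, coe_dia]
  simp only [Matrix.mul_fin_two]
  ext i j
  fin_cases i <;> fin_cases j <;> simp [Real.exp_add, mul_comm]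

theorem dia_zero : dia 0 = 1 := by
  apply coe_ext
  rw [coe_dia]
  ext i j
  fin_cases i <;> fin_cases j <;> simp

theorem dia_inv (s : ℝ) : (dia s)⁻¹ = dia (-s) := by
  rw [inv_eq_iff_mul_eq_one, ← dia_add, add_neg_cancel, dia_zero]

theorem rot_two_pi : rot (2 * Real.pi) = 1 := by
  apply coe_ext
  rw [coe_rot]
  ext i j
  fin_cases i <;> fin_cases j <;> simp

/-- one-parameter subgroups of `SL(2,ℝ)` with derivative `Z` at `0` -/
def One1 (γ : ℝ → SL) (Z : sl2) : Prop :=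
  (∀ s t, γ (s + t) = γ s * γ t) ∧
  ∀ j k : Fin 2, HasDerivAt (fun t => (γ t : Matrix (Fin 2) (Fin 2) ℝ) j k)
    ((Z : Matrix (Fin 2) (Fin 2) ℝ) j k) 0

theorem One1.zero {γ : ℝ → SL} {Z : sl2} (h : One1 γ Z) : γ 0 = 1 := by
  have := h.1 0 0
  rw [add_zero] at this
  exact (mul_eq_left.1 this.symm)

theorem one1_dia : One1 dia Hmat := by
  refine ⟨dia_add, ?_⟩
  intro j k
  fin_cases j <;> fin_cases k
  · simpa [coe_dia, coe_H] using Real.hasDerivAt_exp 0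
  · simpa [coe_dia, coe_H] using hasDerivAt_const (0 : ℝ) (0 : ℝ)
  · simpa [coe_dia, coe_H] using hasDerivAt_const (0 : ℝ) (0 : ℝ)
  · have := (Real.hasDerivAt_exp (-(0:ℝ))).comp (0:ℝ) (hasDerivAt_neg (0:ℝ))
    simpa [coe_dia, coe_H, Function.comp_def] using this

theorem one1_rot : One1 rot Wmat := by
  refine ⟨rot_add, ?_⟩
  intro j k
  fin_cases j <;> fin_cases k
  · simpa [coe_rot, coe_W] using Real.hasDerivAt_cos 0
  · simpa [coe_rot, coe_W] using Real.hasDerivAt_sin 0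
  · have h := (Real.hasDerivAt_sin 0).neg
    rw [Real.cos_zero] at h
    exact h
  · simpa [coe_rot, coe_W] using Real.hasDerivAt_cos 0

theorem one1_hyp : One1 hyp Xmat := by
  refine ⟨hyp_add, ?_⟩
  intro j k
  fin_cases j <;> fin_cases k
  · simpa [coe_hyp, coe_X] using Real.hasDerivAt_cosh 0
  · simpa [coe_hyp, coe_X] using Real.hasDerivAt_sinh 0
  · simpa [coe_hyp, coe_X] using Real.hasDerivAt_sinh 0
  · simpa [coe_hyp, coe_X] using Real.hasDerivAt_cosh 0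

/-- the adjoint action of `SL(2,ℝ)` -/
def Ad1 (g : SL) (Z : sl2) : sl2 :=
  ⟨(g : Matrix (Fin 2) (Fin 2) ℝ) * (Z : Matrix (Fin 2) (Fin 2) ℝ) *
    ((g⁻¹ : SL) : Matrix (Fin 2) (Fin 2) ℝ), by
    have h : ((g⁻¹ : SL) : Matrix (Fin 2) (Fin 2) ℝ) * (g : Matrix (Fin 2) (Fin 2) ℝ) = 1 := by
      rw [← coe_mul', inv_mul_cancel]
      rfl
    rw [mem_sl2, Matrix.trace_mul_comm, ← Matrix.mul_assoc, h, Matrix.one_mul]
    exact (mem_sl2 _).1 Z.2⟩

theorem coe_Ad1 (g : SL) (Z : sl2) : (Ad1 g Z : Matrix (Fin 2) (Fin 2) ℝ) =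
    (g : Matrix (Fin 2) (Fin 2) ℝ) * (Z : Matrix (Fin 2) (Fin 2) ℝ) *
    ((g⁻¹ : SL) : Matrix (Fin 2) (Fin 2) ℝ) := rfl

theorem One1.conj {γ : ℝ → SL} {Z : sl2} (h : One1 γ Z) (g : SL) :
    One1 (fun u => g * γ u * g⁻¹) (Ad1 g Z) := by
  refine ⟨fun s t => by simp only [h.1]; group, ?_⟩
  intro j k
  have h1 : ∀ u, ((g * γ u * g⁻¹ : SL) : Matrix (Fin 2) (Fin 2) ℝ) =
      (g : Matrix (Fin 2) (Fin 2) ℝ) * (γ u : Matrix (Fin 2) (Fin 2) ℝ) *
        ((g⁻¹ : SL) : Matrix (Fin 2) (Fin 2) ℝ) := fun u => by rw [coe_mul', coe_mul']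
  simp only [h1, coe_Ad1, Matrix.mul_apply, Fin.sum_univ_two]
  exact ((((h.2 0 0).const_mul _).add ((h.2 1 0).const_mul _)).mul_const _).add
    ((((h.2 0 1).const_mul _).add ((h.2 1 1).const_mul _)).mul_const _)

theorem ad_dia_H (t : ℝ) : Ad1 (dia t)⁻¹ Hmat = Hmat := by
  apply Subtype.ext
  rw [coe_Ad1, inv_inv, dia_inv, coe_H, coe_dia, coe_dia, Matrix.mul_fin_two, Matrix.mul_fin_two]
  ext i j
  fin_cases i <;> fin_cases j <;> simp [← Real.exp_add]

theorem ad_dia_X (t : ℝ) : Ad1 (dia t)⁻¹ Xmat =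
    Real.cosh (2 * t) • Xmat - Real.sinh (2 * t) • Wmat := by
  apply Subtype.ext
  rw [coe_Ad1, inv_inv, dia_inv, Submodule.coe_sub, Submodule.coe_smul, Submodule.coe_smul, coe_X,
    coe_W, coe_dia, coe_dia, Matrix.mul_fin_two, Matrix.mul_fin_two]
  ext i j
  fin_cases i <;> fin_cases j <;>
    simp [← Real.exp_add, Real.cosh_eq, Real.sinh_eq, two_mul] <;> ring

theorem ad_dia_W (t : ℝ) : Ad1 (dia t)⁻¹ Wmat =
    Real.cosh (2 * t) • Wmat - Real.sinh (2 * t) • Xmat := by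
  apply Subtype.ext
  rw [coe_Ad1, inv_inv, dia_inv, Submodule.coe_sub, Submodule.coe_smul, Submodule.coe_smul, coe_X,
    coe_W, coe_dia, coe_dia, Matrix.mul_fin_two, Matrix.mul_fin_two]
  ext i j
  fin_cases i <;> fin_cases j <;>
    simp [← Real.exp_add, Real.cosh_eq, Real.sinh_eq, two_mul] <;> ring

theorem ad_rot_H (t : ℝ) : Ad1 (rot t)⁻¹ Hmat =
    Real.cos (2 * t) • Hmat + Real.sin (2 * t) • Xmat := by
  apply Subtype.ext
  rw [coe_Ad1, inv_inv, rot_inv, Submodule.coe_add, Submodule.coe_smul, Submodule.coe_smul, coe_X,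
    coe_H, coe_rot, coe_rot, Matrix.mul_fin_two, Matrix.mul_fin_two]
  have := Real.sin_sq_add_cos_sq t
  ext i j
  fin_cases i <;> fin_cases j <;>
    simp [Real.cos_two_mul, Real.sin_two_mul] <;> nlinarith

theorem ad_rot_X (t : ℝ) : Ad1 (rot t)⁻¹ Xmat =
    Real.cos (2 * t) • Xmat - Real.sin (2 * t) • Hmat := by
  apply Subtype.ext
  rw [coe_Ad1, inv_inv, rot_inv, Submodule.coe_sub, Submodule.coe_smul, Submodule.coe_smul, coe_X,
    coe_H, coe_rot, coe_rot, Matrix.mul_fin_two, Matrix.mul_fin_two]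
  have := Real.sin_sq_add_cos_sq t
  ext i j
  fin_cases i <;> fin_cases j <;>
    simp [Real.cos_two_mul, Real.sin_two_mul] <;> nlinarith

/-- a one-parameter subgroup of one factor gives one of the product. -/
theorem One1.single {r : ℕ} {γ : ℝ → SL} {Z : sl2} (h : One1 γ Z) (i : Fin r) :
    OneParam (fun u => (Pi.mulSingle i (γ u) : G r)) (Pi.single i Z) := by
  refine ⟨fun s t => by simp only [h.1, Pi.mulSingle_mul], ?_⟩
  intro j a b
  by_cases hj : j = i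
  · subst hj
    simpa using h.2 a b
  · have h1 : ∀ u, (Pi.mulSingle i (γ u) : G r) j = 1 := fun u => Pi.mulSingle_eq_of_ne hj _
    have h2 : (Pi.single i Z : LieG r) j = 0 := Pi.single_eq_of_ne hj _
    simp only [h1, h2]
    simpa using hasDerivAt_const (0 : ℝ) (((1 : SL) : Matrix (Fin 2) (Fin 2) ℝ) a b)

theorem continuous_rot : Continuous rot := by
  refine Continuous.subtype_mk ?_ _
  refine continuous_matrix ?_
  intro i j
  fin_cases i <;> fin_cases j <;> simp <;> fun_prop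

theorem continuous_dia : Continuous dia := by
  refine Continuous.subtype_mk ?_ _
  refine continuous_matrix ?_
  intro i j
  fin_cases i <;> fin_cases j <;> simp <;> fun_prop

end Pool.Agent.SGap
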