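import Pool.Agent.Lib.MP_496a9e_al.Trans

/-!
# The operators `A_l = ∫ mu_l(t) P m ρ(dia t) dt`, raising and lowering
-/

namespace Pool.Agent.SGap

open MeasureTheory Topology Filter Set

variable {V E : Type*} [AddCommGroup V] [Module ℂ V] [NormedAddCommGroup E]
    [NormedSpace ℂ E] (R : Fac V E)

set_option linter.unusedSectionVars false

theorem integrable_smul [CompleteSpace E] {f : ℝ → ℝ} {g : ℝ → E} {σ K c c' : ℝ}
    (hc : 0 ≤ c) (hc' : 0 ≤ c') (h : K < 2 * σ - 2) (hσ : 1 ≤ σ)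
    (hf : Continuous f) (hg : Continuous g)
    (hfb : ∀ t, 0 ≤ t → |f t| ≤ c * Real.cosh t ^ (2 - 2 * σ))
    (hgb : ∀ t, 0 ≤ t → ‖g t‖ ≤ c' * Real.exp (K * t)) :
    Integrable (fun t => (f t : ℂ) • g t) (volume.restrict (Ioi 0)) := by
  refine integrable_of_bound (mul_nonneg hc hc') h hσ
    ((Complex.continuous_ofReal.comp hf).smul hg).aestronglyMeasurable ?_
  intro t ht
  rw [norm_smul, Complex.norm_real, Real.norm_eq_abs]
  calc |f t| * ‖g t‖ ≤ (c * Real.cosh t ^ (2 - 2 * σ)) * (c' * Real.exp (K * t)) := by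
        have h1 := hfb t ht
        have h2 := hgb t ht
        have h3 := (abs_nonneg (f t)).trans h1
        gcongr
    _ = _ := by ring

namespace Fac

variable [CompleteSpace E]

/-- `(D H + i ε D X) / 2` -/
noncomputable def Eop (ε : ℤ) : V →ₗ[ℂ] V :=
  (1 / 2 : ℂ) • (R.D Hmat + (Complex.I * ε) • R.D Xmat)

theorem Eop_apply (ε : ℤ) (v : V) : R.Eop ε v =
    (1 / 2 : ℂ) • (R.D Hmat v + (Complex.I * ε) • R.D Xmat v) := rfl

/-- the bound function of `A` -/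
theorem bound_int (σ : ℝ) (l : ℕ) (hσ : R.N + 2 < 2 * σ - 2) :
    Integrable (fun t => mu σ l t * (R.C ^ 2 * Real.exp (R.N * t))) (volume.restrict (Ioi 0)) := by
  have hN := R.hN
  refine integrable_of_bound (c := 2 * R.C ^ 2) (K := R.N) (σ := σ) (by positivity) (by linarith)
    (by linarith) ?_ ?_
  · have := continuous_mu σ l
    exact (by fun_prop : Continuous fun t => mu σ l t * (R.C ^ 2 *
      Real.exp (R.N * t))).aestronglyMeasurable
  · intro t ht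
    rw [Real.norm_eq_abs, abs_mul, abs_of_nonneg (by positivity :
      (0:ℝ) ≤ R.C ^ 2 * Real.exp (R.N * t))]
    have := mu_le σ l ht
    calc |mu σ l t| * (R.C ^ 2 * Real.exp (R.N * t)) ≤
        (2 * Real.cosh t ^ (2 - 2 * σ)) * (R.C ^ 2 * Real.exp (R.N * t)) := by gcongr
      _ = _ := by ring

theorem integrand_bd (σ : ℝ) (m : ℤ) (l : ℕ) :
    ∀ᵐ t ∂(volume.restrict (Ioi (0:ℝ))), ‖((mu σ l t : ℝ) : ℂ) • (R.P m ∘L R.ρ (dia t))‖ ≤
      mu σ l t * (R.C ^ 2 * Real.exp (R.N * t)) := by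
  refine (ae_restrict_mem measurableSet_Ioi).mono fun t ht => ?_
  have ht' : 0 ≤ t := le_of_lt ht
  rw [norm_smul, Complex.norm_real, Real.norm_of_nonneg (mu_nonneg σ l ht')]
  refine mul_le_mul_of_nonneg_left ?_ (mu_nonneg σ l ht')
  refine (ContinuousLinearMap.opNorm_comp_le _ _).trans ?_
  calc ‖R.P m‖ * ‖R.ρ (dia t)‖ ≤ R.C * (R.C * Real.exp (R.N * t)) := by
        have h1 := R.P_norm m
        have h2 := R.bd_dia t ht'
        have h3 := R.C_nonneg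
        gcongr
    _ = _ := by ring

theorem integrand_cont (σ : ℝ) (m : ℤ) (l : ℕ) (x : E) :
    Continuous (fun t => (((mu σ l t : ℝ) : ℂ) • (R.P m ∘L R.ρ (dia t))) x) := by
  have h1 : Continuous fun t => ((mu σ l t : ℝ) : ℂ) :=
    Complex.continuous_ofReal.comp (continuous_mu σ l)
  have h2 : Continuous fun t => R.P m (R.ρ (dia t) x) :=
    (R.P m).continuous.comp ((R.cont x).comp continuous_dia)
  exact h1.smul h2

/-- The operator `∫ mu σ l t P m ρ(dia t) dt`. -/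
noncomputable def A (σ : ℝ) (hσ : R.N + 2 < 2 * σ - 2) (m : ℤ) (l : ℕ) : E →L[ℂ] E :=
  opInt (volume.restrict (Ioi 0)) (fun t => ((mu σ l t : ℝ) : ℂ) • (R.P m ∘L R.ρ (dia t)))
    (fun t => mu σ l t * (R.C ^ 2 * Real.exp (R.N * t))) (R.bound_int σ l hσ)
    (R.integrand_bd σ m l) (fun x => (R.integrand_cont σ m l x).aestronglyMeasurable)

theorem A_apply (σ : ℝ) (hσ : R.N + 2 < 2 * σ - 2) (m : ℤ) (l : ℕ) (v : V) :
    R.A σ hσ m l (R.ι v) = ∫ t in Ioi 0, ((mu σ l t : ℝ) : ℂ) • R.T m t v := rfl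

theorem A_apply' (σ : ℝ) (hσ : R.N + 2 < 2 * σ - 2) (m : ℤ) (l : ℕ) (x : E) :
    R.A σ hσ m l x = ∫ t in Ioi 0, ((mu σ l t : ℝ) : ℂ) • R.P m (R.ρ (dia t) x) := rfl

theorem A_norm (σ : ℝ) (hσ : R.N + 2 < 2 * σ - 2) (m : ℤ) (l : ℕ) :
    ‖R.A σ hσ m l‖ ≤ R.C ^ 2 * ∫ t in Ioi 0, mu σ l t * Real.exp (R.N * t) := by
  refine (opInt_norm _ _ _).trans (le_of_eq ?_)
  rw [← integral_const_mul]
  refine integral_congr_ae (Eventually.of_forall fun t => ?_)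
  simp only
  ring

theorem A_comm (σ : ℝ) (hσ : R.N + 2 < 2 * σ - 2) (m : ℤ) (l : ℕ) (B : E →L[ℂ] E)
    (hB : ∀ g x, B (R.ρ g x) = R.ρ g (B x)) (x : E) :
    B (R.A σ hσ m l x) = R.A σ hσ m l (B x) := by
  refine opInt_comm _ _ _ B (fun t x => ?_) x
  simp only [_root_.smul_apply, map_smul, ContinuousLinearMap.comp_apply]
  rw [R.P_comm m B (fun θ x => hB _ x), hB]

theorem A_rot (σ : ℝ) (hσ : R.N + 2 < 2 * σ - 2) (m : ℤ) (l : ℕ) (φ : ℝ) (x : E) :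
    R.ρ (rot φ) (R.A σ hσ m l x) = Complex.exp (Complex.I * m * φ) • R.A σ hσ m l x := by
  have hi : Integrable (fun t => ((mu σ l t : ℝ) : ℂ) • R.P m (R.ρ (dia t) x))
      (volume.restrict (Ioi 0)) :=
    opInt_integrable (R.bound_int σ l hσ) (R.integrand_bd σ m l)
      (fun x => (R.integrand_cont σ m l x).aestronglyMeasurable) x
  rw [A_apply', ← ContinuousLinearMap.integral_comp_comm _ hi, ← integral_smul]
  refine integral_congr_ae (Eventually.of_forall fun t => ?_)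
  simp only
  rw [map_smul, rot_P, smul_comm]

theorem T_int (f : ℝ → ℝ) {c : ℝ} (hc : 0 ≤ c) (σ : ℝ) (hσ : R.N + 2 < 2 * σ - 2)
    (hf : Continuous f) (hfb : ∀ t, 0 ≤ t → |f t| ≤ c * Real.cosh t ^ (2 - 2 * σ)) (m : ℤ) (v : V) :
    Integrable (fun t => (f t : ℂ) • R.T m t v) (volume.restrict (Ioi 0)) := by
  have hN := R.hN
  refine integrable_smul (K := R.N) (c' := R.C ^ 2 * ‖R.ι v‖) hc (by positivity) (by linarith)
    (by linarith) hf (R.cont_T m v) hfb ?_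
  intro t ht
  refine (R.T_norm m ht v).trans (le_of_eq (by ring))

theorem mu'_bd (σ : ℝ) (l : ℕ) : ∀ t : ℝ, 0 ≤ t → |mu' σ l t| ≤
    (2 * (|(l:ℝ) + 1| + |1 - 2 * σ - l|)) * Real.cosh t ^ (2 - 2 * σ) := by
  intro t ht
  exact two_term_bound σ ((l:ℝ) + 1) (1 - 2 * σ - l) l ht

theorem kmu_bd (σ b : ℝ) (l : ℕ) : ∀ t : ℝ, 0 ≤ t → |kmu σ b l t| ≤
    (2 * (|(l:ℝ) + 1| + |b + l + 1|)) * Real.cosh t ^ (2 - 2 * σ) := by
  intro t ht
  exact two_term_bound σ ((l:ℝ) + 1) (b + l + 1) l ht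

theorem tendsto_muT (σ : ℝ) (hσ : R.N + 2 < 2 * σ - 2) (m : ℤ) (l : ℕ) (v : V) :
    Tendsto (fun t => ((mu σ l t : ℝ) : ℂ) • R.T m t v) atTop (𝓝 0) := by
  have hN := R.hN
  have h1 : Tendsto (fun t : ℝ => (2 * 2 ^ (2 * σ - 2) * (R.C ^ 2 * ‖R.ι v‖)) *
      Real.exp (-((2 * σ - 2 - R.N) * t))) atTop (𝓝 0) := by
    have h2 : Tendsto (fun t : ℝ => (2 * σ - 2 - R.N) * t) atTop atTop :=
      tendsto_id.const_mul_atTop (by linarith)
    have h3 := Real.tendsto_exp_neg_atTop_nhds_zero.comp h2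
    simpa using h3.const_mul (2 * 2 ^ (2 * σ - 2) * (R.C ^ 2 * ‖R.ι v‖))
  refine squeeze_zero_norm' ?_ h1
  filter_upwards [eventually_ge_atTop 0] with t ht
  rw [norm_smul, Complex.norm_real, Real.norm_eq_abs]
  have a1 := mu_le σ l ht
  have a2 := R.T_norm m ht v
  have a3 := cosh_rpow_le (s := 2 * σ - 2) (by linarith) t
  rw [show -(2 * σ - 2) = 2 - 2 * σ by ring] at a3
  calc |mu σ l t| * ‖R.T m t v‖ ≤ (2 * (2 ^ (2 * σ - 2) * Real.exp (-((2 * σ - 2) * t)))) *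
        (R.C ^ 2 * Real.exp (R.N * t) * ‖R.ι v‖) := by
        have : |mu σ l t| ≤ 2 * (2 ^ (2 * σ - 2) * Real.exp (-((2 * σ - 2) * t))) := by linarith
        gcongr
    _ = (2 * 2 ^ (2 * σ - 2) * (R.C ^ 2 * ‖R.ι v‖)) *
        (Real.exp (-((2 * σ - 2) * t)) * Real.exp (R.N * t)) := by ring
    _ = _ := by
        rw [← Real.exp_add]
        congr 2
        ring

theorem ibp (σ : ℝ) (hσ : R.N + 2 < 2 * σ - 2) (m : ℤ) (l : ℕ) (v : V) :
    ∫ t in Ioi 0, (((mu' σ l t : ℝ) : ℂ) • R.T m t v + ((mu σ l t : ℝ) : ℂ) •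
      R.T m t (R.D Hmat v)) = 0 := by
  have h0 : (((mu σ l 0 : ℝ) : ℂ) • R.T m 0 v) = 0 := by
    unfold mu
    simp
  have key := integral_Ioi_of_hasDerivAt_of_tendsto' (a := (0 : ℝ)) (m := (0 : E))
    (f := fun t => ((mu σ l t : ℝ) : ℂ) • R.T m t v)
    (f' := fun t => ((mu' σ l t : ℝ) : ℂ) • R.T m t v + ((mu σ l t : ℝ) : ℂ) •
      R.T m t (R.D Hmat v)) ?_ ?_ (R.tendsto_muT σ hσ m l v)
  · rw [key, h0, sub_zero]
  · intro t _
    have h1 := (hasDerivAt_mu σ l t).ofReal_comp.smul (R.der_T m t v)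
    rw [add_comm] at h1
    exact h1
  · exact (R.T_int _ (by positivity) σ hσ (continuous_mu' σ l) (mu'_bd σ l) m v).add
      (R.T_int _ (by norm_num : (0:ℝ) ≤ 2) σ hσ (continuous_mu σ l) (fun t ht => mu_le σ l ht) m _)

theorem ibp2 (σ : ℝ) (hσ : R.N + 2 < 2 * σ - 2) (m : ℤ) (l : ℕ) (b : ℝ) (v : V) :
    ∫ t in Ioi 0, (1 / 2 : ℂ) • (((mu σ l t : ℝ) : ℂ) • R.T m t (R.D Hmat v) +
        ((kmu σ b l t : ℝ) : ℂ) • R.T m t v) =
      (((b + 2 * l + 2 * σ) / 2 : ℝ) : ℂ) • R.A σ hσ m (l + 1) (R.ι v) := by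
  have e : ∀ t, (1 / 2 : ℂ) • (((mu σ l t : ℝ) : ℂ) • R.T m t (R.D Hmat v) +
        ((kmu σ b l t : ℝ) : ℂ) • R.T m t v) =
      (1 / 2 : ℂ) • (((mu' σ l t : ℝ) : ℂ) • R.T m t v + ((mu σ l t : ℝ) : ℂ) •
        R.T m t (R.D Hmat v)) +
      (((b + 2 * l + 2 * σ) / 2 : ℝ) : ℂ) • (((mu σ (l + 1) t : ℝ) : ℂ) • R.T m t v) := by
    intro t
    have h := kmu_sub σ b l t
    have h2 : kmu σ b l t = mu' σ l t + (b + 2 * l + 2 * σ) * mu σ (l + 1) t := by linarith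
    rw [h2]
    push_cast
    module
  simp only [e]
  have i1 := (R.T_int _ (by positivity) σ hσ (continuous_mu' σ l) (mu'_bd σ l) m v).add
      (R.T_int _ (by norm_num : (0:ℝ) ≤ 2) σ hσ (continuous_mu σ l) (fun t ht => mu_le σ l ht) m
        (R.D Hmat v))
  have i2 := R.T_int _ (by norm_num : (0:ℝ) ≤ 2) σ hσ (continuous_mu σ (l + 1))
    (fun t ht => mu_le σ (l + 1) ht) m v
  rw [integral_add (f := fun t => (1 / 2 : ℂ) • (((mu' σ l t : ℝ) : ℂ) • R.T m t v +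
      ((mu σ l t : ℝ) : ℂ) • R.T m t (R.D Hmat v)))
    (g := fun t => (((b + 2 * l + 2 * σ) / 2 : ℝ) : ℂ) • (((mu σ (l + 1) t : ℝ) : ℂ) • R.T m t v))
    (i1.smul (1 / 2 : ℂ)) (i2.smul _), integral_smul, integral_smul]
  have := R.ibp σ hσ m l v
  rw [this, smul_zero, zero_add, A_apply]

/-- the scalar identity behind raising and lowering -/
theorem kmu_div (σ b : ℝ) (l : ℕ) {t : ℝ} (ht : 0 < t) :
    mu σ l t * (((b + 2 * l + 2) * Real.cosh (2 * t) - b) / Real.sinh (2 * t)) = kmu σ b l t := by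
  have hs : Real.sinh (2 * t) ≠ 0 := (Real.sinh_pos_iff.2 (by linarith)).ne'
  have := kmu_eq σ b l t
  field_simp
  linarith

theorem XR' (m n : ℤ) {t : ℝ} (ht : 0 < t) (v : V) (hv : R.D Wmat v = (Complex.I * n) • v) :
    R.T m t (R.D Xmat v) =
      (Complex.I * (((n * Real.cosh (2 * t) - m) / Real.sinh (2 * t) : ℝ) : ℂ)) • R.T m t v := by
  have hs : (Real.sinh (2 * t) : ℂ) ≠ 0 := by
    exact_mod_cast (Real.sinh_pos_iff.2 (by linarith : 0 < 2 * t)).ne'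
  have h := R.XR m n t v hv
  have h2 : R.T m t (R.D Xmat v) = (Real.sinh (2 * t) : ℂ)⁻¹ •
      ((Real.sinh (2 * t) : ℂ) • R.T m t (R.D Xmat v)) := by
    rw [smul_smul, inv_mul_cancel₀ hs, one_smul]
  rw [h2, h, smul_smul]
  congr 1
  push_cast
  field_simp

/-- **Lowering.** -/
theorem lower (σ : ℝ) (hσ : R.N + 2 < 2 * σ - 2) (b l : ℕ) (ε : ℤ) (hε : ε = 1 ∨ ε = -1) (v : V)
    (hv : R.D Wmat v = (Complex.I * ((ε * (b + 2 * l + 2) : ℤ) : ℂ)) • v) :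
    R.A σ hσ (ε * b) l (R.ι (R.Eop (-ε) v)) =
      ((((b : ℝ) + 2 * l + 2 * σ) / 2 : ℝ) : ℂ) • R.A σ hσ (ε * b) (l + 1) (R.ι v) := by
  rw [← R.ibp2 σ hσ (ε * b) l b v, A_apply]
  refine setIntegral_congr_fun measurableSet_Ioi fun t ht => ?_
  have ht' : 0 < t := ht
  have hX := R.XR' (ε * b) (ε * (b + 2 * l + 2)) ht' v hv
  rw [Eop_apply, T_smul, T_add, T_smul, hX, smul_comm (((mu σ l t : ℝ) : ℂ)), smul_add, smul_smul,
    smul_smul, ← kmu_div σ b l ht']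
  congr 3
  have hee : (ε : ℂ) * ε = 1 := by
    rcases hε with rfl | rfl <;> norm_num
  have hI : Complex.I * Complex.I = -1 := Complex.I_mul_I
  have hs : (Real.sinh (2 * t) : ℂ) ≠ 0 := by
    exact_mod_cast (Real.sinh_pos_iff.2 (by linarith : 0 < 2 * t)).ne'
  push_cast
  push_cast at hs
  field_simp
  linear_combination (-(((mu σ l t : ℝ) : ℂ)) * (ε : ℂ) * ε * ((b + 2 * l + 2) *
    Complex.cosh (2 * t) - b)) * hI + (((mu σ l t : ℝ) : ℂ)) * ((b + 2 * l + 2) *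
    Complex.cosh (2 * t) - b) * hee

end Fac

end Pool.Agent.SGap
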