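import Pool.Agent.Lib.MP_496a9e_al.Ops

/-!
# Raising
-/

namespace Pool.Agent.SGap

open MeasureTheory Topology Filter Set

variable {V E : Type*} [AddCommGroup V] [Module ℂ V] [NormedAddCommGroup E]
    [NormedSpace ℂ E] (R : Fac V E)

set_option linter.unusedSectionVars false

namespace Fac

variable [CompleteSpace E]

theorem T_Ad (m : ℤ) (t : ℝ) (v : V) : R.T m t (R.D (Ad1 (dia t)⁻¹ Xmat) v) =
    (Real.cosh (2 * t) : ℂ) • R.T m t (R.D Xmat v) -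
      (Real.sinh (2 * t) : ℂ) • R.T m t (R.D Wmat v) := by
  rw [ad_dia_X, D_comb', T_sub, T_smul, T_smul]

theorem T_Ad_bd (m : ℤ) {t : ℝ} (ht : 0 ≤ t) (v : V) :
    ‖R.T m t (R.D (Ad1 (dia t)⁻¹ Xmat) v)‖ ≤
      (R.C ^ 2 * (‖R.ι (R.D Xmat v)‖ + ‖R.ι (R.D Wmat v)‖)) * Real.exp ((R.N + 2) * t) := by
  rw [T_Ad]
  have hc : Real.cosh (2 * t) ≤ Real.exp (2 * t) := by
    rw [Real.cosh_eq]
    have : Real.exp (-(2 * t)) ≤ Real.exp (2 * t) := Real.exp_le_exp.2 (by linarith)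
    linarith
  have hs : Real.sinh (2 * t) ≤ Real.exp (2 * t) := (Real.sinh_lt_cosh _).le.trans hc
  have hs0 : 0 ≤ Real.sinh (2 * t) := sinh_nonneg (by linarith)
  have h1 := R.T_norm m ht (R.D Xmat v)
  have h2 := R.T_norm m ht (R.D Wmat v)
  have hC := R.C_nonneg
  have he : Real.exp ((R.N + 2) * t) = Real.exp (2 * t) * Real.exp (R.N * t) := by
    rw [← Real.exp_add]; congr 1; ring
  calc _ ≤ ‖(Real.cosh (2 * t) : ℂ) • R.T m t (R.D Xmat v)‖ +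
        ‖(Real.sinh (2 * t) : ℂ) • R.T m t (R.D Wmat v)‖ := norm_sub_le _ _
    _ = Real.cosh (2 * t) * ‖R.T m t (R.D Xmat v)‖ +
        Real.sinh (2 * t) * ‖R.T m t (R.D Wmat v)‖ := by
        rw [norm_smul, norm_smul, Complex.norm_real, Complex.norm_real,
          Real.norm_of_nonneg (cpos _).le, Real.norm_of_nonneg hs0]
    _ ≤ Real.exp (2 * t) * (R.C ^ 2 * Real.exp (R.N * t) * ‖R.ι (R.D Xmat v)‖) +
        Real.exp (2 * t) * (R.C ^ 2 * Real.exp (R.N * t) * ‖R.ι (R.D Wmat v)‖) := by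
        gcongr
    _ = _ := by rw [he]; ring

theorem T_cont_Ad (m : ℤ) (v : V) :
    Continuous fun t => R.T m t (R.D (Ad1 (dia t)⁻¹ Xmat) v) := by
  simp only [T_Ad]
  have h1 := R.cont_T m (R.D Xmat v)
  have h2 := R.cont_T m (R.D Wmat v)
  have h3 : Continuous fun t : ℝ => (Real.cosh (2 * t) : ℂ) := by fun_prop
  have h4 : Continuous fun t : ℝ => (Real.sinh (2 * t) : ℂ) := by fun_prop
  exact (h3.smul h1).sub (h4.smul h2)

theorem T_H_bd (m : ℤ) {t : ℝ} (ht : 0 ≤ t) (v : V) :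
    ‖R.T m t v‖ ≤ (R.C ^ 2 * ‖R.ι v‖) * Real.exp ((R.N + 2) * t) := by
  have h1 := R.T_norm m ht v
  have h2 : Real.exp (R.N * t) ≤ Real.exp ((R.N + 2) * t) := Real.exp_le_exp.2 (by nlinarith)
  have h3 : 0 ≤ R.C ^ 2 * ‖R.ι v‖ := by positivity
  calc ‖R.T m t v‖ ≤ (R.C ^ 2 * ‖R.ι v‖) * Real.exp (R.N * t) := h1.trans (le_of_eq (by ring))
    _ ≤ _ := mul_le_mul_of_nonneg_left h2 h3

theorem norm_half : ‖(1 / 2 : ℂ)‖ ≤ 1 := by norm_num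

theorem norm_Ihalf : ‖(Complex.I / 2 : ℂ)‖ ≤ 1 := by
  rw [norm_div, Complex.norm_I]
  norm_num

theorem four_bd {a b c d : E} {α β : ℝ} (p q : ℂ) (hp : ‖p‖ ≤ 1) (hq : ‖q‖ ≤ 1)
    (ha : ‖a‖ ≤ α) (hb : ‖b‖ ≤ α) (hc : ‖c‖ ≤ β) (hd : ‖d‖ ≤ β) :
    ‖p • (a + b) + q • (c - d)‖ ≤ 2 * α + 2 * β := by
  have h1 : ‖a + b‖ ≤ 2 * α := (norm_add_le _ _).trans (by linarith)
  have h2 : ‖c - d‖ ≤ 2 * β := (norm_sub_le _ _).trans (by linarith)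
  have h3 : ‖p • (a + b)‖ ≤ 2 * α := by
    rw [norm_smul]
    calc ‖p‖ * ‖a + b‖ ≤ 1 * ‖a + b‖ := by gcongr
      _ ≤ _ := by linarith
  have h4 : ‖q • (c - d)‖ ≤ 2 * β := by
    rw [norm_smul]
    calc ‖q‖ * ‖c - d‖ ≤ 1 * ‖c - d‖ := by gcongr
      _ ≤ _ := by linarith
  exact (norm_add_le _ _).trans (by linarith)

theorem yH_bd (m : ℤ) (v : V) : ∃ c, 0 ≤ c ∧ ∀ t, 0 ≤ t →
    ‖R.yH m t v‖ ≤ c * Real.exp ((R.N + 2) * t) := by
  refine ⟨2 * (R.C ^ 2 * ‖R.ι (R.D Hmat v)‖) +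
    2 * (R.C ^ 2 * (‖R.ι (R.D Xmat v)‖ + ‖R.ι (R.D Wmat v)‖)), by positivity, ?_⟩
  intro t ht
  refine (four_bd (1 / 2 : ℂ) (Complex.I / 2 : ℂ) norm_half norm_Ihalf (R.T_H_bd _ ht _)
    (R.T_H_bd _ ht _) (R.T_Ad_bd _ ht _) (R.T_Ad_bd _ ht _)).trans (le_of_eq (by ring))

theorem yX_bd (m : ℤ) (v : V) : ∃ c, 0 ≤ c ∧ ∀ t, 0 ≤ t →
    ‖R.yX m t v‖ ≤ c * Real.exp ((R.N + 2) * t) := by
  refine ⟨2 * (R.C ^ 2 * (‖R.ι (R.D Xmat v)‖ + ‖R.ι (R.D Wmat v)‖)) +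
    2 * (R.C ^ 2 * ‖R.ι (R.D Hmat v)‖), by positivity, ?_⟩
  intro t ht
  have h := four_bd (1 / 2 : ℂ) (-(Complex.I / 2) : ℂ) norm_half
    (by rw [norm_neg]; exact norm_Ihalf) (R.T_Ad_bd (m + 2) ht v) (R.T_Ad_bd (m - 2) ht v)
    (R.T_H_bd (m + 2) ht (R.D Hmat v)) (R.T_H_bd (m - 2) ht (R.D Hmat v))
  rw [neg_smul, ← sub_eq_add_neg] at h
  exact h.trans (le_of_eq (by ring))

theorem yH_cont (m : ℤ) (v : V) : Continuous fun t => R.yH m t v := by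
  unfold yH
  exact (((R.cont_T _ _).add (R.cont_T _ _)).const_smul _).add
    (((R.T_cont_Ad _ _).sub (R.T_cont_Ad _ _)).const_smul _)

theorem yX_cont (m : ℤ) (v : V) : Continuous fun t => R.yX m t v := by
  unfold yX
  exact (((R.T_cont_Ad _ _).add (R.T_cont_Ad _ _)).const_smul _).sub
    (((R.cont_T _ _).sub (R.cont_T _ _)).const_smul _)

theorem int_y {y : ℝ → E} (hy : Continuous y) (hb : ∃ c, 0 ≤ c ∧ ∀ t, 0 ≤ t →
    ‖y t‖ ≤ c * Real.exp ((R.N + 2) * t)) (σ : ℝ) (hσ : R.N + 2 < 2 * σ - 2) (l : ℕ) :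
    Integrable (fun t => ((mu σ l t : ℝ) : ℂ) • y t) (volume.restrict (Ioi 0)) := by
  obtain ⟨c, hc, hb⟩ := hb
  have hN := R.hN
  exact integrable_smul (K := R.N + 2) (c' := c) (by norm_num : (0:ℝ) ≤ 2) hc hσ (by linarith)
    (continuous_mu σ l) hy (fun t ht => mu_le σ l ht) hb

/-- derivative of a one-parameter group at `A ι(v)` -/
theorem der_A {γ : ℝ → SL} {Z : sl2} (h : One1 γ Z) (hγ : Continuous γ) (σ : ℝ)
    (hσ : R.N + 2 < 2 * σ - 2) (m : ℤ) (l : ℕ) (v : V) (y : ℝ → E) (hy : Continuous y)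
    (hb : ∃ c, 0 ≤ c ∧ ∀ t, 0 ≤ t → ‖y t‖ ≤ c * Real.exp ((R.N + 2) * t))
    (hd : ∀ t, HasDerivAt (fun u => R.ρ (γ u) (R.T m t v)) (y t) 0) :
    HasDerivAt (fun u => R.ρ (γ u) (R.A σ hσ m l (R.ι v)))
      (∫ t in Ioi 0, ((mu σ l t : ℝ) : ℂ) • y t) 0 := by
  obtain ⟨M, hM⟩ := R.bd_path hγ h.zero
  rw [A_apply]
  refine gen_integral (U := fun u => R.ρ (γ u)) (fun s t x => by rw [h.1, mul_apply])
    (fun x => by rw [h.zero, one_apply]) hM ?_ (R.int_y hy hb σ hσ l) ?_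
  · exact R.int_y (R.cont_T m v) ⟨R.C ^ 2 * ‖R.ι v‖, by positivity, fun t ht => R.T_H_bd m ht v⟩
      σ hσ l
  · intro t
    have h2 := (hd t).const_smul ((mu σ l t : ℝ) : ℂ)
    refine h2.congr_of_eventuallyEq (Eventually.of_forall fun u => ?_)
    simp only [Pi.smul_apply, map_smul]

/-- **Raising.** -/
theorem raise (σ : ℝ) (hσ : R.N + 2 < 2 * σ - 2) (b l : ℕ) (ε : ℤ) (hε : ε = 1 ∨ ε = -1)
    (v v' : V) (hv : R.D Wmat v = (Complex.I * ((ε * b : ℤ) : ℂ)) • v)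
    (hv' : R.ι v' = R.A σ hσ (ε * (b + 2 * l)) l (R.ι v)) :
    R.ι (R.Eop ε v') =
      ((((b : ℝ) + 2 * l + 2 * σ) / 2 : ℝ) : ℂ) •
        R.A σ hσ (ε * (b + 2 * (l + 1 : ℕ))) (l + 1) (R.ι v) := by
  have dH := R.der_A one1_dia continuous_dia σ hσ (ε * (b + 2 * l)) l v _ (R.yH_cont _ v)
    (R.yH_bd _ v) (fun t => R.der_dia_T _ t v)
  have dX := R.der_A one1_hyp continuous_hyp σ hσ (ε * (b + 2 * l)) l v _ (R.yX_cont _ v)
    (R.yX_bd _ v) (fun t => R.der_hyp_T _ t v)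
  rw [← hv'] at dH dX
  have eH := (R.der _ _ one1_dia v').unique dH
  have eX := (R.der _ _ one1_hyp v').unique dX
  have iH := R.int_y (R.yH_cont (ε * (b + 2 * l)) v) (R.yH_bd _ v) σ hσ l
  have iX := R.int_y (R.yX_cont (ε * (b + 2 * l)) v) (R.yX_bd _ v) σ hσ l
  have em : (ε * (b + 2 * l) : ℤ) + 2 * ε = ε * (b + 2 * (l + 1 : ℕ)) := by push_cast; ring
  rw [Eop_apply, map_smul, map_add, map_smul, eH, eX, ← R.ibp2 σ hσ _ l b v, ← integral_smul,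
    ← integral_add (f := fun t => ((mu σ l t : ℝ) : ℂ) • R.yH (ε * (b + 2 * l)) t v)
      (g := fun t => (Complex.I * (ε : ℂ)) • (((mu σ l t : ℝ) : ℂ) • R.yX (ε * (b + 2 * l)) t v))
      iH (iX.smul _), ← integral_smul]
  refine setIntegral_congr_fun measurableSet_Ioi fun t ht => ?_
  have ht' : 0 < t := ht
  have h1 := R.yHX (ε * (b + 2 * l)) t v ε hε
  rw [em] at h1
  have hX := R.XR' (ε * (b + 2 * (l + 1 : ℕ))) (ε * b) ht' v hv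
  rw [T_Ad, hX, hv, T_smul] at h1
  have h2 : (1 / 2 : ℂ) • (((mu σ l t : ℝ) : ℂ) • R.yH (ε * (b + 2 * l)) t v +
      (Complex.I * (ε : ℂ)) • (((mu σ l t : ℝ) : ℂ) • R.yX (ε * (b + 2 * l)) t v)) =
      ((mu σ l t : ℝ) : ℂ) • ((1 / 2 : ℂ) • (R.yH (ε * (b + 2 * l)) t v +
        (Complex.I * (ε : ℂ)) • R.yX (ε * (b + 2 * l)) t v)) := by
    module
  have hee : (ε : ℂ) * ε = 1 := by
    rcases hε with rfl | rfl <;> norm_num
  have hI : Complex.I * Complex.I = -1 := Complex.I_mul_I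
  have hs : (Real.sinh (2 * t) : ℂ) ≠ 0 := by
    exact_mod_cast (Real.sinh_pos_iff.2 (by linarith : 0 < 2 * t)).ne'
  have hcs : (Real.cosh (2 * t) : ℂ) ^ 2 = (Real.sinh (2 * t) : ℂ) ^ 2 + 1 := by
    exact_mod_cast Real.cosh_sq (2 * t)
  have hco : (((((b : ℝ) + 2 * l + 2) * Real.cosh (2 * t) - b) / Real.sinh (2 * t) : ℝ) : ℂ) =
      (Complex.I * (ε : ℂ)) * ((Real.cosh (2 * t) : ℂ) * (Complex.I * (((((ε * b : ℤ) : ℝ) *
        Real.cosh (2 * t) - ((ε * (b + 2 * (l + 1 : ℕ)) : ℤ) : ℝ)) / Real.sinh (2 * t) : ℝ) : ℂ)) -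
        (Real.sinh (2 * t) : ℂ) * (Complex.I * ((ε * b : ℤ) : ℂ))) := by
    generalize Real.cosh (2 * t) = c at *
    generalize Real.sinh (2 * t) = s at *
    push_cast
    field_simp
    linear_combination (-((ε : ℂ) ^ 2 * (b * c ^ 2 - (b + 2 * (l + 1)) * c - b * s ^ 2))) * hI +
      (b - (b + 2 * (l + 1)) * c : ℂ) * hee + (ε : ℂ) ^ 2 * b * hcs
  rw [h2, h1, ← kmu_div σ b l ht', Complex.ofReal_mul, hco]
  module

end Fac

end Pool.Agent.SGap
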