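import Pool.Agent.Lib.MP_496a9e_al.Norms

/-!
# The factors of a Banach globalization of a module of `SL(2,ℝ)^r`
-/

namespace Pool.Agent.SGap

open MeasureTheory Topology Filter Set

variable {r : ℕ} {V : Type*} [AddCommGroup V] [Module ℂ V]

/-- the action of the Lie algebra of the factor `i` -/
noncomputable def Dm (M : GKModule r V) (i : Fin r) : sl2 →ₗ[ℝ] (V →ₗ[ℂ] V) where
  toFun Z := M.lie (Pi.single i Z)
  map_add' Z Z' := by rw [Pi.single_add, M.isLie.add]
  map_smul' c Z := by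
    rw [Pi.single_smul, M.isLie.smul]
    rfl

theorem Dm_apply (M : GKModule r V) (i : Fin r) (Z : sl2) : Dm M i Z = M.lie (Pi.single i Z) := rfl

theorem brk_single (i : Fin r) (Z Z' : sl2) :
    brk (Pi.single i Z) (Pi.single i Z' : LieG r) = Pi.single i (br Z Z') := by
  funext j
  apply Subtype.ext
  by_cases h : j = i
  · subst h
    simp [brk, br]
  · simp [brk, Pi.single_eq_of_ne h]

theorem brk_single_ne {i j : Fin r} (hij : i ≠ j) (Z Z' : sl2) :
    brk (Pi.single i Z) (Pi.single j Z' : LieG r) = 0 := by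
  funext k
  apply Subtype.ext
  by_cases h : k = i
  · subst h
    simp [brk, Pi.single_eq_of_ne hij]
  · simp [brk, Pi.single_eq_of_ne h]

theorem Dm_isRep (M : GKModule r V) (i : Fin r) : IsRep (Dm M i) := by
  intro Z Z' v
  rw [Dm_apply, Dm_apply, Dm_apply, ← brk_single, M.isLie.brk]

theorem Dm_comm (M : GKModule r V) {i j : Fin r} (hij : i ≠ j) (Z Z' : sl2) (v : V) :
    Dm M i Z (Dm M j Z' v) = Dm M j Z' (Dm M i Z v) := by
  have h := M.isLie.brk (Pi.single i Z) (Pi.single j Z') v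
  have h0 : M.lie 0 = 0 := by
    have := M.isLie.smul 0 0
    rwa [zero_smul, Complex.ofReal_zero, zero_smul] at this
  rw [brk_single_ne hij, h0, LinearMap.zero_apply] at h
  exact (sub_eq_zero.1 h.symm)

theorem lie_eq (M : GKModule r V) (X : LieG r) (v : V) :
    M.lie X v = ∑ i, Dm M i (X i) v := by
  have h0 : M.lie 0 = 0 := by
    have := M.isLie.smul 0 0
    rwa [zero_smul, Complex.ofReal_zero, zero_smul] at this
  have h1 : ∀ s : Finset (Fin r), M.lie (∑ i ∈ s, Pi.single i (X i)) v =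
      ∑ i ∈ s, Dm M i (X i) v := by
    intro s
    induction s using Finset.induction_on with
    | empty => rw [Finset.sum_empty, Finset.sum_empty, h0, LinearMap.zero_apply]
    | insert a s ha ih =>
      rw [Finset.sum_insert ha, Finset.sum_insert ha, M.isLie.add, LinearMap.add_apply, ih]
      rfl
  have h2 := h1 Finset.univ
  rwa [Finset.univ_sum_single X] at h2

theorem Dm_W (M : GKModule r V) {m : Fin r → ℤ} {v : V} (hv : v ∈ ktype M.act m) (i : Fin r) :
    Dm M i Wmat v = (Complex.I * (m i : ℂ)) • v := by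
  have h := M.diff (Pi.single i 1) m v hv
  have e1 : (fun j => (Pi.single i (1:ℝ) : Fin r → ℝ) j • Wmat) = (Pi.single i Wmat : LieG r) := by
    funext j
    by_cases h : j = i
    · subst h; simp
    · simp [Pi.single_eq_of_ne h]
  rw [e1] at h
  rw [Dm_apply, h]
  congr 2
  rw [Finset.sum_eq_single i]
  · simp
  · intro j _ hj
    simp [Pi.single_eq_of_ne hj]
  · intro hi
    exact absurd (Finset.mem_univ i) hi

theorem ktype_act (M : GKModule r V) {m : Fin r → ℤ} {v : V} (hv : v ∈ ktype M.act m)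
    (θ : Fin r → ℝ) :
    M.act θ v = Complex.exp (Complex.I * ∑ i, (m i : ℂ) * (θ i : ℂ)) • v := hv θ

theorem Ad_single_rot (θ : Fin r → ℝ) (i : Fin r) (Z : sl2) :
    Ad (rotG θ : G r) (Pi.single i Z) = Pi.single i (Ad1 (rot (-θ i))⁻¹ Z) := by
  funext j
  apply Subtype.ext
  by_cases h : j = i
  · subst h
    have e : (rotG θ : G r) j = rot (θ j) := rfl
    simp only [Ad, Pi.single_eq_same, coe_Ad1, e, rot_inv, neg_neg]
  · simp [Ad, Pi.single_eq_of_ne h]

/-- `E_ε` maps a `K`-type to the neighbouring one. -/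
theorem EE_mem (M : GKModule r V) (i : Fin r) (ε : ℤ) (hε : ε = 1 ∨ ε = -1) {m : Fin r → ℤ} {v : V}
    (hv : v ∈ ktype M.act m) : EE (Dm M i) ε v ∈ ktype M.act (m + Pi.single i (2 * ε)) := by
  intro θ
  rw [EE_apply, map_smul, map_add, map_smul, Dm_apply, Dm_apply, M.compat, M.compat,
    ktype_act M hv, Ad_single_rot, Ad_single_rot, ad_rot_H, ad_rot_X, ← Dm_apply, ← Dm_apply,
    ← Dm_apply, ← Dm_apply]
  have e1 : ∀ (a b : ℝ) (w : V), Dm M i (a • Hmat + b • Xmat) w =
      (a : ℂ) • Dm M i Hmat w + (b : ℂ) • Dm M i Xmat w := by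
    intro a b w
    rw [map_add, map_smul, map_smul]
    simp only [LinearMap.add_apply, LinearMap.smul_apply, Complex.coe_smul]
  have e2 : ∀ (a b : ℝ) (w : V), Dm M i (a • Xmat - b • Hmat) w =
      (a : ℂ) • Dm M i Xmat w - (b : ℂ) • Dm M i Hmat w := by
    intro a b w
    rw [map_sub, map_smul, map_smul]
    simp only [LinearMap.sub_apply, LinearMap.smul_apply, Complex.coe_smul]
  rw [e1, e2, map_smul, map_smul]
  have e3 : ∑ j, (((m + Pi.single i (2 * ε) : Fin r → ℤ) j : ℤ) : ℂ) * (θ j : ℂ) =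
      (∑ j, (m j : ℂ) * (θ j : ℂ)) + 2 * ε * θ i := by
    have : ∀ j, (((m + Pi.single i (2 * ε) : Fin r → ℤ) j : ℤ) : ℂ) * (θ j : ℂ) =
        (m j : ℂ) * (θ j : ℂ) + (((Pi.single i (2 * ε) : Fin r → ℤ) j : ℤ) : ℂ) * (θ j : ℂ) := by
      intro j
      rw [Pi.add_apply]
      push_cast
      ring
    simp only [this]
    rw [Finset.sum_add_distrib]
    congr 1
    rw [Finset.sum_eq_single i]
    · simp
    · intro j _ hj
      simp [Pi.single_eq_of_ne hj]
    · intro hi
      exact absurd (Finset.mem_univ i) hi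
  rw [e3, mul_add, Complex.exp_add]
  have hI : Complex.I * Complex.I = -1 := Complex.I_mul_I
  have e4 : Complex.exp (Complex.I * (2 * ε * θ i)) =
      (Real.cos (2 * θ i) : ℂ) + (Complex.I * ε) * Real.sin (2 * θ i) := by
    rcases hε with rfl | rfl
    · rw [show Complex.I * (2 * ((1 : ℤ) : ℂ) * θ i) = ((2 * θ i : ℝ) : ℂ) * Complex.I by
        push_cast; ring, Complex.exp_mul_I, ← Complex.ofReal_cos, ← Complex.ofReal_sin]
      push_cast
      ring
    · rw [show Complex.I * (2 * ((-1 : ℤ) : ℂ) * θ i) = ((-(2 * θ i) : ℝ) : ℂ) * Complex.I by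
        push_cast; ring, Complex.exp_mul_I, ← Complex.ofReal_cos, ← Complex.ofReal_sin,
        Real.cos_neg, Real.sin_neg]
      push_cast
      ring
  rw [e4]
  have e5 : Real.cos (2 * -θ i) = Real.cos (2 * θ i) := by rw [mul_neg, Real.cos_neg]
  have e6 : Real.sin (2 * -θ i) = -Real.sin (2 * θ i) := by rw [mul_neg, Real.sin_neg]
  rw [e5, e6]
  have hee : (Complex.I * (ε : ℂ)) * (Complex.I * (ε : ℂ)) = -1 := by
    rcases hε with rfl | rfl <;> push_cast <;> linear_combination hI
  generalize Complex.exp (Complex.I * ∑ j, (m j : ℂ) * (θ j : ℂ)) = z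
  generalize Dm M i Hmat v = a
  generalize Dm M i Xmat v = b
  rw [smul_comm _ (1 / 2 : ℂ)]
  congr 1
  generalize Real.cos (2 * θ i) = c at *
  generalize Real.sin (2 * θ i) = s at *
  rw [smul_add (z * _), smul_smul (z * _)]
  have e7 : z * ((c : ℂ) + Complex.I * ε * s) * (Complex.I * ε) =
      (Complex.I * ε) * c * z - s * z := by
    linear_combination (z * s : ℂ) * hee
  rw [e7]
  push_cast
  module

theorem EE_pow_mem (M : GKModule r V) (i : Fin r) (ε : ℤ) (hε : ε = 1 ∨ ε = -1) (l : ℕ)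
    {m : Fin r → ℤ} {v : V} (hv : v ∈ ktype M.act m) :
    (EE (Dm M i) ε ^ l) v ∈ ktype M.act (m + Pi.single i (2 * ε * l)) := by
  induction l with
  | zero => simpa using hv
  | succ l ih =>
    rw [pow_succ', Module.End.mul_apply]
    have h := EE_mem M i ε hε ih
    rw [add_assoc, ← Pi.single_add] at h
    have e : (2 * ε * ((l + 1 : ℕ) : ℤ)) = 2 * ε * l + 2 * ε := by push_cast; ring
    rw [e]
    exact h

theorem Om_mem (M : GKModule r V) (i : Fin r) {m : Fin r → ℤ} {v : V} (hv : v ∈ ktype M.act m) :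
    Om (Dm M i) v ∈ ktype M.act m := by
  have h := (Dm_isRep M i).FE 1 (Or.inl rfl) (m i) v (Dm_W M hv i)
  have h1 := EE_mem M i (-1) (Or.inr rfl) (EE_mem M i 1 (Or.inl rfl) hv)
  rw [add_assoc, ← Pi.single_add, h] at h1
  have e : Pi.single i (2 * 1 + 2 * -1 : ℤ) = (0 : Fin r → ℤ) := by
    norm_num
  rw [e, add_zero] at h1
  have h2 := (ktype M.act m).smul_mem (4 : ℂ) h1
  rw [smul_smul] at h2
  norm_num at h2
  have h3 := (ktype M.act m).sub_mem h2 ((ktype M.act m).smul_mem
    ((1 - ((m i : ℂ) + 1) ^ 2 : ℂ)) hv)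
  rwa [add_sub_cancel_right] at h3

theorem qf_mem (M : GKModule r V) (i : Fin r) (b j : ℕ) {m : Fin r → ℤ} {v : V}
    (hv : v ∈ ktype M.act m) : qf (Dm M i) b j v ∈ ktype M.act m := by
  rw [qf_apply]
  exact (ktype M.act m).smul_mem _ ((ktype M.act m).add_mem (Om_mem M i hv)
    ((ktype M.act m).smul_mem _ hv))

theorem Q_mem (M : GKModule r V) (i : Fin r) (b l : ℕ) {m : Fin r → ℤ} {v : V}
    (hv : v ∈ ktype M.act m) : Q (Dm M i) b l v ∈ ktype M.act m := by
  induction l generalizing v with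
  | zero => exact hv
  | succ l ih => exact ih (qf_mem M i b l hv)

end Pool.Agent.SGap
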