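import Pool.Agent.Lib.MP_496a9e_al.Est

/-!
# All `K`-types, and the sum over the `K`-types
-/

namespace Pool.Agent.SGap

open Finset

variable {r : ℕ} {V : Type*} [AddCommGroup V] [Module ℂ V]

set_option linter.unusedSectionVars false

/-- The base weight, the sign and the number of steps for an integer. -/
theorem int_decomp (n1 : ℕ) (m : ℤ) : ∃ (s : Bool) (b : Fin (n1 + 2)) (l : ℕ),
    m = (if s then 1 else -1) * (((b : ℕ) : ℤ) + 2 * l) ∧ (l = 0 ∨ n1 ≤ (b : ℕ)) ∧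
      l ≤ m.natAbs := by
  have hs : ∃ s : Bool, m = (if s then 1 else -1) * (m.natAbs : ℤ) := by
    rcases Int.natAbs_eq m with h | h
    · exact ⟨true, by simpa using h⟩
    · exact ⟨false, by simpa using h⟩
  obtain ⟨s, hs⟩ := hs
  by_cases h : m.natAbs < n1
  · refine ⟨s, ⟨m.natAbs, by omega⟩, 0, ?_, Or.inl rfl, Nat.zero_le _⟩
    simpa using hs
  · refine ⟨s, ⟨n1 + (m.natAbs - n1) % 2, by omega⟩, (m.natAbs - n1) / 2, ?_,
      Or.inr (by simp), by omega⟩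
    have e : (((n1 + (m.natAbs - n1) % 2 : ℕ) : ℤ) + 2 * (((m.natAbs - n1) / 2 : ℕ) : ℤ)) =
        (m.natAbs : ℤ) := by omega
    simp only
    rw [e]
    exact hs

variable {M : GKModule r V} {E : Type*} [NormedAddCommGroup E] [NormedSpace ℂ E] (S : Rep M E)
variable [CompleteSpace E] {E' : Type*} [NormedAddCommGroup E'] [NormedSpace ℂ E']
  [CompleteSpace E'] (S' : Rep M E')

/-- The estimate on all `K`-types. -/
theorem type_est (hM : M.IsHC) (hNN : S.N = S'.N) :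
    ∃ C : ℝ, 0 ≤ C ∧ ∀ m : Fin r → ℤ, ∀ v ∈ ktype M.act m,
      ‖S.ι v‖ ≤ C * (∏ i, (|(m i : ℝ)| + 1) ^ (S.N + 1)) * ‖S'.ι v‖ := by
  choose n0 hn0 using fun i => exists_regular M hM i
  obtain ⟨n1, hn1, hn1b⟩ : ∃ n1 : ℕ, 1 ≤ n1 ∧ ∀ i, n0 i ≤ n1 :=
    ⟨1 + ∑ i, n0 i, Nat.le_add_right _ _, fun i =>
      (single_le_sum (f := n0) (fun i _ => Nat.zero_le _) (mem_univ i)).trans
        (Nat.le_add_left _ _)⟩
  have hreg : ∀ (i : Fin r) (b j : ℕ), n1 ≤ b → ∀ v : V, qf (Dm M i) b j v = 0 → v = 0 :=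
    fun i b j hb => hn0 i b j ((hn1b i).trans hb)
  have hbase := fun τ : Fin r → Bool × Fin (n1 + 2) => base_est S hM S' hNN n1 hn1 hreg
    (fun i => if (τ i).1 then 1 else -1) (fun i => by
      by_cases h : (τ i).1 <;> simp [h]) (fun i => ((τ i).2 : ℕ))
  choose C hC hCb using hbase
  refine ⟨∑ τ, C τ, sum_nonneg fun τ _ => hC τ, fun m v hv => ?_⟩
  choose s b l hm hl hlm using fun i => int_decomp n1 (m i)
  have h1 := hCb (fun i => (s i, b i)) l hl v (by
    have : m = fun i => (if s i then 1 else -1) * (((b i : ℕ) : ℤ) + 2 * l i) := funext hm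
    rw [this] at hv
    exact hv)
  refine h1.trans ?_
  have hN := S.hN
  have h2 : C (fun i => (s i, b i)) ≤ ∑ τ, C τ :=
    single_le_sum (f := C) (fun τ _ => hC τ) (mem_univ _)
  have h3 : ∏ i, ((l i : ℝ) + 1) ^ (S.N + 1) ≤ ∏ i, (|(m i : ℝ)| + 1) ^ (S.N + 1) := by
    refine prod_le_prod (fun i _ => by positivity) fun i _ => ?_
    refine Real.rpow_le_rpow (by positivity) ?_ (by linarith)
    have h4 : ((l i : ℕ) : ℝ) ≤ ((m i).natAbs : ℝ) := by exact_mod_cast hlm i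
    have h5 : ((m i).natAbs : ℝ) = |(m i : ℝ)| := by
      rw [Nat.cast_natAbs, Int.cast_abs]
    linarith
  have h4 : 0 ≤ ∏ i, ((l i : ℝ) + 1) ^ (S.N + 1) := prod_nonneg fun i _ => by positivity
  have h5 : 0 ≤ ∑ τ, C τ := sum_nonneg fun τ _ => hC τ
  gcongr

/-! ### Projections to the `K`-types -/

/-- the projection to the `K`-type `m` -/
noncomputable def opP (m : Fin r → ℤ) : List (Fin r) → E →L[ℂ] E
  | [] => ContinuousLinearMap.id ℂ E
  | i :: L => ((S.fac i).P (m i)) ∘L opP m L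

theorem opP_norm (m : Fin r → ℤ) (L : List (Fin r)) (x : E) :
    ‖opP S m L x‖ ≤ |S.C| ^ L.length * ‖x‖ := by
  induction L with
  | nil => simp [opP]
  | cons i L ih =>
    have h1 : ‖(S.fac i).P (m i)‖ ≤ |S.C| := ((S.fac i).P_norm (m i)).trans (le_abs_self _)
    calc ‖opP S m (i :: L) x‖ ≤ ‖(S.fac i).P (m i)‖ * ‖opP S m L x‖ :=
          ((S.fac i).P (m i)).le_opNorm _
      _ ≤ |S.C| * (|S.C| ^ L.length * ‖x‖) := by gcongr
      _ = _ := by
          rw [List.length_cons]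
          ring

/-- Projections to other weights vanish. -/
theorem P_ne (i : Fin r) {k n : ℤ} (hk : k ≠ n) {x : E}
    (hx : ∀ θ : ℝ, (S.fac i).ρ (rot θ) x = Complex.exp (Complex.I * n * θ) • x) :
    (S.fac i).P k x = 0 := by
  have hkn : ((k : ℝ) - n) ≠ 0 := by
    rw [sub_ne_zero]
    exact_mod_cast hk
  obtain ⟨φ, hφ⟩ : ∃ φ : ℝ, ((k : ℝ) - n) * φ = Real.pi := ⟨Real.pi / (k - n), by field_simp⟩
  have h1 := (S.fac i).P_rot k φ x
  rw [hx φ, map_smul] at h1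
  have h2 : (Complex.exp (Complex.I * k * φ) - Complex.exp (Complex.I * n * φ)) •
      (S.fac i).P k x = 0 := by
    rw [sub_smul, ← h1, sub_self]
  rcases smul_eq_zero.1 h2 with h3 | h3
  · exfalso
    rw [sub_eq_zero] at h3
    have h4 : Complex.exp (Complex.I * k * φ) = Complex.exp (Complex.I * n * φ) *
        Complex.exp (Real.pi * Complex.I) := by
      rw [← Complex.exp_add]
      congr 1
      have : ((((k : ℝ) - n) * φ : ℝ) : ℂ) = (Real.pi : ℂ) := by rw [hφ]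
      push_cast at this
      rw [← this]
      ring
    rw [Complex.exp_pi_mul_I] at h4
    rw [h4] at h3
    have h5 := Complex.exp_ne_zero (Complex.I * n * φ)
    apply h5
    have : Complex.exp (Complex.I * ↑n * ↑φ) + Complex.exp (Complex.I * ↑n * ↑φ) = 0 := by
      linear_combination -h3
    have h6 : 2 * Complex.exp (Complex.I * ↑n * ↑φ) = 0 := by rw [two_mul]; exact this
    simp at h6
  · exact h3

theorem opP_apply (m m' : Fin r → ℤ) (L : List (Fin r)) {v : V} (hv : v ∈ ktype M.act m') :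
    opP S m L (S.ι v) = if ∀ i ∈ L, m i = m' i then S.ι v else 0 := by
  induction L with
  | nil => simp [opP]
  | cons i L ih =>
    show (S.fac i).P (m i) (opP S m L (S.ι v)) = _
    rw [ih]
    by_cases h : ∀ k ∈ L, m k = m' k
    · rw [if_pos h]
      by_cases hi : m i = m' i
      · rw [if_pos (by
          intro k hk
          rcases List.mem_cons.1 hk with rfl | hk
          · exact hi
          · exact h k hk)]
        refine (S.fac i).P_self (m i) _ ?_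
        rw [hi]
        exact S.wt_of_mem hv i
      · rw [if_neg (fun h' => hi (h' i List.mem_cons_self))]
        exact P_ne S i hi (S.wt_of_mem hv i)
    · rw [if_neg h, if_neg (fun h' => h fun k hk => h' k (List.mem_cons_of_mem _ hk)), map_zero]

theorem opP_all (m m' : Fin r → ℤ) {v : V} (hv : v ∈ ktype M.act m') :
    opP S m (List.finRange r) (S.ι v) = if m = m' then S.ι v else 0 := by
  rw [opP_apply S m m' _ hv]
  congr 1
  rw [eq_iff_iff]
  constructor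
  · intro h
    exact funext fun i => h i (List.mem_finRange i)
  · rintro rfl i _
    rfl

/-! ### The sum over the `K`-types -/

theorem summable_int (α : ℝ) (hα : 1 < α) : Summable fun k : ℤ => (|(k : ℝ)| + 1) ^ (-α) := by
  have h0 : Summable fun n : ℕ => ((n : ℝ) + 1) ^ (-α) := by
    have h := (summable_nat_add_iff 1).2 (Real.summable_nat_rpow.2 (by linarith : -α < -1))
    simpa using h
  refine Summable.of_nat_of_neg ?_ ?_
  · simpa using h0
  · simpa using h0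

theorem sum_bound (N s : ℝ) (hN : 0 ≤ N) (hs : r * (N + 2) < s) :
    ∃ C : ℝ, 0 ≤ C ∧ ∀ T : Finset (Fin r → ℤ),
      ∑ m ∈ T, (∏ i, (|(m i : ℝ)| + 1) ^ (N + 1)) *
        ((1 + ∑ i, (m i : ℝ) ^ 2) ^ (s / 2))⁻¹ ≤ C := by
  obtain ⟨x, hx, hxs⟩ : ∃ x : ℝ, N + 2 < x ∧ r * x ≤ s := by
    rcases Nat.eq_zero_or_pos r with rfl | hr
    · refine ⟨N + 3, by linarith, ?_⟩
      push_cast at hs ⊢
      linarith
    · have hr' : (0 : ℝ) < r := by exact_mod_cast hr
      exact ⟨s / r, by rw [lt_div_iff₀ hr']; linarith, by rw [mul_div_cancel₀ _ hr'.ne']⟩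
  have hx0 : 0 ≤ x := by linarith
  have hsum := summable_int (x - N - 1) (by linarith)
  set Z := ∑' k : ℤ, (|(k : ℝ)| + 1) ^ (-(x - N - 1)) with hZ
  have hZ0 : 0 ≤ Z := tsum_nonneg fun k => by positivity
  refine ⟨((2 : ℝ) ^ (x / 2)) ^ r * Z ^ r, by positivity, fun T => ?_⟩
  have h1 : ∀ m : Fin r → ℤ, (∏ i, (|(m i : ℝ)| + 1) ^ (N + 1)) *
      ((1 + ∑ i, (m i : ℝ) ^ 2) ^ (s / 2))⁻¹ ≤
      ((2 : ℝ) ^ (x / 2)) ^ r * ∏ i, (|(m i : ℝ)| + 1) ^ (-(x - N - 1)) := by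
    intro m
    set A := 1 + ∑ i, (m i : ℝ) ^ 2 with hA
    have hA1 : 1 ≤ A := by
      have : 0 ≤ ∑ i, (m i : ℝ) ^ 2 := sum_nonneg fun i _ => sq_nonneg _
      linarith
    have hA0 : 0 < A := by linarith
    have h2 : ∀ i, (|(m i : ℝ)| + 1) ^ x ≤ 2 ^ (x / 2) * A ^ (x / 2) := by
      intro i
      have h3 : (m i : ℝ) ^ 2 ≤ ∑ i, (m i : ℝ) ^ 2 :=
        single_le_sum (f := fun i => (m i : ℝ) ^ 2) (fun i _ => sq_nonneg _) (mem_univ i)
      have h4 : (|(m i : ℝ)| + 1) ^ (2 : ℝ) ≤ 2 * A := by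
        rw [Real.rpow_two]
        have h5 := sq_abs (m i : ℝ)
        have h6 := sq_nonneg (|(m i : ℝ)| - 1)
        nlinarith
      calc (|(m i : ℝ)| + 1) ^ x = ((|(m i : ℝ)| + 1) ^ (2 : ℝ)) ^ (x / 2) := by
            rw [← Real.rpow_mul (by positivity)]
            congr 1
            ring
        _ ≤ (2 * A) ^ (x / 2) := Real.rpow_le_rpow (by positivity) h4 (by linarith)
        _ = _ := Real.mul_rpow (by norm_num) hA0.le
    have h3 : ∏ i, (|(m i : ℝ)| + 1) ^ x ≤ ((2 : ℝ) ^ (x / 2)) ^ r * A ^ (s / 2) := by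
      calc ∏ i, (|(m i : ℝ)| + 1) ^ x ≤ ∏ _i : Fin r, (2 ^ (x / 2) * A ^ (x / 2)) :=
            prod_le_prod (fun i _ => by positivity) fun i _ => h2 i
        _ = ((2 : ℝ) ^ (x / 2)) ^ r * (A ^ (x / 2)) ^ r := by
            rw [prod_const, card_univ, Fintype.card_fin, mul_pow]
        _ ≤ _ := by
            refine mul_le_mul_of_nonneg_left ?_ (by positivity)
            rw [← Real.rpow_natCast, ← Real.rpow_mul hA0.le]
            exact Real.rpow_le_rpow_of_exponent_le hA1 (by linarith)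
    have h4 : ∏ i, (|(m i : ℝ)| + 1) ^ (N + 1) = (∏ i, (|(m i : ℝ)| + 1) ^ x) *
        ∏ i, (|(m i : ℝ)| + 1) ^ (-(x - N - 1)) := by
      rw [← prod_mul_distrib]
      refine prod_congr rfl fun i _ => ?_
      rw [← Real.rpow_add (by positivity)]
      congr 1
      ring
    have h5 : 0 < A ^ (s / 2) := Real.rpow_pos_of_pos hA0 _
    have h6 : 0 ≤ ∏ i, (|(m i : ℝ)| + 1) ^ (-(x - N - 1)) := prod_nonneg fun i _ => by positivity
    rw [h4]
    calc (∏ i, (|(m i : ℝ)| + 1) ^ x) * (∏ i, (|(m i : ℝ)| + 1) ^ (-(x - N - 1))) *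
          (A ^ (s / 2))⁻¹ ≤ (((2 : ℝ) ^ (x / 2)) ^ r * A ^ (s / 2)) *
          (∏ i, (|(m i : ℝ)| + 1) ^ (-(x - N - 1))) * (A ^ (s / 2))⁻¹ := by gcongr
      _ = _ := by
          field_simp
  calc _ ≤ ∑ m ∈ T, ((2 : ℝ) ^ (x / 2)) ^ r * ∏ i, (|(m i : ℝ)| + 1) ^ (-(x - N - 1)) :=
        sum_le_sum fun m _ => h1 m
    _ = ((2 : ℝ) ^ (x / 2)) ^ r * ∑ m ∈ T, ∏ i, (|(m i : ℝ)| + 1) ^ (-(x - N - 1)) := by
        rw [mul_sum]
    _ ≤ _ := by
        refine mul_le_mul_of_nonneg_left ?_ (by positivity)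
        obtain ⟨Ti, hTi⟩ : ∃ Ti : Fin r → Finset ℤ, Ti = fun i => T.image fun m => m i := ⟨_, rfl⟩
        calc ∑ m ∈ T, ∏ i, (|(m i : ℝ)| + 1) ^ (-(x - N - 1)) ≤
            ∑ m ∈ Fintype.piFinset Ti, ∏ i, (|(m i : ℝ)| + 1) ^ (-(x - N - 1)) := by
              refine sum_le_sum_of_subset_of_nonneg ?_
                (fun m _ _ => prod_nonneg fun i _ => by positivity)
              intro m hm
              rw [Fintype.mem_piFinset, hTi]
              exact fun i => mem_image_of_mem (fun m : Fin r → ℤ => m i) hm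
          _ = ∏ i, ∑ k ∈ Ti i, (|(k : ℝ)| + 1) ^ (-(x - N - 1)) :=
              (prod_univ_sum Ti (fun _ (k : ℤ) => (|(k : ℝ)| + 1) ^ (-(x - N - 1)))).symm
          _ ≤ ∏ _i : Fin r, Z := by
              refine prod_le_prod (fun i _ => sum_nonneg fun k _ => by positivity) fun i _ => ?_
              exact hsum.sum_le_tsum _ fun k _ => by positivity
          _ = _ := by rw [prod_const, card_univ, Fintype.card_fin]

/-- **The main estimate.** -/
theorem main_est (hM : M.IsHC) (hNN : S.N = S'.N) (s : ℝ) (hs : r * (S.N + 2) < s) :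
    ∃ C : ℝ, ∀ v : (Fin r → ℤ) →₀ V, (∀ m, v m ∈ ktype M.act m) →
      ‖S.ι (v.sum fun _ x => x)‖ ≤
        C * ‖S'.ι (v.sum fun m x => (((1 + ∑ i, (m i : ℝ) ^ 2) ^ (s / 2) : ℝ) : ℂ) • x)‖ := by
  obtain ⟨C, hC, h1⟩ := type_est S S' hM hNN
  obtain ⟨C2, hC2, h2⟩ := sum_bound (r := r) S.N s S.hN hs
  refine ⟨C * C2 * |S'.C| ^ r, fun v hv => ?_⟩
  set y := v.sum fun m x => (((1 + ∑ i, (m i : ℝ) ^ 2) ^ (s / 2) : ℝ) : ℂ) • x with hy
  have h3 : ∀ m ∈ v.support, ‖S'.ι (v m)‖ ≤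
      ((1 + ∑ i, (m i : ℝ) ^ 2) ^ (s / 2))⁻¹ * (|S'.C| ^ r * ‖S'.ι y‖) := by
    intro m hm
    have hA : 0 < (1 + ∑ i, (m i : ℝ) ^ 2) ^ (s / 2) := by
      refine Real.rpow_pos_of_pos ?_ _
      have : 0 ≤ ∑ i, (m i : ℝ) ^ 2 := sum_nonneg fun i _ => sq_nonneg _
      linarith
    have h4 : opP S' m (List.finRange r) (S'.ι y) =
        (((1 + ∑ i, (m i : ℝ) ^ 2) ^ (s / 2) : ℝ) : ℂ) • S'.ι (v m) := by
      rw [hy, Finsupp.sum, map_sum, map_sum, sum_eq_single m]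
      · rw [map_smul, map_smul, opP_all S' m m (hv m), if_pos rfl]
      · intro m' _ hm'
        rw [map_smul, map_smul, opP_all S' m m' (hv m'), if_neg (Ne.symm hm'), smul_zero]
      · intro h
        exact absurd hm h
    have h5 := opP_norm S' m (List.finRange r) (S'.ι y)
    rw [h4, norm_smul, Complex.norm_real, Real.norm_of_nonneg hA.le, List.length_finRange] at h5
    rw [le_inv_mul_iff₀ hA]
    exact h5
  calc ‖S.ι (v.sum fun _ x => x)‖ ≤ ∑ m ∈ v.support, ‖S.ι (v m)‖ := by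
        rw [Finsupp.sum, map_sum]
        exact norm_sum_le _ _
    _ ≤ ∑ m ∈ v.support, C * (∏ i, (|(m i : ℝ)| + 1) ^ (S.N + 1)) *
          (((1 + ∑ i, (m i : ℝ) ^ 2) ^ (s / 2))⁻¹ * (|S'.C| ^ r * ‖S'.ι y‖)) := by
        refine sum_le_sum fun m hm => (h1 m (v m) (hv m)).trans ?_
        refine mul_le_mul_of_nonneg_left (h3 m hm) ?_
        exact mul_nonneg hC (prod_nonneg fun i _ => by positivity)
    _ = C * (|S'.C| ^ r * ‖S'.ι y‖) * ∑ m ∈ v.support, (∏ i, (|(m i : ℝ)| + 1) ^ (S.N + 1)) *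
          ((1 + ∑ i, (m i : ℝ) ^ 2) ^ (s / 2))⁻¹ := by
        rw [mul_sum]
        refine sum_congr rfl fun m _ => ?_
        ring
    _ ≤ C * (|S'.C| ^ r * ‖S'.ι y‖) * C2 := mul_le_mul_of_nonneg_left (h2 _) (by positivity)
    _ = _ := by ring

end Pool.Agent.SGap
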