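import Pool.Agent.Lib.MP_496a9e_al.Fac

/-!
# The transition functions `t ↦ P m ρ(dia t) ι(v)`
-/

namespace Pool.Agent.SGap

open MeasureTheory Topology Filter Set

variable {V E : Type*} [AddCommGroup V] [Module ℂ V] [NormedAddCommGroup E]
    [NormedSpace ℂ E] (R : Fac V E)

set_option linter.unusedSectionVars false

namespace Fac

variable [CompleteSpace E]

/-- `P m ρ(dia t) ι(v)` -/
noncomputable def T (m : ℤ) (t : ℝ) (v : V) : E := R.P m (R.ρ (dia t) (R.ι v))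

theorem T_add (m : ℤ) (t : ℝ) (v w : V) : R.T m t (v + w) = R.T m t v + R.T m t w := by
  simp [T]

theorem T_sub (m : ℤ) (t : ℝ) (v w : V) : R.T m t (v - w) = R.T m t v - R.T m t w := by
  simp [T]

theorem T_smul (m : ℤ) (t : ℝ) (c : ℂ) (v : V) : R.T m t (c • v) = c • R.T m t v := by
  simp [T]

theorem T_norm (m : ℤ) {t : ℝ} (ht : 0 ≤ t) (v : V) :
    ‖R.T m t v‖ ≤ R.C ^ 2 * Real.exp (R.N * t) * ‖R.ι v‖ := by
  calc ‖R.T m t v‖ ≤ ‖R.P m‖ * (‖R.ρ (dia t)‖ * ‖R.ι v‖) :=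
        ((R.P m).le_opNorm _).trans (mul_le_mul_of_nonneg_left ((R.ρ (dia t)).le_opNorm _)
          (norm_nonneg _))
    _ ≤ R.C * ((R.C * Real.exp (R.N * t)) * ‖R.ι v‖) := by
        have h1 := R.P_norm m
        have h2 := R.bd_dia t ht
        have h3 := R.C_nonneg
        gcongr
    _ = _ := by ring

theorem der_T (m : ℤ) (t : ℝ) (v : V) :
    HasDerivAt (fun t => R.T m t v) (R.T m t (R.D Hmat v)) t :=
  ((R.P m).restrictScalars ℝ).hasFDerivAt.comp_hasDerivAt t (R.der_dia t v)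

theorem cont_T (m : ℤ) (v : V) : Continuous fun t => R.T m t v :=
  continuous_iff_continuousAt.2 fun t => (R.der_T m t v).continuousAt

theorem D_comb (a b : ℝ) (Z Z' : sl2) (v : V) :
    R.D (a • Z + b • Z') v = (a : ℂ) • R.D Z v + (b : ℂ) • R.D Z' v := by
  rw [map_add, map_smul, map_smul]
  simp only [LinearMap.add_apply, LinearMap.smul_apply, Complex.coe_smul]

theorem D_comb' (a b : ℝ) (Z Z' : sl2) (v : V) :
    R.D (a • Z - b • Z') v = (a : ℂ) • R.D Z v - (b : ℂ) • R.D Z' v := by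
  rw [map_sub, map_smul, map_smul]
  simp only [LinearMap.sub_apply, LinearMap.smul_apply, Complex.coe_smul]

/-- The relation from the invariance under rotations. -/
theorem XR (m n : ℤ) (t : ℝ) (v : V) (hv : R.D Wmat v = (Complex.I * n) • v) :
    (Real.sinh (2 * t) : ℂ) • R.T m t (R.D Xmat v) =
      (Complex.I * (n * Real.cosh (2 * t) - m)) • R.T m t v := by
  have h1 : HasDerivAt (fun u => R.P m (R.ρ (rot u) (R.ρ (dia t) (R.ι v))))
      (R.P m (R.ρ (dia t) (R.ι (R.D (Ad1 (dia t)⁻¹ Wmat) v)))) 0 :=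
    ((R.P m).restrictScalars ℝ).hasFDerivAt.comp_hasDerivAt (0 : ℝ) (R.der_at one1_rot (dia t) v)
  have h2 : HasDerivAt (fun u : ℝ => Complex.exp (Complex.I * m * u) • R.T m t v)
      ((Complex.I * m) • R.T m t v) 0 := by
    have e : HasDerivAt (fun u : ℝ => Complex.exp (Complex.I * m * u)) (Complex.I * m) 0 := by
      have a1 : HasDerivAt (fun u : ℂ => Complex.I * m * u) (Complex.I * m) (((0 : ℝ)) : ℂ) := by
        simpa using (hasDerivAt_id (((0 : ℝ)) : ℂ)).const_mul (Complex.I * (m : ℂ))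
      have a2 := a1.cexp.comp_ofReal
      simpa using a2
    exact e.smul_const _
  have h3 : (fun u => R.P m (R.ρ (rot u) (R.ρ (dia t) (R.ι v)))) =
      (fun u : ℝ => Complex.exp (Complex.I * m * u) • R.T m t v) := by
    funext u
    rw [P_rot]
    rfl
  rw [h3] at h1
  have h4 := h1.unique h2
  rw [ad_dia_W, D_comb', hv] at h4
  change R.T m t _ = _ at h4
  rw [T_sub, T_smul, T_smul, T_smul, smul_smul] at h4
  have h5 : (Real.sinh (2 * t) : ℂ) • R.T m t (R.D Xmat v) =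
      ((Real.cosh (2 * t) : ℂ) * (Complex.I * n)) • R.T m t v - (Complex.I * m) • R.T m t v := by
    rw [← h4]; abel
  rw [h5, ← sub_smul]
  congr 1
  ring

theorem pI_shift (m : ℤ) (θ : ℝ) (x : E) (k : ℤ) :
    Complex.exp (Complex.I * k * θ) • R.pI m θ x = R.pI (m - k) θ x := by
  unfold pI
  simp only [_root_.smul_apply]
  rw [smul_comm (Complex.exp (Complex.I * k * θ)), smul_smul (Complex.exp (Complex.I * k * θ)),
    ← Complex.exp_add]
  congr 3
  push_cast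
  ring

theorem cos_pI (m : ℤ) (θ : ℝ) (x : E) :
    (Real.cos (2 * θ) : ℂ) • R.pI m θ x =
      (1 / 2 : ℂ) • (R.pI (m + 2) θ x + R.pI (m - 2) θ x) := by
  have h1 := R.pI_shift m θ x 2
  have h2 := R.pI_shift m θ x (-2)
  rw [sub_neg_eq_add] at h2
  rw [← h1, ← h2, ← add_smul, smul_smul]
  congr 1
  rw [Complex.ofReal_cos, Complex.cos]
  push_cast
  have e1 : (2 * (θ : ℂ)) * Complex.I = Complex.I * 2 * θ := by ring
  have e2 : -(2 * (θ : ℂ)) * Complex.I = Complex.I * -2 * θ := by ring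
  rw [e1, e2]
  ring

theorem sin_pI (m : ℤ) (θ : ℝ) (x : E) :
    (Real.sin (2 * θ) : ℂ) • R.pI m θ x =
      (Complex.I / 2 : ℂ) • (R.pI (m + 2) θ x - R.pI (m - 2) θ x) := by
  have h1 := R.pI_shift m θ x 2
  have h2 := R.pI_shift m θ x (-2)
  rw [sub_neg_eq_add] at h2
  rw [← h1, ← h2, ← sub_smul, smul_smul]
  congr 1
  rw [Complex.ofReal_sin, Complex.sin]
  push_cast
  have e1 : (2 * (θ : ℂ)) * Complex.I = Complex.I * 2 * θ := by ring
  have e2 : -(2 * (θ : ℂ)) * Complex.I = Complex.I * -2 * θ := by ring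
  rw [e1, e2]
  ring

theorem int_P_add (m k : ℤ) (c d : ℂ) (x y : E) :
    ∫ θ, (c • (R.pI m θ x + R.pI k θ x) + d • (R.pI m θ y - R.pI k θ y)) ∂circ =
      c • (R.P m x + R.P k x) + d • (R.P m y - R.P k y) := by
  have i1 : ∀ (m : ℤ) (x : E), Integrable (fun θ => R.pI m θ x) circ := fun m x =>
    cont_circ (R.pI_cont m x)
  rw [integral_add (f := fun θ => c • (R.pI m θ x + R.pI k θ x))
    (g := fun θ => d • (R.pI m θ y - R.pI k θ y)) (((i1 _ _).add (i1 _ _)).smul _)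
    (((i1 _ _).sub (i1 _ _)).smul _), integral_smul, integral_smul,
    integral_add (i1 _ _) (i1 _ _), integral_sub (i1 _ _) (i1 _ _)]
  rfl

theorem int_P_sub (m k : ℤ) (c d : ℂ) (x y : E) :
    ∫ θ, (c • (R.pI m θ x + R.pI k θ x) - d • (R.pI m θ y - R.pI k θ y)) ∂circ =
      c • (R.P m x + R.P k x) - d • (R.P m y - R.P k y) := by
  have i1 : ∀ (m : ℤ) (x : E), Integrable (fun θ => R.pI m θ x) circ := fun m x =>
    cont_circ (R.pI_cont m x)
  rw [integral_sub (f := fun θ => c • (R.pI m θ x + R.pI k θ x))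
    (g := fun θ => d • (R.pI m θ y - R.pI k θ y)) (((i1 _ _).add (i1 _ _)).smul _)
    (((i1 _ _).sub (i1 _ _)).smul _), integral_smul, integral_smul,
    integral_add (i1 _ _) (i1 _ _), integral_sub (i1 _ _) (i1 _ _)]
  rfl

/-- a local bound along a continuous one-parameter subgroup -/
theorem bd_path {γ : ℝ → SL} (hγ : Continuous γ) (h0 : γ 0 = 1) :
    ∃ M, ∀ᶠ u in 𝓝 (0 : ℝ), ‖R.ρ (γ u)‖ ≤ M := by
  obtain ⟨M, hM⟩ := R.bd_loc
  refine ⟨M, ?_⟩
  have : Tendsto γ (𝓝 0) (𝓝 1) := by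
    rw [← h0]; exact hγ.tendsto 0
  exact this.eventually hM

/-- Derivative of a one-parameter group at `P m ρ(dia t) ι(v)`. -/
theorem der_P {γ : ℝ → SL} {Z : sl2} (h : One1 γ Z) (hγ : Continuous γ) (m : ℤ) (t : ℝ) (v : V)
    (hc : Continuous fun θ => R.pI m θ (R.ρ (dia t) (R.ι (R.D (Ad1 (rot θ * dia t)⁻¹ Z) v)))) :
    HasDerivAt (fun u => R.ρ (γ u) (R.T m t v))
      (∫ θ, R.pI m θ (R.ρ (dia t) (R.ι (R.D (Ad1 (rot θ * dia t)⁻¹ Z) v))) ∂circ) 0 := by
  obtain ⟨M, hM⟩ := R.bd_path hγ h.zero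
  refine gen_integral (U := fun u => R.ρ (γ u)) (fun s t x => by rw [h.1, mul_apply])
    (fun x => by rw [h.zero, one_apply]) hM (cont_circ (R.pI_cont m _)) (cont_circ hc) ?_
  intro θ
  have h1 := R.der_at h (rot θ * dia t) v
  rw [R.mul_apply (rot θ) (dia t) (R.ι (R.D (Ad1 (rot θ * dia t)⁻¹ Z) v))] at h1
  unfold pI
  simp only [_root_.smul_apply, map_smul]
  rw [← mul_apply]
  have h2 := (h1.const_smul (Complex.exp (-(Complex.I * m * θ)))).const_smul
    (((2 * Real.pi)⁻¹ : ℝ) : ℂ)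
  refine h2.congr_of_eventuallyEq (Eventually.of_forall fun u => ?_)
  simp only [Pi.smul_apply, mul_apply]

theorem key_H (m : ℤ) (t θ : ℝ) (v : V) :
    R.pI m θ (R.ρ (dia t) (R.ι (R.D (Ad1 (rot θ * dia t)⁻¹ Hmat) v))) =
      (1 / 2 : ℂ) • (R.pI (m + 2) θ (R.ρ (dia t) (R.ι (R.D Hmat v))) +
        R.pI (m - 2) θ (R.ρ (dia t) (R.ι (R.D Hmat v)))) +
      (Complex.I / 2 : ℂ) • (R.pI (m + 2) θ (R.ρ (dia t) (R.ι (R.D (Ad1 (dia t)⁻¹ Xmat) v))) -
        R.pI (m - 2) θ (R.ρ (dia t) (R.ι (R.D (Ad1 (dia t)⁻¹ Xmat) v)))) := by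
  rw [← cos_pI, ← sin_pI, Ad1_mul, ad_rot_H]
  have e : Ad1 (dia t)⁻¹ (Real.cos (2 * θ) • Hmat + Real.sin (2 * θ) • Xmat) =
      Real.cos (2 * θ) • Hmat + Real.sin (2 * θ) • Ad1 (dia t)⁻¹ Xmat := by
    nth_rewrite 2 [← ad_dia_H t]
    apply Subtype.ext
    simp only [coe_Ad1, Submodule.coe_add, Submodule.coe_smul, Matrix.mul_add, Matrix.add_mul,
      Matrix.mul_smul, Matrix.smul_mul]
  rw [e, D_comb, map_add, map_smul, map_smul, map_add, map_smul, map_smul, map_add, map_smul,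
    map_smul]

theorem key_X (m : ℤ) (t θ : ℝ) (v : V) :
    R.pI m θ (R.ρ (dia t) (R.ι (R.D (Ad1 (rot θ * dia t)⁻¹ Xmat) v))) =
      (1 / 2 : ℂ) • (R.pI (m + 2) θ (R.ρ (dia t) (R.ι (R.D (Ad1 (dia t)⁻¹ Xmat) v))) +
        R.pI (m - 2) θ (R.ρ (dia t) (R.ι (R.D (Ad1 (dia t)⁻¹ Xmat) v)))) -
      (Complex.I / 2 : ℂ) • (R.pI (m + 2) θ (R.ρ (dia t) (R.ι (R.D Hmat v))) -
        R.pI (m - 2) θ (R.ρ (dia t) (R.ι (R.D Hmat v)))) := by
  rw [← cos_pI, ← sin_pI, Ad1_mul, ad_rot_X]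
  have e : Ad1 (dia t)⁻¹ (Real.cos (2 * θ) • Xmat - Real.sin (2 * θ) • Hmat) =
      Real.cos (2 * θ) • Ad1 (dia t)⁻¹ Xmat - Real.sin (2 * θ) • Hmat := by
    nth_rewrite 2 [← ad_dia_H t]
    apply Subtype.ext
    simp only [coe_Ad1, Submodule.coe_sub, Submodule.coe_smul, Matrix.mul_sub, Matrix.sub_mul,
      Matrix.mul_smul, Matrix.smul_mul]
  rw [e, D_comb', map_sub, map_smul, map_smul, map_sub, map_smul, map_smul, map_sub, map_smul,
    map_smul]

/-- the derivative of `ρ(dia u)` at `T m t v` -/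
noncomputable def yH (m : ℤ) (t : ℝ) (v : V) : E :=
  (1 / 2 : ℂ) • (R.T (m + 2) t (R.D Hmat v) + R.T (m - 2) t (R.D Hmat v)) +
    (Complex.I / 2 : ℂ) • (R.T (m + 2) t (R.D (Ad1 (dia t)⁻¹ Xmat) v) -
      R.T (m - 2) t (R.D (Ad1 (dia t)⁻¹ Xmat) v))

/-- the derivative of `ρ(hyp u)` at `T m t v` -/
noncomputable def yX (m : ℤ) (t : ℝ) (v : V) : E :=
  (1 / 2 : ℂ) • (R.T (m + 2) t (R.D (Ad1 (dia t)⁻¹ Xmat) v) +
      R.T (m - 2) t (R.D (Ad1 (dia t)⁻¹ Xmat) v)) -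
    (Complex.I / 2 : ℂ) • (R.T (m + 2) t (R.D Hmat v) - R.T (m - 2) t (R.D Hmat v))

theorem continuous_hyp : Continuous hyp := by
  refine Continuous.subtype_mk ?_ _
  refine continuous_matrix ?_
  intro i j
  fin_cases i <;> fin_cases j <;> simp <;> fun_prop

theorem der_dia_T (m : ℤ) (t : ℝ) (v : V) :
    HasDerivAt (fun u => R.ρ (dia u) (R.T m t v)) (R.yH m t v) 0 := by
  have hc : Continuous fun θ =>
      R.pI m θ (R.ρ (dia t) (R.ι (R.D (Ad1 (rot θ * dia t)⁻¹ Hmat) v))) := by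
    simp only [key_H]
    exact (((R.pI_cont _ _).add (R.pI_cont _ _)).const_smul _).add
      (((R.pI_cont _ _).sub (R.pI_cont _ _)).const_smul _)
  have h := R.der_P one1_dia continuous_dia m t v hc
  convert h using 1
  simp only [key_H]
  rw [int_P_add]
  rfl

theorem der_hyp_T (m : ℤ) (t : ℝ) (v : V) :
    HasDerivAt (fun u => R.ρ (hyp u) (R.T m t v)) (R.yX m t v) 0 := by
  have hc : Continuous fun θ =>
      R.pI m θ (R.ρ (dia t) (R.ι (R.D (Ad1 (rot θ * dia t)⁻¹ Xmat) v))) := by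
    simp only [key_X]
    exact (((R.pI_cont _ _).add (R.pI_cont _ _)).const_smul _).sub
      (((R.pI_cont _ _).sub (R.pI_cont _ _)).const_smul _)
  have h := R.der_P one1_hyp continuous_hyp m t v hc
  convert h using 1
  simp only [key_X]
  rw [int_P_sub]
  rfl

/-- The combination `(yH + i ε yX) / 2` for `ε = ± 1`. -/
theorem yHX (m : ℤ) (t : ℝ) (v : V) (ε : ℤ) (hε : ε = 1 ∨ ε = -1) :
    (1 / 2 : ℂ) • (R.yH m t v + (Complex.I * ε) • R.yX m t v) =
      (1 / 2 : ℂ) • (R.T (m + 2 * ε) t (R.D Hmat v) +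
        (Complex.I * ε) • R.T (m + 2 * ε) t (R.D (Ad1 (dia t)⁻¹ Xmat) v)) := by
  congr 1
  unfold yH yX
  rcases hε with rfl | rfl
  · have e : m + 2 * 1 = m + 2 := by ring
    rw [e]
    generalize R.T (m + 2) t (R.D Hmat v) = a
    generalize R.T (m - 2) t (R.D Hmat v) = a'
    generalize R.T (m + 2) t (R.D (Ad1 (dia t)⁻¹ Xmat) v) = b
    generalize R.T (m - 2) t (R.D (Ad1 (dia t)⁻¹ Xmat) v) = b'
    have hI : Complex.I * Complex.I = -1 := Complex.I_mul_I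
    simp only [smul_add, smul_sub, smul_smul]
    have c1 : Complex.I * ((1 : ℤ) : ℂ) * (1 / 2) = Complex.I / 2 := by push_cast; ring
    have c2 : Complex.I * ((1 : ℤ) : ℂ) * (Complex.I / 2) = -(1 / 2) := by
      push_cast
      linear_combination (1 / 2 : ℂ) * hI
    rw [c1, c2]
    have c3 : Complex.I * ((1 : ℤ) : ℂ) = Complex.I / 2 + Complex.I / 2 := by push_cast; ring
    rw [c3, add_smul]
    have c4 : a = (1 / 2 : ℂ) • a + (1 / 2 : ℂ) • a := by
      rw [← add_smul]; norm_num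
    nth_rewrite 3 [c4]
    module
  · have e : m + 2 * -1 = m - 2 := by ring
    rw [e]
    generalize R.T (m + 2) t (R.D Hmat v) = a
    generalize R.T (m - 2) t (R.D Hmat v) = a'
    generalize R.T (m + 2) t (R.D (Ad1 (dia t)⁻¹ Xmat) v) = b
    generalize R.T (m - 2) t (R.D (Ad1 (dia t)⁻¹ Xmat) v) = b'
    have hI : Complex.I * Complex.I = -1 := Complex.I_mul_I
    simp only [smul_add, smul_sub, smul_smul]
    have c1 : Complex.I * ((-1 : ℤ) : ℂ) * (1 / 2) = -(Complex.I / 2) := by push_cast; ring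
    have c2 : Complex.I * ((-1 : ℤ) : ℂ) * (Complex.I / 2) = (1 / 2) := by
      push_cast
      linear_combination (-1 / 2 : ℂ) * hI
    rw [c1, c2]
    have c3 : Complex.I * ((-1 : ℤ) : ℂ) = -(Complex.I / 2) + -(Complex.I / 2) := by
      push_cast; ring
    rw [c3, add_smul]
    module

end Fac

end Pool.Agent.SGap
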