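import Pool.Agent.Lib.MP_496a9e_al.Multi

/-!
# Finite generation: the Casimir operators satisfy polynomials; surjectivity of raising
-/

namespace Pool.Agent.SGap

open Polynomial

variable {r : ℕ} {V : Type*} [AddCommGroup V] [Module ℂ V]

set_option linter.unusedSectionVars false

theorem aeval_mem {Y : Submodule ℂ V} {f : V →ₗ[ℂ] V} (hf : ∀ y ∈ Y, f y ∈ Y) (p : ℂ[X])
    (y : Y) : ((aeval (f.restrict hf) p) y : V) = aeval f p (y : V) := by
  induction p using Polynomial.induction_on' with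
  | add p q hp hq =>
    rw [map_add, map_add, LinearMap.add_apply, LinearMap.add_apply, Submodule.coe_add, hp, hq]
  | monomial n a =>
    rw [aeval_monomial, aeval_monomial, Module.End.mul_apply, Module.End.mul_apply]
    simp only [Module.algebraMap_end_apply, Submodule.coe_smul]
    congr 1
    induction n with
    | zero => rfl
    | succ n ih =>
      rw [pow_succ', pow_succ', Module.End.mul_apply, Module.End.mul_apply, ← ih]
      rfl

/-- On a finite dimensional invariant subspace a polynomial vanishes. -/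
theorem exists_poly {Y : Submodule ℂ V} [FiniteDimensional ℂ Y] {f : V →ₗ[ℂ] V}
    (hf : ∀ y ∈ Y, f y ∈ Y) : ∃ p : ℂ[X], p ≠ 0 ∧ ∀ y ∈ Y, aeval f p y = 0 := by
  refine ⟨(f.restrict hf).charpoly, (LinearMap.charpoly_monic _).ne_zero, fun y hy => ?_⟩
  have h := LinearMap.aeval_self_charpoly (f.restrict hf)
  have h1 := aeval_mem hf (f.restrict hf).charpoly ⟨y, hy⟩
  rw [h] at h1
  exact h1.symm

theorem aeval_comm {f A : V →ₗ[ℂ] V} (h : ∀ v, f (A v) = A (f v)) (p : ℂ[X]) (v : V) :
    aeval f p (A v) = A (aeval f p v) := by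
  induction p using Polynomial.induction_on' with
  | add p q hp hq => rw [map_add, LinearMap.add_apply, LinearMap.add_apply, map_add, hp, hq]
  | monomial n a =>
    rw [aeval_monomial, Module.End.mul_apply, Module.End.mul_apply]
    simp only [Module.algebraMap_end_apply, map_smul]
    congr 1
    induction n with
    | zero => rfl
    | succ n ih => rw [pow_succ', Module.End.mul_apply, Module.End.mul_apply, ih, h]

theorem aeval_eigen {f : V →ₗ[ℂ] V} {v : V} {c : ℂ} (h : f v = c • v) (p : ℂ[X]) :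
    aeval f p v = p.eval c • v := by
  induction p using Polynomial.induction_on' with
  | add p q hp hq => rw [map_add, LinearMap.add_apply, hp, hq, eval_add, add_smul]
  | monomial n a =>
    rw [aeval_monomial, Module.End.mul_apply, eval_monomial, mul_smul]
    simp only [Module.algebraMap_end_apply]
    congr 1
    induction n with
    | zero => simp
    | succ n ih => rw [pow_succ', Module.End.mul_apply, ih, map_smul, h, smul_smul, pow_succ]

/-- The Casimir operators of the factors satisfy polynomials. -/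
theorem exists_poly_HC (M : GKModule r V) (hM : M.IsHC) (i : Fin r) :
    ∃ p : ℂ[X], p ≠ 0 ∧ ∀ v : V, aeval (Om (Dm M i)) p v = 0 := by
  obtain ⟨⟨S, hS⟩, hfd⟩ := hM
  have hmem : ∀ v : V, ∃ T : Finset (Fin r → ℤ), v ∈ ⨆ m ∈ T, ktype M.act m := fun v =>
    Submodule.mem_iSup_iff_exists_finset.1 (by rw [M.isK.types]; trivial)
  choose T hT using hmem
  let T' := S.biUnion T
  let Y : Submodule ℂ V := ⨆ m ∈ T', ktype M.act m
  have hY : FiniteDimensional ℂ Y := by
    have := hfd
    have h := Submodule.finiteDimensional_finset_sup T' fun m => ktype M.act m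
    rwa [Finset.sup_eq_iSup] at h
  have hinv : ∀ y ∈ Y, Om (Dm M i) y ∈ Y := by
    intro y hy
    have h1 : Y ≤ Y.comap (Om (Dm M i)) := by
      refine iSup₂_le fun m hm => ?_
      intro v hv
      rw [Submodule.mem_comap]
      exact (le_iSup₂_of_le m hm (le_refl _) : ktype M.act m ≤ Y) (Om_mem M i hv)
    exact h1 hy
  obtain ⟨p, hp, hpY⟩ := exists_poly hinv
  refine ⟨p, hp, ?_⟩
  have hU : LinearMap.ker (aeval (Om (Dm M i)) p) = ⊤ := by
    refine hS _ ?_ ?_
    · intro v hv
      rw [LinearMap.mem_ker]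
      refine hpY v ?_
      have h1 : (⨆ m ∈ T v, ktype M.act m) ≤ Y := by
        refine iSup₂_le fun m hm => ?_
        exact le_iSup₂_of_le m (Finset.mem_biUnion.2 ⟨v, hv, hm⟩) (le_refl _)
      exact h1 (hT v)
    · intro X u hu
      rw [LinearMap.mem_ker] at hu ⊢
      have hc : ∀ v, Om (Dm M i) (M.lie X v) = M.lie X (Om (Dm M i) v) := by
        intro v
        rw [lie_eq, lie_eq, map_sum]
        refine Finset.sum_congr rfl fun k _ => ?_
        by_cases hk : k = i
        · subst hk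
          exact (Dm_isRep M k).Om_comm _ _
        · exact ((commD_D M (Ne.symm hk) (X k)).cOm v).symm
      rw [aeval_comm hc, hu, map_zero]
  intro v
  have : v ∈ LinearMap.ker (aeval (Om (Dm M i)) p) := by rw [hU]; trivial
  exact this

/-- All large `n` are regular for the Casimir operator. -/
theorem exists_regular (M : GKModule r V) (hM : M.IsHC) (i : Fin r) :
    ∃ n1 : ℕ, ∀ b j : ℕ, n1 ≤ b → ∀ v : V, qf (Dm M i) b j v = 0 → v = 0 := by
  obtain ⟨p, hp, hpv⟩ := exists_poly_HC M hM i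
  obtain ⟨B, hB⟩ : ∃ B : ℝ, ∀ c ∈ p.roots.toFinset, ‖c‖ ≤ B := by
    have := (p.roots.toFinset.image fun c => ‖c‖).bddAbove
    obtain ⟨B, hB⟩ := this
    exact ⟨B, fun c hc => hB (Finset.mem_coe.2 (Finset.mem_image_of_mem _ hc))⟩
  obtain ⟨n, hn⟩ := exists_nat_gt B
  refine ⟨n + 1, fun b j hb v hv => ?_⟩
  by_contra hv0
  rw [qf_apply, smul_eq_zero] at hv
  rcases hv with hv | hv
  · norm_num at hv
  · have h1 : Om (Dm M i) v = ((((b : ℤ) + 2 * j + 1) ^ 2 - 1 : ℤ) : ℂ) • v := by
      rw [← sub_eq_zero, sub_eq_add_neg, ← neg_smul]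
      convert hv using 3
      push_cast
      ring
    have h2 := aeval_eigen h1 p
    rw [hpv, eq_comm, smul_eq_zero] at h2
    rcases h2 with h2 | h2
    · have h3 := hB _ (by
        rw [Multiset.mem_toFinset, mem_roots hp]
        exact h2)
      have h4 : ‖((((b : ℤ) + 2 * j + 1) ^ 2 - 1 : ℤ) : ℂ)‖ = ((b : ℝ) + 2 * j + 1) ^ 2 - 1 := by
        rw [Complex.norm_intCast]
        push_cast
        rw [abs_of_nonneg]
        nlinarith [(Nat.cast_nonneg b : (0:ℝ) ≤ b), (Nat.cast_nonneg j : (0:ℝ) ≤ j)]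
      rw [h4] at h3
      have h5 : ((n : ℝ) + 1) ≤ b := by exact_mod_cast hb
      nlinarith [(Nat.cast_nonneg b : (0:ℝ) ≤ b), (Nat.cast_nonneg j : (0:ℝ) ≤ j),
        (Nat.cast_nonneg n : (0:ℝ) ≤ n)]
    · exact hv0 h2

/-- One raising step is surjective. -/
theorem surj_step (M : GKModule r V) (hM : M.IsHC) (i : Fin r) (ε : ℤ) (hε : ε = 1 ∨ ε = -1)
    (b k : ℕ) (hreg : ∀ v : V, qf (Dm M i) b k v = 0 → v = 0) {m : Fin r → ℤ}
    (hm : m i = ε * (b + 2 * (k + 1))) {v : V} (hv : v ∈ ktype M.act m) :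
    ∃ u ∈ ktype M.act (m + Pi.single i (-(2 * ε))), EE (Dm M i) ε u = v := by
  have := hM.2 m
  have hinv : ∀ y ∈ ktype M.act m, qf (Dm M i) b k y ∈ ktype M.act m := fun y hy =>
    qf_mem M i b k hy
  have hinj : Function.Injective ((qf (Dm M i) b k).restrict hinv) := by
    rw [← LinearMap.ker_eq_bot, LinearMap.ker_eq_bot']
    intro y hy
    exact Subtype.ext (hreg y (congrArg Subtype.val hy))
  obtain ⟨z, hz⟩ := LinearMap.injective_iff_surjective.1 hinj ⟨v, hv⟩
  have hz' : qf (Dm M i) b k z = v := congrArg Subtype.val hz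
  have h1 := (Dm_isRep M i).FE (-ε) (by rcases hε with rfl | rfl <;> simp) (m i) z (Dm_W M z.2 i)
  rw [neg_neg] at h1
  refine ⟨EE (Dm M i) (-ε) z, ?_, ?_⟩
  · have h2 := EE_mem M i (-ε) (by rcases hε with rfl | rfl <;> simp) z.2
    rwa [mul_neg] at h2
  · rw [h1, ← hz', qf_apply]
    congr 3
    rw [hm]
    rcases hε with rfl | rfl <;> ring_nf

theorem surj_pow (M : GKModule r V) (hM : M.IsHC) (i : Fin r) (ε : ℤ) (hε : ε = 1 ∨ ε = -1)
    (b l : ℕ) (hreg : ∀ k < l, ∀ v : V, qf (Dm M i) b k v = 0 → v = 0) {m : Fin r → ℤ}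
    (hm : m i = ε * b) {v : V} (hv : v ∈ ktype M.act (m + Pi.single i (2 * ε * l))) :
    ∃ u ∈ ktype M.act m, (EE (Dm M i) ε ^ l) u = v := by
  induction l generalizing v with
  | zero => exact ⟨v, by simpa using hv, rfl⟩
  | succ l ih =>
    have h1 : (m + Pi.single i (2 * ε * ((l + 1 : ℕ) : ℤ)) : Fin r → ℤ) i =
        ε * (b + 2 * (l + 1)) := by
      rw [Pi.add_apply, Pi.single_eq_same, hm]
      push_cast
      ring
    obtain ⟨w, hw, hwv⟩ := surj_step M hM i ε hε b l (hreg l (Nat.lt_succ_self l)) h1 hv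
    have h2 : (m + Pi.single i (2 * ε * ((l + 1 : ℕ) : ℤ)) + Pi.single i (-(2 * ε)) : Fin r → ℤ) =
        m + Pi.single i (2 * ε * l) := by
      rw [add_assoc, ← Pi.single_add]
      congr 2
      push_cast
      ring
    rw [h2] at hw
    obtain ⟨u, hu, huw⟩ := ih (fun k hk => hreg k (hk.trans (Nat.lt_succ_self l))) hw
    refine ⟨u, hu, ?_⟩
    rw [pow_succ', Module.End.mul_apply, huw, hwv]

/-- Raising in all factors is surjective. -/
theorem surj_all (M : GKModule r V) (hM : M.IsHC) (ε : Fin r → ℤ)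
    (hε : ∀ i, ε i = 1 ∨ ε i = -1) (b l : Fin r → ℕ)
    (hreg : ∀ i, ∀ k < l i, ∀ v : V, qf (Dm M i) (b i) k v = 0 → v = 0)
    {L : List (Fin r)} (hL : L.Nodup) {v : V}
    (hv : v ∈ ktype M.act fun i => if i ∈ L then ε i * (b i + 2 * l i) else ε i * b i) :
    ∃ u ∈ ktype M.act fun i => ε i * b i, opE M ε l L u = v := by
  induction L generalizing v with
  | nil => exact ⟨v, by simpa using hv, rfl⟩
  | cons i L ih =>
    rw [List.nodup_cons] at hL
    have h1 : (fun k => if k ∈ i :: L then ε k * ((b k : ℤ) + 2 * l k) else ε k * b k) =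
        (fun k => if k ∈ L then ε k * ((b k : ℤ) + 2 * l k) else ε k * b k) +
          Pi.single i (2 * ε i * l i) := by
      funext k
      by_cases hk : k = i
      · subst hk
        simp [hL.1]
        ring
      · simp [hk, List.mem_cons]
    rw [h1] at hv
    obtain ⟨w, hw, hwv⟩ := surj_pow M hM i (ε i) (hε i) (b i) (l i) (hreg i) (by simp [hL.1]) hv
    obtain ⟨u, hu, huw⟩ := ih hL.2 hw
    exact ⟨u, hu, by rw [opE_cons, huw, hwv]⟩

end Pool.Agent.SGap
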